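import Mathlib

/-!
Deterministic bounds from Chebyshev's estimates.
-/

namespace Pool.Agent.Work.MP_e9b29d_nt

open Finset ArithmeticFunction

lemma dyadic_real (f : ℕ → ℝ) (hf : ∀ n, 0 ≤ f n) (hf1 : f 1 = 0) (G : ℕ → ℝ)
    (hG : ∀ N, ∑ n ∈ Ioc 0 N, f n ≤ G N) {σ : ℝ} (hσ : 0 ≤ σ) (J : ℕ) :
    ∑ n ∈ Ioc 0 (2 ^ J), f n * (n : ℝ) ^ (-σ) ≤
      ∑ j ∈ range J, ((2 : ℝ) ^ j) ^ (-σ) * G (2 ^ (j + 1)) := by
  induction J with
  | zero =>
    have : Ioc 0 (2 ^ 0) = ({1} : Finset ℕ) := by decide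
    rw [this]
    simp [hf1]
  | succ J ih =>
    rw [sum_range_succ,
      ← Finset.sum_Ioc_consecutive (fun n : ℕ => f n * (n : ℝ) ^ (-σ)) (Nat.zero_le (2 ^ J))
        (Nat.pow_le_pow_right (by norm_num) (by omega : J ≤ J + 1))]
    apply add_le_add ih
    have h1 : ∑ n ∈ Ioc (2 ^ J) (2 ^ (J + 1)), f n * (n : ℝ) ^ (-σ) ≤
        ∑ n ∈ Ioc (2 ^ J) (2 ^ (J + 1)), ((2 : ℝ) ^ J) ^ (-σ) * f n := by
      apply Finset.sum_le_sum
      intro n hn
      rw [mul_comm]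
      apply mul_le_mul_of_nonneg_right _ (hf n)
      apply Real.rpow_le_rpow_of_nonpos (by positivity) _ (by linarith)
      exact_mod_cast (mem_Ioc.1 hn).1.le
    refine le_trans h1 ?_
    rw [← Finset.mul_sum]
    apply mul_le_mul_of_nonneg_left _ (by positivity)
    refine le_trans ?_ (hG (2 ^ (J + 1)))
    apply Finset.sum_le_sum_of_subset_of_nonneg
    · exact Ioc_subset_Ioc_left (Nat.zero_le _)
    · intro n _ _
      exact hf n

theorem prime_powers_bound {a : ℝ} (ha : 1 / 2 < a) : ∃ C : ℝ, 0 ≤ C ∧ ∀ N : ℕ,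
    ∑ n ∈ Ioc 0 N, (if n.Prime then 0 else vonMangoldt n) * (n : ℝ) ^ (-a) ≤ C := by
  obtain ⟨C0, hC0⟩ := Chebyshev.psi_sub_theta_le_mul_sqrt
  set C1 : ℝ := max C0 0 with hC1
  have hC1' : 0 ≤ C1 := le_max_right _ _
  set r : ℝ := (2 : ℝ) ^ (-(a - 1 / 2)) with hr
  have hr0 : 0 < r := by positivity
  have hr1 : r < 1 := Real.rpow_lt_one_of_one_lt_of_neg (by norm_num) (by linarith)
  refine ⟨C1 * 2 / (1 - r), by apply div_nonneg (by positivity) (by linarith), ?_⟩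
  intro N
  have hf : ∀ n : ℕ, 0 ≤ (if n.Prime then 0 else vonMangoldt n) := by
    intro n
    split_ifs
    · exact le_rfl
    · exact vonMangoldt_nonneg
  have hG : ∀ N : ℕ, ∑ n ∈ Ioc 0 N, (if n.Prime then 0 else vonMangoldt n) ≤ C1 * Real.sqrt N := by
    intro N
    have h1 := hC0 N
    rw [Chebyshev.psi_sub_theta_eq_sum_not_prime, Nat.floor_natCast, Finset.sum_filter] at h1
    have h2 : ∑ n ∈ Ioc 0 N, (if n.Prime then 0 else vonMangoldt n) =
        ∑ n ∈ Ioc 0 N, (if ¬ n.Prime then vonMangoldt n else 0) := by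
      apply Finset.sum_congr rfl
      intro n _
      by_cases h : n.Prime <;> simp [h]
    rw [h2]
    refine le_trans h1 ?_
    exact mul_le_mul_of_nonneg_right (le_max_left _ _) (Real.sqrt_nonneg _)
  have hd := dyadic_real (fun n => if n.Prime then 0 else vonMangoldt n) hf (by simp)
    (fun N => C1 * Real.sqrt N) hG (σ := a) (by linarith) N
  have hsub : Ioc 0 N ⊆ Ioc 0 (2 ^ N) := Ioc_subset_Ioc_right (Nat.lt_two_pow_self).le
  refine le_trans (Finset.sum_le_sum_of_subset_of_nonneg hsub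
    (fun n _ _ => mul_nonneg (hf n) (by positivity))) (le_trans hd ?_)
  have h3 : ∀ j ∈ range N, ((2 : ℝ) ^ j) ^ (-a) * (C1 * Real.sqrt ((2 ^ (j + 1) : ℕ) : ℝ)) ≤
      C1 * 2 * r ^ j := by
    intro j _
    have e1 : Real.sqrt ((2 ^ (j + 1) : ℕ) : ℝ) ≤ 2 * ((2 : ℝ) ^ j) ^ (1 / 2 : ℝ) := by
      have : ((2 ^ (j + 1) : ℕ) : ℝ) = 2 ^ j * 2 := by push_cast; ring
      rw [this, Real.sqrt_mul (by positivity), Real.sqrt_eq_rpow, mul_comm]
      apply mul_le_mul_of_nonneg_right _ (by positivity)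
      rw [Real.sqrt_le_left (by norm_num)]
      norm_num
    have e2 : ((2 : ℝ) ^ j) ^ (-a) * ((2 : ℝ) ^ j) ^ (1 / 2 : ℝ) = r ^ j := by
      rw [← Real.rpow_add (by positivity), hr, ← Real.rpow_natCast, ← Real.rpow_natCast,
        ← Real.rpow_mul (by norm_num), ← Real.rpow_mul (by norm_num)]
      congr 1
      ring
    calc ((2 : ℝ) ^ j) ^ (-a) * (C1 * Real.sqrt ((2 ^ (j + 1) : ℕ) : ℝ))
        ≤ ((2 : ℝ) ^ j) ^ (-a) * (C1 * (2 * ((2 : ℝ) ^ j) ^ (1 / 2 : ℝ))) := by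
          apply mul_le_mul_of_nonneg_left _ (by positivity)
          exact mul_le_mul_of_nonneg_left e1 hC1'
      _ = C1 * 2 * (((2 : ℝ) ^ j) ^ (-a) * ((2 : ℝ) ^ j) ^ (1 / 2 : ℝ)) := by ring
      _ = C1 * 2 * r ^ j := by rw [e2]
  refine le_trans (Finset.sum_le_sum h3) ?_
  rw [← Finset.mul_sum, le_div_iff₀ (by linarith), mul_assoc, geom_sum_mul_neg]
  have h4 : 0 ≤ r ^ N := by positivity
  calc C1 * 2 * (1 - r ^ N) ≤ C1 * 2 * 1 := mul_le_mul_of_nonneg_left (by linarith) (by positivity)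
    _ = C1 * 2 := by ring

lemma theta_nat_le (N : ℕ) : ∑ n ∈ Ioc 0 N, (if n.Prime then Real.log n else 0) ≤ 2 * (N : ℝ) := by
  have h1 := Chebyshev.theta_le_log4_mul_x (x := (N : ℝ)) (Nat.cast_nonneg N)
  unfold Chebyshev.theta at h1
  rw [Nat.floor_natCast, Finset.sum_filter] at h1
  refine le_trans h1 ?_
  apply mul_le_mul_of_nonneg_right _ (Nat.cast_nonneg N)
  have : Real.log 4 = 2 * Real.log 2 := by
    have : (4 : ℝ) = 2 ^ 2 := by norm_num
    rw [this, Real.log_pow]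
    push_cast
    ring
  rw [this]
  have := Real.log_two_lt_d9
  linarith

theorem small_primes_bound {b : ℝ} (hb : b < 1) : ∃ C : ℝ, 0 ≤ C ∧ ∀ σ : ℝ, 0 ≤ σ → σ ≤ b →
    ∀ Y : ℝ, 1 ≤ Y → ∀ N : ℕ, (N : ℝ) ≤ Y →
    ∑ n ∈ Ioc 0 N, (if n.Prime then Real.log n else 0) * (n : ℝ) ^ (-σ) ≤ C * Y ^ (1 - σ) := by
  set r0 : ℝ := (2 : ℝ) ^ (1 - b) with hr0
  have hr01 : 1 < r0 := Real.one_lt_rpow (by norm_num) (by linarith)
  refine ⟨8 / (r0 - 1), by apply div_nonneg (by norm_num) (by linarith), ?_⟩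
  intro σ hσ0 hσb Y hY N hN
  have hf : ∀ n : ℕ, 0 ≤ (if n.Prime then Real.log n else 0) := by
    intro n
    split_ifs
    · exact Real.log_natCast_nonneg n
    · exact le_rfl
  set J : ℕ := Nat.clog 2 N with hJ
  have hNJ : N ≤ 2 ^ J := Nat.le_pow_clog (by norm_num) _
  have hJY : (2 : ℝ) ^ J ≤ 2 * Y := by
    rcases Nat.lt_or_ge 1 N with h | h
    · have h1 : 2 ^ (J - 1) < N := Nat.pow_pred_clog_lt_self (by norm_num) h
      have hJ1 : 1 ≤ J := Nat.clog_pos (by norm_num) (by omega)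
      have h2 : (2 : ℝ) ^ J = 2 * (2 : ℝ) ^ (J - 1) := by
        rw [← pow_succ']
        congr 1
        omega
      have h3 : (2 : ℝ) ^ (J - 1) ≤ N := by exact_mod_cast h1.le
      rw [h2]
      linarith
    · have : J = 0 := by
        rw [hJ]
        exact Nat.clog_of_right_le_one h 2
      rw [this]
      norm_num
      linarith
  have hd := dyadic_real (fun n => if n.Prime then Real.log n else 0) hf (by simp [Nat.not_prime_one])
    (fun N => 2 * (N : ℝ)) theta_nat_le hσ0 J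
  have hsub : Ioc 0 N ⊆ Ioc 0 (2 ^ J) := Ioc_subset_Ioc_right hNJ
  refine le_trans (Finset.sum_le_sum_of_subset_of_nonneg hsub
    (fun n _ _ => mul_nonneg (hf n) (by positivity))) (le_trans hd ?_)
  set r : ℝ := (2 : ℝ) ^ (1 - σ) with hr
  have hrr : r0 ≤ r := Real.rpow_le_rpow_of_exponent_le (by norm_num) (by linarith)
  have h3 : ∑ j ∈ range J, ((2 : ℝ) ^ j) ^ (-σ) * (2 * ((2 ^ (j + 1) : ℕ) : ℝ)) = 4 * ∑ j ∈ range J, r ^ j := by
    rw [Finset.mul_sum]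
    apply Finset.sum_congr rfl
    intro j _
    have e2 : ((2 : ℝ) ^ j) ^ (-σ) * (2 : ℝ) ^ j = r ^ j := by
      have : ((2 : ℝ) ^ j) ^ (-σ) * (2 : ℝ) ^ j = ((2 : ℝ) ^ j) ^ (-σ) * ((2 : ℝ) ^ j) ^ (1 : ℝ) := by
        rw [Real.rpow_one]
      rw [this, ← Real.rpow_add (by positivity), hr, ← Real.rpow_natCast, ← Real.rpow_natCast,
        ← Real.rpow_mul (by norm_num), ← Real.rpow_mul (by norm_num)]
      congr 1
      ring
    rw [← e2]
    push_cast
    ring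
  rw [h3]
  have h4 : (∑ j ∈ range J, r ^ j) * (r - 1) = r ^ J - 1 := geom_sum_mul r J
  have h5 : r ^ J ≤ 2 * Y ^ (1 - σ) := by
    have e3 : r ^ J = ((2 : ℝ) ^ J) ^ (1 - σ) := by
      rw [hr, ← Real.rpow_natCast, ← Real.rpow_natCast, ← Real.rpow_mul (by norm_num),
        ← Real.rpow_mul (by norm_num), mul_comm]
    rw [e3]
    calc ((2 : ℝ) ^ J) ^ (1 - σ) ≤ (2 * Y) ^ (1 - σ) :=
          Real.rpow_le_rpow (by positivity) hJY (by linarith)
      _ = (2 : ℝ) ^ (1 - σ) * Y ^ (1 - σ) := Real.mul_rpow (by norm_num) (by linarith)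
      _ ≤ 2 * Y ^ (1 - σ) := by
          apply mul_le_mul_of_nonneg_right _ (by positivity)
          calc (2 : ℝ) ^ (1 - σ) ≤ (2 : ℝ) ^ (1 : ℝ) :=
                Real.rpow_le_rpow_of_exponent_le (by norm_num) (by linarith)
            _ = 2 := Real.rpow_one _
  have h6 : 0 ≤ ∑ j ∈ range J, r ^ j := Finset.sum_nonneg fun _ _ => by positivity
  have h7 : (∑ j ∈ range J, r ^ j) * (r0 - 1) ≤ 2 * Y ^ (1 - σ) := by
    have : (∑ j ∈ range J, r ^ j) * (r0 - 1) ≤ (∑ j ∈ range J, r ^ j) * (r - 1) :=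
      mul_le_mul_of_nonneg_left (by linarith) h6
    linarith
  rw [div_mul_eq_mul_div, le_div_iff₀ (by linarith)]
  linarith

theorem block_coeff {a Y Y0 : ℝ} (ha : 0 ≤ a) (hY0 : 1 ≤ Y0) (hY : Y0 ≤ Y) (P : Finset ℕ)
    (hP : ∀ p ∈ P, p.Prime ∧ Y < p ∧ (p : ℝ) ≤ 2 * Y) :
    ∑ p ∈ P, (Real.log p / Y0 * Real.exp (a * (Real.log Y0 - Real.log p))) ^ 2 ≤
      4 * Real.log (2 * Y) * (Y / Y0) ^ (1 - 2 * a) / Y0 := by
  have hY0' : 0 < Y0 := by linarith
  have hY' : 0 < Y := by linarith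
  have hterm : ∀ p ∈ P, (Real.log p / Y0 * Real.exp (a * (Real.log Y0 - Real.log p))) ^ 2 ≤
      Real.log (2 * Y) * (Y / Y0) ^ (-(2 * a)) / Y0 ^ 2 * Real.log p := by
    intro p hp
    obtain ⟨hp1, hp2, hp3⟩ := hP p hp
    have hp0 : (0 : ℝ) < p := by linarith
    have h1 : Real.exp (a * (Real.log Y0 - Real.log p)) ^ 2 ≤ (Y / Y0) ^ (-(2 * a)) := by
      rw [← Real.exp_nat_mul, Real.rpow_def_of_pos (by positivity), Real.log_div hY'.ne' hY0'.ne']
      apply Real.exp_le_exp.2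
      have h2 : Real.log Y ≤ Real.log p := Real.log_le_log hY' hp2.le
      push_cast
      nlinarith
    have h2 : 0 ≤ Real.log p := Real.log_nonneg (by linarith)
    have h3 : Real.log p ≤ Real.log (2 * Y) := Real.log_le_log hp0 hp3
    rw [mul_pow, div_pow]
    calc Real.log p ^ 2 / Y0 ^ 2 * Real.exp (a * (Real.log Y0 - Real.log p)) ^ 2
        ≤ (Real.log (2 * Y) * Real.log p) / Y0 ^ 2 * (Y / Y0) ^ (-(2 * a)) := by
          apply mul_le_mul _ h1 (by positivity) (by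
            apply div_nonneg (mul_nonneg (le_trans h2 h3) h2) (by positivity))
          apply div_le_div_of_nonneg_right _ (by positivity)
          rw [sq]
          exact mul_le_mul_of_nonneg_right h3 h2
      _ = Real.log (2 * Y) * (Y / Y0) ^ (-(2 * a)) / Y0 ^ 2 * Real.log p := by ring
  refine le_trans (Finset.sum_le_sum hterm) ?_
  rw [← Finset.mul_sum]
  have hsum : ∑ p ∈ P, Real.log p ≤ 4 * Y := by
    have h1 := theta_nat_le ⌊2 * Y⌋₊
    have h2 : ((⌊2 * Y⌋₊ : ℕ) : ℝ) ≤ 2 * Y := Nat.floor_le (by linarith)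
    have h3 : ∑ p ∈ P, Real.log p ≤ ∑ n ∈ Ioc 0 ⌊2 * Y⌋₊, (if n.Prime then Real.log n else 0) := by
      have h4 : ∑ p ∈ P, Real.log p = ∑ p ∈ P, (if p.Prime then Real.log p else 0) := by
        apply Finset.sum_congr rfl
        intro p hp
        rw [if_pos (hP p hp).1]
      rw [h4]
      apply Finset.sum_le_sum_of_subset_of_nonneg
      · intro p hp
        rw [mem_Ioc]
        exact ⟨(hP p hp).1.pos, Nat.le_floor (hP p hp).2.2⟩
      · intro n _ _
        split_ifs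
        · exact Real.log_natCast_nonneg n
        · exact le_rfl
    linarith
  have hlog : 0 ≤ Real.log (2 * Y) := Real.log_nonneg (by linarith)
  calc Real.log (2 * Y) * (Y / Y0) ^ (-(2 * a)) / Y0 ^ 2 * ∑ p ∈ P, Real.log p
      ≤ Real.log (2 * Y) * (Y / Y0) ^ (-(2 * a)) / Y0 ^ 2 * (4 * Y) :=
        mul_le_mul_of_nonneg_left hsum (by positivity)
    _ = 4 * Real.log (2 * Y) * (Y / Y0) ^ (1 - 2 * a) / Y0 := by
        have e : (Y / Y0) ^ (1 - 2 * a) = (Y / Y0) * (Y / Y0) ^ (-(2 * a)) := by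
          have : (Y / Y0) * (Y / Y0) ^ (-(2 * a)) = (Y / Y0) ^ (1 : ℝ) * (Y / Y0) ^ (-(2 * a)) := by
            rw [Real.rpow_one]
          rw [this, ← Real.rpow_add (by positivity)]
          congr 1
        rw [e]
        field_simp

end Pool.Agent.Work.MP_e9b29d_nt
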