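import Mathlib

/-!
Mean value theorem for exponential sums with real frequencies (elementary form).
-/

set_option autoImplicit false

namespace Pool.Agent.Work.MP_e9b29d_nt

open Finset MeasureTheory Complex
open scoped ComplexConjugate

/-- exponential sum with real frequencies -/
noncomputable def ES (S : Finset ℕ) (c : ℕ → ℂ) (l : ℕ → ℝ) (t : ℝ) : ℂ :=
  ∑ j ∈ S, c j * cexp (((l j * t : ℝ) : ℂ) * I)

theorem continuous_ES (S : Finset ℕ) (c : ℕ → ℂ) (l : ℕ → ℝ) : Continuous (ES S c l) := by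
  unfold ES
  fun_prop

theorem norm_integral_exp_le {u : ℝ} (hu : u ≠ 0) (a b : ℝ) :
    ‖∫ t in a..b, cexp (((u * t : ℝ) : ℂ) * I)‖ ≤ 2 / |u| := by
  have h1 : ∀ t : ℝ, cexp (((u * t : ℝ) : ℂ) * I) = cexp ((u * I) * t) := by
    intro t
    congr 1
    push_cast
    ring
  simp_rw [h1]
  have hc : (u * I : ℂ) ≠ 0 := by simp [hu]
  rw [integral_exp_mul_complex hc, norm_div]
  have h2 : ‖(u * I : ℂ)‖ = |u| := by simp
  rw [h2]
  have h3 : ∀ x : ℝ, ‖cexp (u * I * x)‖ = 1 := by
    intro x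
    have : (u * I * x : ℂ) = ((u * x : ℝ) : ℂ) * I := by push_cast; ring
    rw [this, Complex.norm_exp_ofReal_mul_I]
  have h4 : ‖cexp (u * I * b) - cexp (u * I * a)‖ ≤ 2 := by
    refine (norm_sub_le _ _).trans ?_
    rw [h3, h3]
    norm_num
  gcongr

theorem norm_sq_ES (S : Finset ℕ) (c : ℕ → ℂ) (l : ℕ → ℝ) (t : ℝ) :
    ((‖ES S c l t‖ ^ 2 : ℝ) : ℂ) = ∑ j ∈ S, ∑ k ∈ S,
      c j * conj (c k) * cexp ((((l j - l k) * t : ℝ) : ℂ) * I) := by
  have h1 : ((‖ES S c l t‖ ^ 2 : ℝ) : ℂ) = ES S c l t * conj (ES S c l t) := by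
    rw [Complex.mul_conj, Complex.normSq_eq_norm_sq]
  rw [h1]
  unfold ES
  rw [map_sum, Finset.sum_mul_sum]
  refine Finset.sum_congr rfl fun j _ => Finset.sum_congr rfl fun k _ => ?_
  rw [map_mul, ← Complex.exp_conj, map_mul, Complex.conj_I, Complex.conj_ofReal]
  have h2 : cexp ((((l j - l k) * t : ℝ) : ℂ) * I) =
      cexp (((l j * t : ℝ) : ℂ) * I) * cexp (((l k * t : ℝ) : ℂ) * -I) := by
    rw [← Complex.exp_add]
    congr 1
    push_cast
    ring
  rw [h2]
  ring

theorem mean_value (S : Finset ℕ) (c : ℕ → ℂ) (l : ℕ → ℝ) {a b : ℝ} (hab : a ≤ b) {R : ℝ}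
    (hl : ∀ j ∈ S, ∀ k ∈ S, j ≠ k → l j ≠ l k)
    (hR : ∀ j ∈ S, ∑ k ∈ S.erase j, 2 / |l j - l k| ≤ R) :
    ∫ t in a..b, ‖ES S c l t‖ ^ 2 ≤ ((b - a) + R) * ∑ j ∈ S, ‖c j‖ ^ 2 := by
  classical
  set w : ℕ → ℕ → ℝ := fun j k => if j = k then b - a else 2 / |l j - l k| with hw
  have hw0 : ∀ j k, 0 ≤ w j k := by
    intro j k
    simp only [hw]
    split_ifs
    · linarith
    · positivity
  have hsymm : ∀ j k, w j k = w k j := by
    intro j k
    simp only [hw]
    by_cases h : j = k
    · simp [h]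
    · rw [if_neg h, if_neg (Ne.symm h), abs_sub_comm]
  have h1 : ((∫ t in a..b, ‖ES S c l t‖ ^ 2 : ℝ) : ℂ) = ∑ j ∈ S, ∑ k ∈ S,
      c j * conj (c k) * ∫ t in a..b, cexp ((((l j - l k) * t : ℝ) : ℂ) * I) := by
    rw [← intervalIntegral.integral_ofReal]
    simp_rw [norm_sq_ES]
    rw [intervalIntegral.integral_finsetSum]
    · refine Finset.sum_congr rfl fun j _ => ?_
      rw [intervalIntegral.integral_finsetSum]
      · refine Finset.sum_congr rfl fun k _ => ?_
        rw [intervalIntegral.integral_const_mul]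
      · intro k _
        apply Continuous.intervalIntegrable
        fun_prop
    · intro j _
      apply Continuous.intervalIntegrable
      fun_prop
  have h2 : ∀ j ∈ S, ∀ k ∈ S, ‖∫ t in a..b, cexp ((((l j - l k) * t : ℝ) : ℂ) * I)‖ ≤ w j k := by
    intro j hj k hk
    simp only [hw]
    split_ifs with h
    · subst h
      simp only [sub_self, zero_mul, Complex.ofReal_zero, Complex.exp_zero,
        intervalIntegral.integral_const]
      rw [norm_smul, Real.norm_eq_abs, abs_of_nonneg (by linarith)]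
      simp
    · exact norm_integral_exp_le (sub_ne_zero.2 (hl j hj k hk h)) a b
  have h3 : ∫ t in a..b, ‖ES S c l t‖ ^ 2 ≤ ∑ j ∈ S, ∑ k ∈ S, ‖c j‖ * ‖c k‖ * w j k := by
    have h4 : ∫ t in a..b, ‖ES S c l t‖ ^ 2 ≤ ‖((∫ t in a..b, ‖ES S c l t‖ ^ 2 : ℝ) : ℂ)‖ := by
      rw [Complex.norm_real]
      exact le_abs_self _
    refine h4.trans ?_
    rw [h1]
    refine (norm_sum_le _ _).trans (Finset.sum_le_sum fun j hj => ?_)
    refine (norm_sum_le _ _).trans (Finset.sum_le_sum fun k hk => ?_)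
    rw [norm_mul, norm_mul, Complex.norm_conj]
    exact mul_le_mul_of_nonneg_left (h2 j hj k hk) (by positivity)
  refine h3.trans ?_
  have h5 : ∑ j ∈ S, ∑ k ∈ S, ‖c j‖ * ‖c k‖ * w j k ≤
      ∑ j ∈ S, ∑ k ∈ S, (‖c j‖ ^ 2 * w j k / 2 + ‖c k‖ ^ 2 * w j k / 2) := by
    refine Finset.sum_le_sum fun j _ => Finset.sum_le_sum fun k _ => ?_
    nlinarith [hw0 j k, mul_nonneg (sq_nonneg (‖c j‖ - ‖c k‖)) (hw0 j k)]
  refine h5.trans ?_
  simp_rw [Finset.sum_add_distrib]
  have h6 : ∑ j ∈ S, ∑ k ∈ S, ‖c k‖ ^ 2 * w j k / 2 = ∑ j ∈ S, ∑ k ∈ S, ‖c j‖ ^ 2 * w j k / 2 := by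
    rw [Finset.sum_comm]
    refine Finset.sum_congr rfl fun j _ => Finset.sum_congr rfl fun k _ => ?_
    rw [hsymm]
  rw [h6, ← Finset.sum_add_distrib, Finset.mul_sum]
  refine Finset.sum_le_sum fun j hj => ?_
  rw [← Finset.sum_add_distrib]
  have h7 : ∑ k ∈ S, (‖c j‖ ^ 2 * w j k / 2 + ‖c j‖ ^ 2 * w j k / 2) =
      (∑ k ∈ S, w j k) * ‖c j‖ ^ 2 := by
    rw [Finset.sum_mul]
    refine Finset.sum_congr rfl fun k _ => ?_
    ring
  rw [h7]
  apply mul_le_mul_of_nonneg_right _ (by positivity)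
  rw [← Finset.add_sum_erase _ _ hj]
  have h8 : w j j = b - a := by simp [hw]
  have h9 : ∑ k ∈ S.erase j, w j k = ∑ k ∈ S.erase j, 2 / |l j - l k| := by
    refine Finset.sum_congr rfl fun k hk => ?_
    simp only [hw]
    rw [if_neg (Finset.ne_of_mem_erase hk).symm]
  rw [h8, h9]
  linarith [hR j hj]

/-- The gap sum of the logarithms. -/
theorem gap_sum_log {M : ℕ} (hM : 1 ≤ M) {S : Finset ℕ} (hS : S ⊆ Icc 1 M) {j : ℕ} (hj : j ∈ S) :
    ∑ k ∈ S.erase j, 2 / |(-Real.log j) - (-Real.log k)| ≤ 4 * M * (1 + Real.log M) := by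
  have hj1 := Finset.mem_Icc.1 (hS hj)
  have h1 : ∀ k ∈ S.erase j, 2 / |(-Real.log j) - (-Real.log k)| ≤ 2 * M / |(j : ℝ) - k| := by
    intro k hk
    have hk1 := Finset.mem_Icc.1 (hS (Finset.mem_of_mem_erase hk))
    have hne : k ≠ j := Finset.ne_of_mem_erase hk
    have hj0 : (0 : ℝ) < j := by exact_mod_cast hj1.1
    have hk0 : (0 : ℝ) < k := by exact_mod_cast hk1.1
    have hM0 : (0 : ℝ) < M := by exact_mod_cast hM
    have hjM : (j : ℝ) ≤ M := by exact_mod_cast hj1.2
    have hkM : (k : ℝ) ≤ M := by exact_mod_cast hk1.2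
    have hne' : (j : ℝ) - k ≠ 0 := by
      intro h
      apply hne
      have : (j : ℝ) = k := by linarith
      exact_mod_cast this.symm
    have key : |(j : ℝ) - k| / M ≤ |(-Real.log j) - (-Real.log k)| := by
      have e1 : (-Real.log j) - (-Real.log k) = Real.log k - Real.log j := by ring
      rw [e1]
      rcases lt_or_gt_of_ne (show (j : ℝ) ≠ k from fun h => hne' (by linarith)) with h | h
      · rw [abs_of_neg (by linarith), abs_of_pos (by linarith [Real.log_lt_log hj0 h])]
        rw [← Real.log_div hk0.ne' hj0.ne']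
        have h2 := Real.one_sub_inv_le_log_of_pos (show 0 < (k : ℝ) / j by positivity)
        have h3 : 1 - ((k : ℝ) / j)⁻¹ = ((k : ℝ) - j) / k := by
          field_simp
        rw [h3] at h2
        refine le_trans ?_ h2
        have e2 : -((j : ℝ) - k) = k - j := by ring
        rw [e2]
        have h0 : 0 ≤ (k : ℝ) - j := by linarith
        gcongr
      · rw [abs_of_pos (by linarith), abs_of_neg (by linarith [Real.log_lt_log hk0 h])]
        have e2 : -(Real.log k - Real.log j) = Real.log (j / k) := by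
          rw [Real.log_div hj0.ne' hk0.ne']
          ring
        rw [e2]
        have h2 := Real.one_sub_inv_le_log_of_pos (show 0 < (j : ℝ) / k by positivity)
        have h3 : 1 - ((j : ℝ) / k)⁻¹ = ((j : ℝ) - k) / j := by
          field_simp
        rw [h3] at h2
        refine le_trans ?_ h2
        have h0 : 0 ≤ (j : ℝ) - k := by linarith
        gcongr
    have hpos : 0 < |(j : ℝ) - k| / M := div_pos (abs_pos.2 hne') hM0
    calc 2 / |(-Real.log j) - (-Real.log k)| ≤ 2 / (|(j : ℝ) - k| / M) := by gcongr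
      _ = 2 * M / |(j : ℝ) - k| := by
        field_simp
  refine (Finset.sum_le_sum h1).trans ?_
  have h2 : ∑ k ∈ S.erase j, 2 * M / |(j : ℝ) - k| ≤ ∑ k ∈ (Icc 1 M).erase j, 2 * M / |(j : ℝ) - k| := by
    apply Finset.sum_le_sum_of_subset_of_nonneg
    · exact Finset.erase_subset_erase j hS
    · intro k _ _
      positivity
  refine h2.trans ?_
  -- map k to the distance, each distance at most twice
  have h3 : ∑ k ∈ (Icc 1 M).erase j, 2 * (M : ℝ) / |(j : ℝ) - k| ≤
      2 * ∑ d ∈ Icc 1 M, 2 * (M : ℝ) / d := by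
    have e1 : (Icc 1 M).erase j = (Ico 1 j) ∪ (Ioc j M) := by
      ext k
      simp only [Finset.mem_erase, Finset.mem_Icc, Finset.mem_union, Finset.mem_Ico, Finset.mem_Ioc]
      omega
    have hd : Disjoint (Ico 1 j) (Ioc j M) := by
      rw [Finset.disjoint_left]
      intro k hk hk'
      simp only [Finset.mem_Ico, Finset.mem_Ioc] at hk hk'
      omega
    rw [e1, Finset.sum_union hd, two_mul (∑ d ∈ Icc 1 M, 2 * (M : ℝ) / d)]
    apply add_le_add
    · have : ∑ k ∈ Ico 1 j, 2 * (M : ℝ) / |(j : ℝ) - k| = ∑ d ∈ Ico 1 j, 2 * (M : ℝ) / d := by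
        apply Finset.sum_nbij' (fun k => j - k) (fun d => j - d)
        · intro k hk
          simp only [Finset.mem_Ico] at hk ⊢
          omega
        · intro k hk
          simp only [Finset.mem_Ico] at hk ⊢
          omega
        · intro k hk
          simp only [Finset.mem_Ico] at hk
          omega
        · intro k hk
          simp only [Finset.mem_Ico] at hk
          omega
        · intro k hk
          simp only [Finset.mem_Ico] at hk
          have : ((j - k : ℕ) : ℝ) = (j : ℝ) - k := by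
            rw [Nat.cast_sub hk.2.le]
          rw [this, abs_of_pos]
          have : (k : ℝ) < j := by exact_mod_cast hk.2
          linarith
      rw [this]
      apply Finset.sum_le_sum_of_subset_of_nonneg
      · intro k hk
        simp only [Finset.mem_Ico] at hk
        simp only [Finset.mem_Icc]
        omega
      · intro k _ _
        positivity
    · have : ∑ k ∈ Ioc j M, 2 * (M : ℝ) / |(j : ℝ) - k| = ∑ d ∈ Icc 1 (M - j), 2 * (M : ℝ) / d := by
        apply Finset.sum_nbij' (fun k => k - j) (fun d => j + d)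
        · intro k hk
          simp only [Finset.mem_Ioc] at hk
          simp only [Finset.mem_Icc]
          omega
        · intro k hk
          simp only [Finset.mem_Icc] at hk
          simp only [Finset.mem_Ioc]
          omega
        · intro k hk
          simp only [Finset.mem_Ioc] at hk
          omega
        · intro k hk
          simp only [Finset.mem_Icc] at hk
          omega
        · intro k hk
          simp only [Finset.mem_Ioc] at hk
          have : ((k - j : ℕ) : ℝ) = (k : ℝ) - j := by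
            rw [Nat.cast_sub hk.1.le]
          rw [this, abs_of_neg]
          · ring_nf
          have : (j : ℝ) < k := by exact_mod_cast hk.1
          linarith
      rw [this]
      apply Finset.sum_le_sum_of_subset_of_nonneg
      · intro k hk
        simp only [Finset.mem_Icc] at hk ⊢
        omega
      · intro k _ _
        positivity
  refine h3.trans ?_
  have h4 : ∑ d ∈ Icc 1 M, 2 * (M : ℝ) / d = 2 * M * ∑ d ∈ Icc 1 M, (d : ℝ)⁻¹ := by
    rw [Finset.mul_sum]
    refine Finset.sum_congr rfl fun d _ => ?_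
    rw [div_eq_mul_inv]
  have h5 : ∑ d ∈ Icc 1 M, (d : ℝ)⁻¹ ≤ 1 + Real.log M := by
    have h6 := harmonic_le_one_add_log M
    rw [harmonic_eq_sum_Icc] at h6
    push_cast at h6
    exact h6
  rw [h4]
  have hM0 : (0 : ℝ) < M := by exact_mod_cast hM
  nlinarith [mul_le_mul_of_nonneg_left h5 (by positivity : (0 : ℝ) ≤ 4 * M)]

/-- Mean value theorem for Dirichlet polynomials. -/
theorem mean_value_log {M : ℕ} (hM : 1 ≤ M) {S : Finset ℕ} (hS : S ⊆ Icc 1 M) (c : ℕ → ℂ)
    {a b : ℝ} (hab : a ≤ b) :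
    ∫ t in a..b, ‖ES S c (fun n => -Real.log n) t‖ ^ 2 ≤
      ((b - a) + 4 * M * (1 + Real.log M)) * ∑ j ∈ S, ‖c j‖ ^ 2 := by
  apply mean_value S c _ hab
  · intro j hj k hk hne h
    have hj1 := Finset.mem_Icc.1 (hS hj)
    have hk1 := Finset.mem_Icc.1 (hS hk)
    have hj0 : (0 : ℝ) < j := by exact_mod_cast hj1.1
    have hk0 : (0 : ℝ) < k := by exact_mod_cast hk1.1
    have h1 : Real.log j = Real.log k := by linarith
    have h2 := Real.log_injOn_pos (Set.mem_Ioi.2 hj0) (Set.mem_Ioi.2 hk0) h1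
    exact hne (by exact_mod_cast h2)
  · intro j hj
    exact gap_sum_log hM hS hj

end Pool.Agent.Work.MP_e9b29d_nt
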