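import Pool.Agent.Work.MP_e9b29d_nt.MV

/-!
Suprema over unit boxes: two-dimensional Sobolev inequality for exponential sums.
-/

set_option autoImplicit false

namespace Pool.Agent.Work.MP_e9b29d_nt

open Finset MeasureTheory Complex
open scoped ComplexConjugate

/-- one-dimensional inequality -/
theorem sob1 {g g' : ℝ → ℂ} (hg : ∀ x, HasDerivAt g (g' x) x) (hc : Continuous g')
    {a b x : ℝ} (hab : a < b) (hx : x ∈ Set.Icc a b) :
    ‖g x‖ ^ 2 ≤ (1 / (b - a) + 1) * (∫ y in a..b, ‖g y‖ ^ 2) + ∫ y in a..b, ‖g' y‖ ^ 2 := by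
  have hgc : Continuous g := continuous_iff_continuousAt.2 fun x => (hg x).continuousAt
  have hd : ∀ y, HasDerivAt (fun y => ‖g y‖ ^ 2) (2 * inner ℝ (g y) (g' y)) y := by
    intro y
    exact (hg y).norm_sq
  have hdc : Continuous (fun y => 2 * inner ℝ (g y) (g' y)) := by
    exact continuous_const.mul (hgc.inner hc)
  have hab' : 0 < b - a := by linarith
  have hbnd : ∀ y, |2 * inner ℝ (g y) (g' y)| ≤ ‖g y‖ ^ 2 + ‖g' y‖ ^ 2 := by
    intro y
    rw [abs_mul, abs_two]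
    have h1 := abs_real_inner_le_norm (g y) (g' y)
    nlinarith [sq_nonneg (‖g y‖ - ‖g' y‖)]
  have hI1 : IntervalIntegrable (fun y => ‖g y‖ ^ 2) volume a b :=
    (hgc.norm.pow 2).intervalIntegrable _ _
  have hI2 : IntervalIntegrable (fun y => ‖g' y‖ ^ 2) volume a b :=
    (hc.norm.pow 2).intervalIntegrable _ _
  set J : ℝ := ∫ y in a..b, (‖g y‖ ^ 2 + ‖g' y‖ ^ 2) with hJ
  have hJe : J = (∫ y in a..b, ‖g y‖ ^ 2) + ∫ y in a..b, ‖g' y‖ ^ 2 := by
    rw [hJ, intervalIntegral.integral_add hI1 hI2]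
  have hcc : Continuous (fun y => ‖g y‖ ^ 2 + ‖g' y‖ ^ 2) := (hgc.norm.pow 2).add (hc.norm.pow 2)
  have hdiff : ∀ y ∈ Set.Icc a b, ‖g x‖ ^ 2 ≤ ‖g y‖ ^ 2 + J := by
    intro y hy
    have h1 : ∫ z in y..x, 2 * inner ℝ (g z) (g' z) = ‖g x‖ ^ 2 - ‖g y‖ ^ 2 :=
      intervalIntegral.integral_eq_sub_of_hasDerivAt (fun z _ => hd z)
        (hdc.intervalIntegrable _ _)
    have h2 : |∫ z in y..x, 2 * inner ℝ (g z) (g' z)| ≤ J := by
      have h3 : |∫ z in y..x, 2 * inner ℝ (g z) (g' z)| ≤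
          ∫ z in Set.uIoc y x, |2 * inner ℝ (g z) (g' z)| := by
        have := intervalIntegral.norm_integral_le_integral_norm_uIoc
          (f := fun z => 2 * inner ℝ (g z) (g' z)) (a := y) (b := x) (μ := volume)
        simpa [Real.norm_eq_abs] using this
      refine h3.trans ?_
      rw [hJ, intervalIntegral.integral_of_le hab.le]
      have hsub : Set.uIoc y x ⊆ Set.Ioc a b := by
        intro z hz
        rw [Set.uIoc, Set.mem_Ioc] at hz
        refine ⟨?_, ?_⟩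
        · exact lt_of_le_of_lt (le_min hy.1 hx.1) hz.1
        · exact hz.2.trans (max_le hy.2 hx.2)
      calc ∫ z in Set.uIoc y x, |2 * inner ℝ (g z) (g' z)|
          ≤ ∫ z in Set.uIoc y x, (‖g z‖ ^ 2 + ‖g' z‖ ^ 2) := by
            apply setIntegral_mono_on
            · exact (hdc.abs.integrableOn_uIcc).mono_set Set.uIoc_subset_uIcc
            · exact (hcc.integrableOn_uIcc).mono_set Set.uIoc_subset_uIcc
            · exact measurableSet_uIoc
            · intro z _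
              exact hbnd z
        _ ≤ ∫ z in Set.Ioc a b, (‖g z‖ ^ 2 + ‖g' z‖ ^ 2) := by
            apply setIntegral_mono_set
            · exact (hcc.integrableOn_Icc).mono_set Set.Ioc_subset_Icc_self
            · exact Filter.Eventually.of_forall fun z => by
                show (0 : ℝ) ≤ ‖g z‖ ^ 2 + ‖g' z‖ ^ 2
                positivity
            · exact hsub.eventuallyLE
    have h4 := abs_le.1 h2
    rw [h1] at h4
    linarith [h4.2]
  have h5 : (b - a) * ‖g x‖ ^ 2 ≤ (∫ y in a..b, ‖g y‖ ^ 2) + (b - a) * J := by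
    have h6 : ∫ y in a..b, ‖g x‖ ^ 2 ≤ ∫ y in a..b, (‖g y‖ ^ 2 + J) := by
      apply intervalIntegral.integral_mono_on hab.le
      · exact intervalIntegrable_const
      · exact hI1.add intervalIntegrable_const
      · exact hdiff
    rw [intervalIntegral.integral_const, intervalIntegral.integral_add hI1
      intervalIntegrable_const, intervalIntegral.integral_const] at h6
    simpa [smul_eq_mul] using h6
  have h7 : ‖g x‖ ^ 2 ≤ 1 / (b - a) * (∫ y in a..b, ‖g y‖ ^ 2) + J := by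
    have h8 : (b - a) * ‖g x‖ ^ 2 ≤ (b - a) * (1 / (b - a) * (∫ y in a..b, ‖g y‖ ^ 2) + J) := by
      refine h5.trans (le_of_eq ?_)
      field_simp
    exact le_of_mul_le_mul_left h8 hab'
  rw [hJe] at h7
  linarith

/-- exponential sum in two variables -/
noncomputable def FF (S : Finset ℕ) (c : ℕ → ℂ) (al l : ℕ → ℝ) (σ t : ℝ) : ℂ :=
  ∑ j ∈ S, c j * cexp ((σ * al j : ℝ) : ℂ) * cexp (((l j * t : ℝ) : ℂ) * I)

theorem FF_eq_ES (S : Finset ℕ) (c : ℕ → ℂ) (al l : ℕ → ℝ) (σ t : ℝ) :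
    FF S c al l σ t = ES S (fun j => c j * cexp ((σ * al j : ℝ) : ℂ)) l t := rfl

theorem hasDerivAt_FF_t (S : Finset ℕ) (c : ℕ → ℂ) (al l : ℕ → ℝ) (σ t : ℝ) :
    HasDerivAt (fun t => FF S c al l σ t) (FF S (fun j => c j * ((l j : ℂ) * I)) al l σ t) t := by
  unfold FF
  apply HasDerivAt.fun_sum
  intro j _
  have h1 : HasDerivAt (fun t : ℝ => ((l j * t : ℝ) : ℂ) * I) ((l j : ℂ) * I) t := by
    have h2 : HasDerivAt (fun t : ℝ => ((t : ℝ) : ℂ)) 1 t := Complex.ofRealCLM.hasDerivAt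
    have h3 := (h2.const_mul (l j : ℂ)).mul_const I
    simp only [mul_one] at h3
    refine h3.congr_of_eventuallyEq ?_
    filter_upwards with y
    push_cast
    ring
  have h4 := (h1.cexp).const_mul (c j * cexp ((σ * al j : ℝ) : ℂ))
  refine h4.congr_deriv ?_
  ring

theorem hasDerivAt_FF_s (S : Finset ℕ) (c : ℕ → ℂ) (al l : ℕ → ℝ) (σ t : ℝ) :
    HasDerivAt (fun σ => FF S c al l σ t) (FF S (fun j => c j * (al j : ℂ)) al l σ t) σ := by
  unfold FF
  apply HasDerivAt.fun_sum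
  intro j _
  have h1 : HasDerivAt (fun σ : ℝ => ((σ * al j : ℝ) : ℂ)) (al j : ℂ) σ := by
    have h2 : HasDerivAt (fun t : ℝ => ((t : ℝ) : ℂ)) 1 σ := Complex.ofRealCLM.hasDerivAt
    have h3 := h2.mul_const (al j : ℂ)
    simp only [one_mul] at h3
    refine h3.congr_of_eventuallyEq ?_
    filter_upwards with y
    push_cast
    ring
  have h4 := ((h1.cexp).const_mul (c j)).mul_const (cexp (((l j * t : ℝ) : ℂ) * I))
  refine h4.congr_deriv ?_
  ring

theorem continuous_FF (S : Finset ℕ) (c : ℕ → ℂ) (al l : ℕ → ℝ) :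
    Continuous (fun p : ℝ × ℝ => FF S c al l p.1 p.2) := by
  unfold FF
  fun_prop

/-- the mean square over the rectangle -/
theorem rect_bound (S : Finset ℕ) (c : ℕ → ℂ) (al l : ℕ → ℝ) {a b A B R : ℝ} (hab : a ≤ b)
    (hAB : A ≤ B) (hl : ∀ j ∈ S, ∀ k ∈ S, j ≠ k → l j ≠ l k)
    (hR : ∀ j ∈ S, ∑ k ∈ S.erase j, 2 / |l j - l k| ≤ R) (hR0 : 0 ≤ R) {w : ℕ → ℝ}
    (hw : ∀ j ∈ S, ∀ v ∈ Set.Icc a b, Real.exp (v * al j) ≤ w j) :
    ∫ u in A..B, ∫ v in a..b, ‖FF S c al l v u‖ ^ 2 ≤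
      (b - a) * (((B - A) + R) * ∑ j ∈ S, ‖c j‖ ^ 2 * w j ^ 2) := by
  have hcont : Continuous (Function.uncurry fun u v : ℝ => ‖FF S c al l v u‖ ^ 2) := by
    have := (continuous_FF S c al l).comp (continuous_swap : Continuous (Prod.swap : ℝ × ℝ → ℝ × ℝ))
    exact (this.norm).pow 2
  rw [intervalIntegral_intervalIntegral_swap]
  · have h1 : ∫ v in a..b, ∫ u in A..B, ‖FF S c al l v u‖ ^ 2 ≤
        ∫ v in a..b, (((B - A) + R) * ∑ j ∈ S, ‖c j‖ ^ 2 * w j ^ 2) := by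
      apply intervalIntegral.integral_mono_on hab
      · apply Continuous.intervalIntegrable
        have h2 : Continuous (Function.uncurry fun v u : ℝ => ‖FF S c al l v u‖ ^ 2) :=
          ((continuous_FF S c al l).norm).pow 2
        exact intervalIntegral.continuous_parametric_intervalIntegral_of_continuous' h2 A B
      · exact intervalIntegrable_const
      · intro v hv
        refine (mean_value S (fun j => c j * cexp ((v * al j : ℝ) : ℂ)) l hAB hl hR).trans ?_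
        apply mul_le_mul_of_nonneg_left _ (by linarith)
        refine Finset.sum_le_sum fun j hj => ?_
        rw [norm_mul, mul_pow]
        apply mul_le_mul_of_nonneg_left _ (by positivity)
        rw [Complex.norm_exp, Complex.ofReal_re]
        exact pow_le_pow_left₀ (Real.exp_pos _).le (hw j hj v hv) 2
    refine h1.trans (le_of_eq ?_)
    rw [intervalIntegral.integral_const, smul_eq_mul]
  · have hcc : IsCompact (Set.uIcc A B ×ˢ Set.uIcc a b) := isCompact_uIcc.prod isCompact_uIcc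
    exact (hcont.continuousOn.integrableOn_compact hcc).mono_set
      (Set.prod_mono Set.uIoc_subset_uIcc Set.uIoc_subset_uIcc)

/-- **Suprema over boxes.** -/
theorem boxes (S : Finset ℕ) (c : ℕ → ℂ) (al l : ℕ → ℝ) {a b R L : ℝ} {A B : ℕ} (hab : a < b)
    (hab1 : b - a ≤ 1) (hAB : A ≤ B) (hl : ∀ j ∈ S, ∀ k ∈ S, j ≠ k → l j ≠ l k)
    (hR : ∀ j ∈ S, ∑ k ∈ S.erase j, 2 / |l j - l k| ≤ R) (hR0 : 0 ≤ R) (hL : 1 ≤ L)
    (hal : ∀ j ∈ S, |al j| ≤ L) (hll : ∀ j ∈ S, |l j| ≤ L) {w : ℕ → ℝ}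
    (hw : ∀ j ∈ S, ∀ v ∈ Set.Icc a b, Real.exp (v * al j) ≤ w j)
    (σ t : ℕ → ℝ) (hσ : ∀ n ∈ Ico A B, σ n ∈ Set.Icc a b)
    (ht : ∀ n ∈ Ico A B, t n ∈ Set.Icc (n : ℝ) (n + 1)) :
    ∑ n ∈ Ico A B, ‖FF S c al l (σ n) (t n)‖ ^ 2 ≤
      12 * L ^ 4 * (((B : ℝ) - A) + R) * ∑ j ∈ S, ‖c j‖ ^ 2 * w j ^ 2 := by
  classical
  set K : ℝ := 1 / (b - a) + 1 with hK
  have hba : 0 < b - a := by linarith
  have hK1 : 1 ≤ K := by
    rw [hK]
    have : 0 < 1 / (b - a) := by positivity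
    linarith
  have hKba : K * (b - a) ≤ 2 := by
    rw [hK]
    have : (1 / (b - a) + 1) * (b - a) = 1 + (b - a) := by field_simp
    linarith
  set c1 : ℕ → ℂ := fun j => c j * (al j : ℂ) with hc1
  set c2 : ℕ → ℂ := fun j => c j * ((l j : ℂ) * I) with hc2
  set c3 : ℕ → ℂ := fun j => c2 j * (al j : ℂ) with hc3
  -- continuity facts
  have cFF : ∀ (c' : ℕ → ℂ) (v : ℝ), Continuous (fun u => FF S c' al l v u) := by
    intro c' v
    exact (continuous_FF S c' al l).comp (by fun_prop : Continuous (fun u : ℝ => (v, u)))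
  have cFF' : ∀ (c' : ℕ → ℂ) (u : ℝ), Continuous (fun v => FF S c' al l v u) := by
    intro c' u
    exact (continuous_FF S c' al l).comp (by fun_prop : Continuous (fun v : ℝ => (v, u)))
  have cI : ∀ (c' : ℕ → ℂ), Continuous (fun u => ∫ v in a..b, ‖FF S c' al l v u‖ ^ 2) := by
    intro c'
    have hcont : Continuous (Function.uncurry fun u v : ℝ => ‖FF S c' al l v u‖ ^ 2) := by
      have := (continuous_FF S c' al l).comp
        (continuous_swap : Continuous (Prod.swap : ℝ × ℝ → ℝ × ℝ))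
      exact (this.norm).pow 2
    exact intervalIntegral.continuous_parametric_intervalIntegral_of_continuous' hcont a b
  -- the integrand
  set Q : ℝ → ℝ := fun u => 2 * (K * (∫ v in a..b, ‖FF S c al l v u‖ ^ 2)
      + ∫ v in a..b, ‖FF S c1 al l v u‖ ^ 2)
      + (K * (∫ v in a..b, ‖FF S c2 al l v u‖ ^ 2) + ∫ v in a..b, ‖FF S c3 al l v u‖ ^ 2) with hQ
  have cQ : Continuous Q := by
    rw [hQ]
    exact (continuous_const.mul ((continuous_const.mul (cI c)).add (cI c1))).add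
      ((continuous_const.mul (cI c2)).add (cI c3))
  have hpt : ∀ n ∈ Ico A B, ‖FF S c al l (σ n) (t n)‖ ^ 2 ≤ ∫ u in (n : ℝ)..(n + 1), Q u := by
    intro n hn
    have h1 := sob1 (g := fun u => FF S c al l (σ n) u) (g' := fun u => FF S c2 al l (σ n) u)
      (fun u => hasDerivAt_FF_t S c al l (σ n) u) (cFF c2 (σ n)) (a := (n : ℝ)) (b := n + 1)
      (by linarith) (ht n hn)
    have e1 : (1 / ((n : ℝ) + 1 - n) + 1) = 2 := by
      have : (n : ℝ) + 1 - n = 1 := by ring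
      rw [this]
      norm_num
    rw [e1] at h1
    refine h1.trans ?_
    have hI : ∀ c' : ℕ → ℂ, IntervalIntegrable (fun u => ‖FF S c' al l (σ n) u‖ ^ 2) volume
        (n : ℝ) (n + 1) := fun c' => ((cFF c' (σ n)).norm.pow 2).intervalIntegrable _ _
    rw [← intervalIntegral.integral_const_mul, ← intervalIntegral.integral_add
      ((hI c).const_mul 2) (hI c2)]
    apply intervalIntegral.integral_mono_on (by linarith)
    · exact ((hI c).const_mul 2).add (hI c2)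
    · exact cQ.intervalIntegrable _ _
    · intro u _
      have h2 := sob1 (g := fun v => FF S c al l v u) (g' := fun v => FF S c1 al l v u)
        (fun v => hasDerivAt_FF_s S c al l v u) (cFF' c1 u) hab (hσ n hn)
      have h3 := sob1 (g := fun v => FF S c2 al l v u) (g' := fun v => FF S c3 al l v u)
        (fun v => hasDerivAt_FF_s S c2 al l v u) (cFF' c3 u) hab (hσ n hn)
      rw [← hK] at h2 h3
      simp only [hQ]
      linarith
  have hsum : ∑ n ∈ Ico A B, ‖FF S c al l (σ n) (t n)‖ ^ 2 ≤ ∫ u in (A : ℝ)..B, Q u := by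
    refine (Finset.sum_le_sum hpt).trans (le_of_eq ?_)
    have h1 := intervalIntegral.sum_integral_adjacent_intervals_Ico (f := Q) (μ := volume)
      (a := fun n : ℕ => (n : ℝ)) (m := A) (n := B) hAB
      (fun k _ => cQ.intervalIntegrable _ _)
    rw [← h1]
    refine Finset.sum_congr rfl fun n _ => ?_
    push_cast
    rfl
  refine hsum.trans ?_
  have hABr : (A : ℝ) ≤ B := by exact_mod_cast hAB
  set X : ℝ := ∑ j ∈ S, ‖c j‖ ^ 2 * w j ^ 2 with hX
  have hX0 : 0 ≤ X := Finset.sum_nonneg fun j _ => by positivity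
  set Z : ℝ := ((B : ℝ) - A) + R with hZ
  have hZ0 : 0 ≤ Z := by rw [hZ]; linarith
  have hL0 : 0 ≤ L := by linarith
  have r0 := rect_bound S c al l hab.le hABr hl hR hR0 hw
  have r1 := rect_bound S c1 al l hab.le hABr hl hR hR0 hw
  have r2 := rect_bound S c2 al l hab.le hABr hl hR hR0 hw
  have r3 := rect_bound S c3 al l hab.le hABr hl hR hR0 hw
  have s1 : ∑ j ∈ S, ‖c1 j‖ ^ 2 * w j ^ 2 ≤ L ^ 2 * X := by
    rw [hX, Finset.mul_sum]
    refine Finset.sum_le_sum fun j hj => ?_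
    have : ‖c1 j‖ ≤ ‖c j‖ * L := by
      simp only [hc1, norm_mul]
      apply mul_le_mul_of_nonneg_left _ (norm_nonneg _)
      rw [Complex.norm_real]
      exact hal j hj
    calc ‖c1 j‖ ^ 2 * w j ^ 2 ≤ (‖c j‖ * L) ^ 2 * w j ^ 2 := by gcongr
      _ = L ^ 2 * (‖c j‖ ^ 2 * w j ^ 2) := by ring
  have s2 : ∑ j ∈ S, ‖c2 j‖ ^ 2 * w j ^ 2 ≤ L ^ 2 * X := by
    rw [hX, Finset.mul_sum]
    refine Finset.sum_le_sum fun j hj => ?_
    have : ‖c2 j‖ ≤ ‖c j‖ * L := by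
      simp only [hc2, norm_mul, Complex.norm_I, mul_one]
      apply mul_le_mul_of_nonneg_left _ (norm_nonneg _)
      rw [Complex.norm_real]
      exact hll j hj
    calc ‖c2 j‖ ^ 2 * w j ^ 2 ≤ (‖c j‖ * L) ^ 2 * w j ^ 2 := by gcongr
      _ = L ^ 2 * (‖c j‖ ^ 2 * w j ^ 2) := by ring
  have s3 : ∑ j ∈ S, ‖c3 j‖ ^ 2 * w j ^ 2 ≤ L ^ 4 * X := by
    have : ∑ j ∈ S, ‖c3 j‖ ^ 2 * w j ^ 2 ≤ L ^ 2 * ∑ j ∈ S, ‖c2 j‖ ^ 2 * w j ^ 2 := by
      rw [Finset.mul_sum]
      refine Finset.sum_le_sum fun j hj => ?_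
      have : ‖c3 j‖ ≤ ‖c2 j‖ * L := by
        simp only [hc3]
        rw [norm_mul (c2 j)]
        apply mul_le_mul_of_nonneg_left _ (norm_nonneg _)
        rw [Complex.norm_real]
        exact hal j hj
      calc ‖c3 j‖ ^ 2 * w j ^ 2 ≤ (‖c2 j‖ * L) ^ 2 * w j ^ 2 := by gcongr
        _ = L ^ 2 * (‖c2 j‖ ^ 2 * w j ^ 2) := by ring
    refine this.trans ?_
    calc L ^ 2 * ∑ j ∈ S, ‖c2 j‖ ^ 2 * w j ^ 2 ≤ L ^ 2 * (L ^ 2 * X) := by gcongr
      _ = L ^ 4 * X := by ring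
  have hInt : ∀ c' : ℕ → ℂ, IntervalIntegrable (fun u => ∫ v in a..b, ‖FF S c' al l v u‖ ^ 2)
      volume (A : ℝ) B := fun c' => (cI c').intervalIntegrable _ _
  have hQint : ∫ u in (A : ℝ)..B, Q u =
      2 * (K * (∫ u in (A : ℝ)..B, ∫ v in a..b, ‖FF S c al l v u‖ ^ 2)
      + ∫ u in (A : ℝ)..B, ∫ v in a..b, ‖FF S c1 al l v u‖ ^ 2)
      + (K * (∫ u in (A : ℝ)..B, ∫ v in a..b, ‖FF S c2 al l v u‖ ^ 2)
      + ∫ u in (A : ℝ)..B, ∫ v in a..b, ‖FF S c3 al l v u‖ ^ 2) := by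
    simp only [hQ]
    rw [intervalIntegral.integral_add ((((hInt c).const_mul K).add (hInt c1)).const_mul 2)
      (((hInt c2).const_mul K).add (hInt c3)), intervalIntegral.integral_const_mul,
      intervalIntegral.integral_add ((hInt c).const_mul K) (hInt c1),
      intervalIntegral.integral_const_mul,
      intervalIntegral.integral_add ((hInt c2).const_mul K) (hInt c3),
      intervalIntegral.integral_const_mul]
  rw [hQint]
  have q0 : K * (∫ u in (A : ℝ)..B, ∫ v in a..b, ‖FF S c al l v u‖ ^ 2) ≤ 2 * (Z * X) := by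
    calc _ ≤ K * ((b - a) * (Z * X)) := by gcongr
      _ = (K * (b - a)) * (Z * X) := by ring
      _ ≤ 2 * (Z * X) := by gcongr
  have q1 : (∫ u in (A : ℝ)..B, ∫ v in a..b, ‖FF S c1 al l v u‖ ^ 2) ≤ L ^ 2 * (Z * X) := by
    calc _ ≤ (b - a) * (Z * ∑ j ∈ S, ‖c1 j‖ ^ 2 * w j ^ 2) := r1
      _ ≤ 1 * (Z * (L ^ 2 * X)) := by gcongr
      _ = L ^ 2 * (Z * X) := by ring
  have q2 : K * (∫ u in (A : ℝ)..B, ∫ v in a..b, ‖FF S c2 al l v u‖ ^ 2) ≤
      2 * (L ^ 2 * (Z * X)) := by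
    calc _ ≤ K * ((b - a) * (Z * ∑ j ∈ S, ‖c2 j‖ ^ 2 * w j ^ 2)) := by gcongr
      _ = (K * (b - a)) * (Z * ∑ j ∈ S, ‖c2 j‖ ^ 2 * w j ^ 2) := by ring
      _ ≤ 2 * (Z * (L ^ 2 * X)) := by gcongr
      _ = 2 * (L ^ 2 * (Z * X)) := by ring
  have q3 : (∫ u in (A : ℝ)..B, ∫ v in a..b, ‖FF S c3 al l v u‖ ^ 2) ≤ L ^ 4 * (Z * X) := by
    calc _ ≤ (b - a) * (Z * ∑ j ∈ S, ‖c3 j‖ ^ 2 * w j ^ 2) := r3
      _ ≤ 1 * (Z * (L ^ 4 * X)) := by gcongr
      _ = L ^ 4 * (Z * X) := by ring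
  have hZX : 0 ≤ Z * X := mul_nonneg hZ0 hX0
  have hL2 : 1 ≤ L ^ 2 := one_le_pow₀ hL
  have hL4 : L ^ 2 ≤ L ^ 4 := pow_le_pow_right₀ hL (by norm_num)
  have hfin : 2 * (2 * (Z * X) + L ^ 2 * (Z * X)) + (2 * (L ^ 2 * (Z * X)) + L ^ 4 * (Z * X)) ≤
      12 * L ^ 4 * Z * X := by
    have e : 2 * (2 * (Z * X) + L ^ 2 * (Z * X)) + (2 * (L ^ 2 * (Z * X)) + L ^ 4 * (Z * X)) =
      (4 + 4 * L ^ 2 + L ^ 4) * (Z * X) := by ring
    rw [e]
    calc (4 + 4 * L ^ 2 + L ^ 4) * (Z * X) ≤ (12 * L ^ 4) * (Z * X) := by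
          gcongr
          linarith
      _ = 12 * L ^ 4 * Z * X := by ring
  linarith

end Pool.Agent.Work.MP_e9b29d_nt
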