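import Mathlib
import Pool.Agent.Work.MP_e9b29d_nt.MV
import Pool.Agent.Work.MP_e9b29d_nt.Sob

/-!
High moments of prime sums: powers as Dirichlet polynomials and the factorial bound.
-/

namespace Pool.Agent.Work.MP_e9b29d_nt

open Complex Finset

lemma perm_count (k : ℕ) (P : Finset ℕ) (hP : ∀ p ∈ P, p.Prime) (m : ℕ) :
    ((Fintype.piFinset (fun _ : Fin k => P)).filter (fun f => ∏ i, f i = m)).card ≤ k.factorial := by
  classical
  set Fb := (Fintype.piFinset (fun _ : Fin k => P)).filter (fun f => ∏ i, f i = m) with hFb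
  rcases Fb.eq_empty_or_nonempty with h | ⟨f0, hf0⟩
  · rw [h, card_empty]
    exact Nat.zero_le _
  · have hperm : ∀ f ∈ Fb, (List.ofFn f).Perm (Nat.primeFactorsList m) := by
      intro f hf
      rw [hFb, mem_filter, Fintype.mem_piFinset] at hf
      apply Nat.primeFactorsList_unique
      · rw [List.prod_ofFn]
        exact hf.2
      · intro p hp
        rw [List.mem_ofFn] at hp
        obtain ⟨i, rfl⟩ := hp
        exact hP _ (hf.1 i)
    set L := List.ofFn f0 with hL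
    have hlen : L.length = k := by rw [hL, List.length_ofFn]
    have hmap : ∀ f ∈ Fb, List.ofFn f ∈ L.permutations.toFinset := by
      intro f hf
      rw [List.mem_toFinset, List.mem_permutations]
      exact (hperm f hf).trans (hperm f0 hf0).symm
    have h1 : Fb.card ≤ L.permutations.toFinset.card := by
      apply Finset.card_le_card_of_injOn (fun f => List.ofFn f) hmap
      intro f _ g _ hfg
      exact List.ofFn_injective hfg
    refine le_trans h1 (le_trans (List.toFinset_card_le _) ?_)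
    rw [List.length_permutations, hlen]

/-- products of `k` elements of `P` -/
def prods (k : ℕ) (P : Finset ℕ) : Finset ℕ :=
  (Fintype.piFinset (fun _ : Fin k => P)).image (fun f => ∏ i, f i)

/-- coefficients of the `k`-th power -/
noncomputable def bb (k : ℕ) (P : Finset ℕ) (u : ℕ → ℝ) (m : ℕ) : ℝ :=
  ∑ f ∈ (Fintype.piFinset (fun _ : Fin k => P)).filter (fun f => ∏ i, f i = m), ∏ i, u (f i)

lemma sum_bb_sq (k : ℕ) (P : Finset ℕ) (hP : ∀ p ∈ P, p.Prime) (u : ℕ → ℝ) :
    ∑ m ∈ prods k P, bb k P u m ^ 2 ≤ k.factorial * (∑ p ∈ P, u p ^ 2) ^ k := by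
  classical
  have h1 : ∀ m ∈ prods k P, bb k P u m ^ 2 ≤ k.factorial *
      ∑ f ∈ (Fintype.piFinset (fun _ : Fin k => P)).filter (fun f => ∏ i, f i = m),
        (∏ i, u (f i)) ^ 2 := by
    intro m _
    unfold bb
    have h2 := sq_sum_le_card_mul_sum_sq
      (s := (Fintype.piFinset (fun _ : Fin k => P)).filter (fun f => ∏ i, f i = m))
      (f := fun f => ∏ i, u (f i))
    refine le_trans h2 ?_
    apply mul_le_mul_of_nonneg_right _ (Finset.sum_nonneg fun _ _ => by positivity)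
    exact_mod_cast perm_count k P hP m
  refine le_trans (Finset.sum_le_sum h1) ?_
  rw [← Finset.mul_sum]
  apply mul_le_mul_of_nonneg_left _ (by positivity)
  have h3 : ∑ m ∈ prods k P, ∑ f ∈ (Fintype.piFinset (fun _ : Fin k => P)).filter
      (fun f => ∏ i, f i = m), (∏ i, u (f i)) ^ 2 =
      ∑ f ∈ Fintype.piFinset (fun _ : Fin k => P), (∏ i, u (f i)) ^ 2 := by
    apply Finset.sum_fiberwise_of_maps_to
    intro f hf
    exact mem_image_of_mem _ hf
  rw [h3]
  have h4 : (∑ p ∈ P, u p ^ 2) ^ k = ∑ f ∈ Fintype.piFinset (fun _ : Fin k => P), ∏ i, u (f i) ^ 2 := by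
    rw [← Finset.prod_univ_sum (fun _ : Fin k => P) (fun _ p => u p ^ 2)]
    rw [Finset.prod_const, Finset.card_univ, Fintype.card_fin]
  rw [h4]
  apply le_of_eq
  apply Finset.sum_congr rfl
  intro f _
  rw [Finset.prod_pow]

/-- the normalised prime sum -/
noncomputable def PS (P : Finset ℕ) (Y0 : ℝ) (σ t : ℝ) : ℂ :=
  FF P (fun p => ((Real.log p / Y0 : ℝ) : ℂ)) (fun p => Real.log Y0 - Real.log p)
    (fun p => -Real.log p) σ t

lemma PS_pow (k : ℕ) (P : Finset ℕ) (hP : ∀ p ∈ P, p.Prime) (Y0 : ℝ) (σ t : ℝ) :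
    PS P Y0 σ t ^ k = FF (prods k P) (fun m => ((bb k P (fun p => Real.log p / Y0) m : ℝ) : ℂ))
      (fun m => k * Real.log Y0 - Real.log m) (fun m => -Real.log m) σ t := by
  classical
  unfold PS FF
  have h4 : ∀ z : ℕ → ℂ, (∑ p ∈ P, z p) ^ k = ∑ f ∈ Fintype.piFinset (fun _ : Fin k => P), ∏ i, z (f i) := by
    intro z
    rw [← Finset.prod_univ_sum (fun _ : Fin k => P) (fun _ p => z p)]
    rw [Finset.prod_const, Finset.card_univ, Fintype.card_fin]
  rw [h4]
  have h3 := Finset.sum_fiberwise_of_maps_to (s := Fintype.piFinset (fun _ : Fin k => P))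
    (t := prods k P) (g := fun f => ∏ i, f i)
    (fun f hf => mem_image_of_mem _ hf)
    (fun f => ∏ i, (((Real.log (f i : ℕ) / Y0 : ℝ) : ℂ) *
      cexp ((σ * (Real.log Y0 - Real.log (f i : ℕ)) : ℝ) : ℂ) *
      cexp (((-Real.log (f i : ℕ) * t : ℝ) : ℂ) * I)))
  rw [← h3]
  apply Finset.sum_congr rfl
  intro m _
  unfold bb
  beta_reduce
  rw [Complex.ofReal_sum, Finset.sum_mul, Finset.sum_mul]
  apply Finset.sum_congr rfl
  intro f hf
  rw [mem_filter, Fintype.mem_piFinset] at hf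
  have hlog : Real.log (m : ℝ) = ∑ i, Real.log (f i : ℕ) := by
    rw [← hf.2, Nat.cast_prod, Real.log_prod]
    intro i _
    exact_mod_cast (hP _ (hf.1 i)).ne_zero
  rw [Finset.prod_mul_distrib, Finset.prod_mul_distrib, ← Complex.exp_sum, ← Complex.exp_sum,
    Complex.ofReal_prod, hlog]
  congr 1
  · congr 1
    congr 1
    push_cast
    rw [← Finset.mul_sum, Finset.sum_sub_distrib, Finset.sum_const, Finset.card_univ,
      Fintype.card_fin, nsmul_eq_mul]
  · congr 1
    push_cast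
    rw [← Finset.sum_mul, ← Finset.sum_mul, Finset.sum_neg_distrib]

lemma bb_weight (k : ℕ) (P : Finset ℕ) (hP : ∀ p ∈ P, p.Prime) (Y0 a : ℝ) (m : ℕ) :
    bb k P (fun p => Real.log p / Y0) m * Real.exp (a * (k * Real.log Y0 - Real.log m)) =
      bb k P (fun p => Real.log p / Y0 * Real.exp (a * (Real.log Y0 - Real.log p))) m := by
  classical
  unfold bb
  rw [Finset.sum_mul]
  apply Finset.sum_congr rfl
  intro f hf
  rw [mem_filter, Fintype.mem_piFinset] at hf
  have hlog : Real.log (m : ℝ) = ∑ i, Real.log (f i : ℕ) := by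
    rw [← hf.2, Nat.cast_prod, Real.log_prod]
    intro i _
    exact_mod_cast (hP _ (hf.1 i)).ne_zero
  rw [Finset.prod_mul_distrib, ← Real.exp_sum, hlog]
  congr 2
  rw [← Finset.mul_sum, Finset.sum_sub_distrib, Finset.sum_const, Finset.card_univ,
      Fintype.card_fin, nsmul_eq_mul]

/-- the `2k`-th moment over unit boxes -/
theorem moment_boxes {a b : ℝ} (ha : 0 ≤ a) (hab : a < b) (hab1 : b - a ≤ 1) {k M A B : ℕ}
    (hAB : A ≤ B) {Y0 L : ℝ} (hY0 : 1 ≤ Y0) (hL : 1 ≤ L) (P : Finset ℕ)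
    (hP : ∀ p ∈ P, p.Prime) (hPY : ∀ p ∈ P, Y0 ≤ p) (hM : ∀ m ∈ prods k P, m ≤ M)
    (hM1 : 1 ≤ M) (hML : Real.log M ≤ L)
    (hR : 4 * (M : ℝ) * (1 + Real.log M) ≤ (B : ℝ) - A)
    (σ t : ℕ → ℝ) (hσ : ∀ n ∈ Ico A B, σ n ∈ Set.Icc a b)
    (ht : ∀ n ∈ Ico A B, t n ∈ Set.Icc (n : ℝ) (n + 1)) :
    ∑ n ∈ Ico A B, ‖PS P Y0 (σ n) (t n) ^ k‖ ^ 2 ≤
      24 * L ^ 4 * ((B : ℝ) - A) * (k.factorial *
        (∑ p ∈ P, (Real.log p / Y0 * Real.exp (a * (Real.log Y0 - Real.log p))) ^ 2) ^ k) := by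
  classical
  have hlogY0 : 0 ≤ Real.log Y0 := Real.log_nonneg hY0
  have hlow : ∀ m ∈ prods k P, 1 ≤ m ∧ (k : ℝ) * Real.log Y0 ≤ Real.log m := by
    intro m hm
    unfold prods at hm
    rw [mem_image] at hm
    obtain ⟨f, hf, rfl⟩ := hm
    rw [Fintype.mem_piFinset] at hf
    refine ⟨Finset.prod_pos fun i _ => (hP _ (hf i)).pos, ?_⟩
    rw [Nat.cast_prod, Real.log_prod (by
      intro i _
      exact_mod_cast (hP _ (hf i)).ne_zero)]
    calc (k : ℝ) * Real.log Y0 = ∑ _i : Fin k, Real.log Y0 := by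
          rw [Finset.sum_const, Finset.card_univ, Fintype.card_fin, nsmul_eq_mul]
      _ ≤ ∑ i, Real.log (f i : ℕ) := by
          apply Finset.sum_le_sum
          intro i _
          exact Real.log_le_log (by linarith) (hPY _ (hf i))
  have hSs : prods k P ⊆ Icc 1 M := fun m hm => mem_Icc.2 ⟨(hlow m hm).1, hM m hm⟩
  have hlogm : ∀ m ∈ prods k P, 0 ≤ Real.log m ∧ Real.log m ≤ L := by
    intro m hm
    have h1 : (1 : ℝ) ≤ m := by exact_mod_cast (hlow m hm).1
    refine ⟨Real.log_nonneg h1, le_trans (Real.log_le_log (by linarith) ?_) hML⟩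
    exact_mod_cast hM m hm
  have hinj : ∀ j ∈ prods k P, ∀ k' ∈ prods k P, j ≠ k' → -Real.log (j : ℝ) ≠ -Real.log (k' : ℝ) := by
    intro x hx k' hk hne h
    have hj0 : (0 : ℝ) < x := by exact_mod_cast (hlow x hx).1
    have hk0 : (0 : ℝ) < k' := by exact_mod_cast (hlow k' hk).1
    have h1 : Real.log x = Real.log k' := by linarith
    have h2 := Real.log_injOn_pos (Set.mem_Ioi.2 hj0) (Set.mem_Ioi.2 hk0) h1
    exact hne (by exact_mod_cast h2)
  have hlogM0 : 0 ≤ Real.log (M : ℝ) := Real.log_nonneg (by exact_mod_cast hM1)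
  have hkY : 0 ≤ (k : ℝ) * Real.log Y0 := mul_nonneg (Nat.cast_nonneg k) hlogY0
  have hbx := boxes (prods k P) (fun m => ((bb k P (fun p => Real.log p / Y0) m : ℝ) : ℂ))
    (fun m => k * Real.log Y0 - Real.log m) (fun m => -Real.log m) (a := a) (b := b)
    (R := 4 * (M : ℝ) * (1 + Real.log M))
    (L := L) (A := A) (B := B) hab hab1 hAB hinj (fun x hx => gap_sum_log hM1 hSs hx)
    (by positivity) hL
    (fun m hm => by
      have h1 := (hlow m hm).2
      have h2 := hlogm m hm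
      rw [abs_le]
      constructor <;> linarith)
    (fun m hm => by
      rw [abs_neg, abs_of_nonneg (hlogm m hm).1]; exact (hlogm m hm).2)
    (w := fun m => Real.exp (a * (k * Real.log Y0 - Real.log m)))
    (fun m hm v hv => by
      apply Real.exp_le_exp.2
      have h1 := (hlow m hm).2
      have := mul_le_mul_of_nonneg_right hv.1 (sub_nonneg.2 h1)
      linarith) σ t hσ ht
  have hleft : ∑ n ∈ Ico A B, ‖PS P Y0 (σ n) (t n) ^ k‖ ^ 2 =
      ∑ n ∈ Ico A B, ‖FF (prods k P) (fun m => ((bb k P (fun p => Real.log p / Y0) m : ℝ) : ℂ))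
        (fun m => k * Real.log Y0 - Real.log m) (fun m => -Real.log m) (σ n) (t n)‖ ^ 2 := by
    apply Finset.sum_congr rfl
    intro n _
    rw [PS_pow k P hP]
  rw [hleft]
  refine le_trans hbx ?_
  have hc : ∑ m ∈ prods k P, ‖((bb k P (fun p => Real.log p / Y0) m : ℝ) : ℂ)‖ ^ 2 *
      Real.exp (a * (k * Real.log Y0 - Real.log m)) ^ 2 ≤ k.factorial *
        (∑ p ∈ P, (Real.log p / Y0 * Real.exp (a * (Real.log Y0 - Real.log p))) ^ 2) ^ k := by
    refine le_trans (le_of_eq ?_) (sum_bb_sq k P hP _)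
    apply Finset.sum_congr rfl
    intro m _
    rw [← bb_weight k P hP, norm_real, Real.norm_eq_abs, sq_abs, mul_pow]
  have hBA : (0 : ℝ) ≤ (B : ℝ) - A := by
    have : (A : ℝ) ≤ B := by exact_mod_cast hAB
    linarith
  have hcoef : 12 * L ^ 4 * (((B : ℝ) - A) + 4 * (M : ℝ) * (1 + Real.log M)) ≤ 24 * L ^ 4 * ((B : ℝ) - A) := by
    have : 12 * L ^ 4 * (((B : ℝ) - A) + 4 * (M : ℝ) * (1 + Real.log M)) ≤
        12 * L ^ 4 * (((B : ℝ) - A) + ((B : ℝ) - A)) :=
      mul_le_mul_of_nonneg_left (by linarith) (by positivity)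
    linarith
  exact mul_le_mul hcoef hc (Finset.sum_nonneg fun _ _ => by positivity) (by positivity)

end Pool.Agent.Work.MP_e9b29d_nt
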