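import Mathlib
import Pool.Agent.Work.MP_e9b29d_nt.MV
import Pool.Agent.Work.MP_e9b29d_nt.Sob

/-!
Dyadic mean value theorem over unit boxes for Dirichlet polynomials whose first coefficients vanish.
-/

namespace Pool.Agent.Work.MP_e9b29d_nt

open Complex Finset

lemma cpow_eq_cexp {m : ℕ} (hm : 1 ≤ m) (σ t : ℝ) :
    (m : ℂ) ^ (-((σ : ℂ) + t * I)) =
      cexp ((σ * (-Real.log m) : ℝ) : ℂ) * cexp (((-Real.log m * t : ℝ) : ℂ) * I) := by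
  have hm0 : (0 : ℝ) < m := by exact_mod_cast hm
  have h0 : (m : ℂ) ≠ 0 := by exact_mod_cast hm0.ne'
  rw [Complex.cpow_def_of_ne_zero h0, ← Complex.natCast_log, ← Complex.exp_add]
  congr 1
  push_cast
  ring

lemma FF_log (S : Finset ℕ) (hS : ∀ m ∈ S, 1 ≤ m) (c : ℕ → ℂ) (σ t : ℝ) :
    FF S c (fun m => -Real.log m) (fun m => -Real.log m) σ t =
      ∑ m ∈ S, c m * (m : ℂ) ^ (-((σ : ℂ) + t * I)) := by
  unfold FF
  apply Finset.sum_congr rfl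
  intro m hm
  rw [cpow_eq_cexp (hS m hm), mul_assoc]

lemma sum_dyadic (f : ℕ → ℂ) (J : ℕ) :
    ∑ m ∈ Ioc 0 (2 ^ J), f m = f 1 + ∑ j ∈ range J, ∑ m ∈ Ioc (2 ^ j) (2 ^ (j + 1)), f m := by
  induction J with
  | zero =>
    have : Ioc 0 (2 ^ 0) = ({1} : Finset ℕ) := by decide
    rw [this]
    simp
  | succ J ih =>
    rw [sum_range_succ, ← add_assoc, ← ih]
    rw [Finset.sum_Ioc_consecutive f (Nat.zero_le _) (Nat.pow_le_pow_right (by norm_num) (by omega))]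

theorem dyadic_block (c : ℕ → ℂ) {a b β ε C0 X : ℝ} {J A B j : ℕ} (ha : 0 ≤ a) (hab : a < b)
    (hab1 : b - a ≤ 1) (hAB : A ≤ B) (hβ : 0 < β) (hβ1 : β ≤ 1) (hj : j < J) (hX : 1 ≤ X)
    (hC0 : 0 ≤ C0)
    (hc : ∀ m : ℕ, 1 ≤ m → ‖c m‖ ≤ C0 * (m : ℝ) ^ ε) (hβε : β ≤ 2 * a - 1 - 2 * ε)
    (hcX : ∀ m : ℕ, (m : ℝ) ≤ X → c m = 0)
    (σ t : ℕ → ℝ) (hσ : ∀ n ∈ Ico A B, σ n ∈ Set.Icc a b)
    (ht : ∀ n ∈ Ico A B, t n ∈ Set.Icc (n : ℝ) (n + 1)) :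
    ∑ n ∈ Ico A B, ‖∑ m ∈ Ioc (2 ^ j) (2 ^ (j + 1)), c m * (m : ℂ) ^ (-((σ n : ℂ) + t n * I))‖ ^ 2 ≤
      12 * (J : ℝ) ^ 4 * C0 ^ 2 *
        (((B : ℝ) - A) * (X / 2) ^ (-β) + 16 * J * (2 : ℝ) ^ (J * (1 - β))) := by
  classical
  set S : Finset ℕ := Ioc (2 ^ j) (2 ^ (j + 1)) with hS
  have hJ0 : (1 : ℝ) ≤ J := by exact_mod_cast (by omega : 1 ≤ J)
  have hBA : (0 : ℝ) ≤ (B : ℝ) - A := by
    have : (A : ℝ) ≤ B := by exact_mod_cast hAB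
    linarith
  have hS1 : ∀ m ∈ S, 1 ≤ m := by
    intro m hm
    have h1 := (mem_Ioc.1 hm).1
    exact le_trans Nat.one_le_two_pow h1.le
  have hSs : S ⊆ Icc 1 (2 ^ (j + 1)) := by
    intro m hm
    rw [mem_Icc]
    exact ⟨hS1 m hm, (mem_Ioc.1 hm).2⟩
  have hlogm : ∀ m ∈ S, 0 ≤ Real.log m ∧ Real.log m ≤ J := by
    intro m hm
    have h1 : (1 : ℝ) ≤ m := by exact_mod_cast hS1 m hm
    refine ⟨Real.log_nonneg h1, ?_⟩
    have h2 : (m : ℝ) ≤ (2 : ℝ) ^ (j + 1) := by exact_mod_cast (mem_Ioc.1 hm).2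
    have h3 : Real.log m ≤ Real.log ((2 : ℝ) ^ (j + 1)) := Real.log_le_log (by linarith) h2
    rw [Real.log_pow] at h3
    have h4 : Real.log 2 ≤ 1 := by have := Real.log_two_lt_d9; linarith
    have h5 : ((j + 1 : ℕ) : ℝ) * Real.log 2 ≤ ((j + 1 : ℕ) : ℝ) * 1 :=
      mul_le_mul_of_nonneg_left h4 (by positivity)
    have h6 : ((j + 1 : ℕ) : ℝ) ≤ J := by exact_mod_cast hj
    linarith
  have hM : 1 ≤ 2 ^ (j + 1) := Nat.one_le_two_pow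
  set R : ℝ := 4 * ((2 ^ (j + 1) : ℕ) : ℝ) * (1 + Real.log ((2 ^ (j + 1) : ℕ) : ℝ)) with hR
  have hlogM : Real.log ((2 ^ (j + 1) : ℕ) : ℝ) ≤ J := by
    have h4 : Real.log 2 ≤ 1 := by have := Real.log_two_lt_d9; linarith
    rw [Nat.cast_pow, Real.log_pow]
    have h5 : ((j + 1 : ℕ) : ℝ) * Real.log ((2 : ℕ) : ℝ) ≤ ((j + 1 : ℕ) : ℝ) * 1 :=
      mul_le_mul_of_nonneg_left (by simpa using h4) (by positivity)
    have h6 : ((j + 1 : ℕ) : ℝ) ≤ J := by exact_mod_cast hj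
    linarith
  have hlogM0 : 0 ≤ Real.log ((2 ^ (j + 1) : ℕ) : ℝ) := Real.log_nonneg (by exact_mod_cast hM)
  have hR0 : 0 ≤ R := by rw [hR]; positivity
  have hR1 : R ≤ 16 * J * (2 : ℝ) ^ j := by
    have h7 : ((2 ^ (j + 1) : ℕ) : ℝ) = 2 * (2 : ℝ) ^ j := by push_cast; ring
    have h8 : 1 + Real.log ((2 ^ (j + 1) : ℕ) : ℝ) ≤ 2 * J := by linarith
    rw [hR]
    calc 4 * ((2 ^ (j + 1) : ℕ) : ℝ) * (1 + Real.log ((2 ^ (j + 1) : ℕ) : ℝ))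
        ≤ 4 * ((2 ^ (j + 1) : ℕ) : ℝ) * (2 * J) := mul_le_mul_of_nonneg_left h8 (by positivity)
      _ = 16 * J * (2 : ℝ) ^ j := by rw [h7]; ring
  have hinj : ∀ j ∈ S, ∀ k ∈ S, j ≠ k → -Real.log (j : ℝ) ≠ -Real.log (k : ℝ) := by
    intro x hx k hk hne h
    have hj0 : (0 : ℝ) < x := by exact_mod_cast hS1 x hx
    have hk0 : (0 : ℝ) < k := by exact_mod_cast hS1 k hk
    have h1 : Real.log x = Real.log k := by linarith
    have h2 := Real.log_injOn_pos (Set.mem_Ioi.2 hj0) (Set.mem_Ioi.2 hk0) h1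
    exact hne (by exact_mod_cast h2)
  have hbx := boxes S c (fun m => -Real.log m) (fun m => -Real.log m) (a := a) (b := b) (R := R)
    (L := (J : ℝ)) (A := A) (B := B) hab hab1 hAB hinj (fun x hx => gap_sum_log hM hSs hx) hR0 hJ0
    (fun m hm => by
      rw [abs_neg, abs_of_nonneg (hlogm m hm).1]; exact (hlogm m hm).2)
    (fun m hm => by
      rw [abs_neg, abs_of_nonneg (hlogm m hm).1]; exact (hlogm m hm).2)
    (w := fun m => Real.exp (-(a * Real.log m)))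
    (fun m hm v hv => by
      apply Real.exp_le_exp.2
      have := mul_le_mul_of_nonneg_right hv.1 (hlogm m hm).1
      linarith) σ t hσ ht
  have hleft : ∑ n ∈ Ico A B, ‖∑ m ∈ S, c m * (m : ℂ) ^ (-((σ n : ℂ) + t n * I))‖ ^ 2 =
      ∑ n ∈ Ico A B, ‖FF S c (fun m => -Real.log m) (fun m => -Real.log m) (σ n) (t n)‖ ^ 2 := by
    apply Finset.sum_congr rfl
    intro n _
    rw [FF_log S hS1]
  rw [hleft]
  refine le_trans hbx ?_
  have hX0 : 0 < X / 2 := by linarith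
  -- the coefficient sum
  have hXp : 0 < (X / 2) ^ (-β) := Real.rpow_pos_of_pos hX0 _
  by_cases hjX : ((2 : ℝ) ^ (j + 1)) ≤ X
  · have h0 : ∑ j ∈ S, ‖c j‖ ^ 2 * Real.exp (-(a * Real.log (j : ℝ))) ^ 2 = 0 := by
      apply Finset.sum_eq_zero
      intro m hm
      have h2 : (m : ℝ) ≤ (2 : ℝ) ^ (j + 1) := by exact_mod_cast (mem_Ioc.1 hm).2
      rw [hcX m (le_trans h2 hjX)]
      simp
    rw [h0, mul_zero]
    have h3 : (0 : ℝ) ≤ ((B : ℝ) - A) * (X / 2) ^ (-β) := mul_nonneg hBA hXp.le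
    positivity
  · push Not at hjX
    have hq : X / 2 < (2 : ℝ) ^ j := by
      rw [pow_succ] at hjX
      linarith
    set Q : ℝ := (2 : ℝ) ^ j with hQ
    have hQ0 : 0 < Q := by positivity
    have hsum : ∑ m ∈ S, ‖c m‖ ^ 2 * Real.exp (-(a * Real.log (m : ℝ))) ^ 2 ≤ C0 ^ 2 * Q ^ (-β) := by
      have hterm : ∀ m ∈ S, ‖c m‖ ^ 2 * Real.exp (-(a * Real.log (m : ℝ))) ^ 2 ≤
          C0 ^ 2 * Q ^ (-1 - β) := by
        intro m hm
        have hm1 : (1 : ℝ) ≤ m := by exact_mod_cast hS1 m hm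
        have hm0 : (0 : ℝ) < m := by linarith
        have hQm : Q ≤ m := by
          have : 2 ^ j ≤ m := (mem_Ioc.1 hm).1.le
          rw [hQ]
          exact_mod_cast this
        have e1 : Real.exp (-(a * Real.log (m : ℝ))) = (m : ℝ) ^ (-a) := by
          rw [Real.rpow_def_of_pos hm0]
          congr 1
          ring
        rw [e1]
        have h5 : ‖c m‖ ^ 2 ≤ (C0 * (m : ℝ) ^ ε) ^ 2 :=
          pow_le_pow_left₀ (norm_nonneg _) (hc m (hS1 m hm)) 2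
        calc ‖c m‖ ^ 2 * ((m : ℝ) ^ (-a)) ^ 2 ≤ (C0 * (m : ℝ) ^ ε) ^ 2 * ((m : ℝ) ^ (-a)) ^ 2 :=
              mul_le_mul_of_nonneg_right h5 (by positivity)
          _ = C0 ^ 2 * (m : ℝ) ^ (2 * ε - 2 * a) := by
              have e2 : (m : ℝ) ^ (2 * ε - 2 * a) = ((m : ℝ) ^ ε) ^ 2 * ((m : ℝ) ^ (-a)) ^ 2 := by
                rw [← Real.rpow_natCast, ← Real.rpow_natCast, ← Real.rpow_mul hm0.le,
                  ← Real.rpow_mul hm0.le, ← Real.rpow_add hm0]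
                congr 1
                push_cast
                ring
              rw [e2]
              ring
          _ ≤ C0 ^ 2 * (m : ℝ) ^ (-1 - β) := by
              apply mul_le_mul_of_nonneg_left _ (by positivity)
              apply Real.rpow_le_rpow_of_exponent_le hm1
              linarith
          _ ≤ C0 ^ 2 * Q ^ (-1 - β) := by
              apply mul_le_mul_of_nonneg_left _ (by positivity)
              apply Real.rpow_le_rpow_of_nonpos hQ0 hQm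
              linarith
      have hcard : (S.card : ℝ) = Q := by
        rw [hS, Nat.card_Ioc, hQ]
        have : 2 ^ (j + 1) - 2 ^ j = 2 ^ j := by
          rw [pow_succ]; omega
        rw [this]
        push_cast
        rfl
      calc ∑ m ∈ S, ‖c m‖ ^ 2 * Real.exp (-(a * Real.log (m : ℝ))) ^ 2
          ≤ ∑ m ∈ S, C0 ^ 2 * Q ^ (-1 - β) := Finset.sum_le_sum hterm
        _ = Q * (C0 ^ 2 * Q ^ (-1 - β)) := by rw [sum_const, nsmul_eq_mul, hcard]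
        _ = C0 ^ 2 * Q ^ (-β) := by
            have e3 : Q ^ (-β) = Q * Q ^ (-1 - β) := by
              have : Q * Q ^ (-1 - β) = Q ^ (1 : ℝ) * Q ^ (-1 - β) := by rw [Real.rpow_one]
              rw [this, ← Real.rpow_add hQ0]
              congr 1
              ring
            rw [e3]
            ring
    have hQX : Q ^ (-β) ≤ (X / 2) ^ (-β) := Real.rpow_le_rpow_of_nonpos hX0 hq.le (by linarith)
    have hQJ : Q * Q ^ (-β) ≤ (2 : ℝ) ^ (J * (1 - β)) := by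
      have e3 : Q * Q ^ (-β) = Q ^ (1 - β) := by
        have : Q * Q ^ (-β) = Q ^ (1 : ℝ) * Q ^ (-β) := by rw [Real.rpow_one]
        rw [this, ← Real.rpow_add hQ0]
        congr 1
      rw [e3, hQ, ← Real.rpow_natCast, ← Real.rpow_mul (by norm_num)]
      apply Real.rpow_le_rpow_of_exponent_le (by norm_num)
      apply mul_le_mul_of_nonneg_right _ (by linarith)
      exact_mod_cast hj.le
    have hQp : 0 < Q ^ (-β) := Real.rpow_pos_of_pos hQ0 _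
    calc 12 * (J : ℝ) ^ 4 * ((B : ℝ) - A + R) * ∑ m ∈ S, ‖c m‖ ^ 2 * Real.exp (-(a * Real.log (m : ℝ))) ^ 2
        ≤ 12 * (J : ℝ) ^ 4 * ((B : ℝ) - A + R) * (C0 ^ 2 * Q ^ (-β)) :=
          mul_le_mul_of_nonneg_left hsum (by positivity)
      _ = 12 * (J : ℝ) ^ 4 * C0 ^ 2 * (((B : ℝ) - A) * Q ^ (-β) + R * Q ^ (-β)) := by ring
      _ ≤ 12 * (J : ℝ) ^ 4 * C0 ^ 2 *
        (((B : ℝ) - A) * (X / 2) ^ (-β) + 16 * J * (2 : ℝ) ^ (J * (1 - β))) := by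
          apply mul_le_mul_of_nonneg_left _ (by positivity)
          apply add_le_add (mul_le_mul_of_nonneg_left hQX hBA)
          calc R * Q ^ (-β) ≤ (16 * J * Q) * Q ^ (-β) := mul_le_mul_of_nonneg_right hR1 hQp.le
            _ = 16 * J * (Q * Q ^ (-β)) := by ring
            _ ≤ _ := mul_le_mul_of_nonneg_left hQJ (by positivity)

theorem dyadic (c : ℕ → ℂ) {a b β ε C0 X : ℝ} {J A B : ℕ} (ha : 0 ≤ a) (hab : a < b)
    (hab1 : b - a ≤ 1) (hAB : A ≤ B) (hβ : 0 < β) (hβ1 : β ≤ 1) (hX : 1 ≤ X)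
    (hC0 : 0 ≤ C0)
    (hc : ∀ m : ℕ, 1 ≤ m → ‖c m‖ ≤ C0 * (m : ℝ) ^ ε) (hβε : β ≤ 2 * a - 1 - 2 * ε)
    (hcX : ∀ m : ℕ, (m : ℝ) ≤ X → c m = 0)
    (σ t : ℕ → ℝ) (hσ : ∀ n ∈ Ico A B, σ n ∈ Set.Icc a b)
    (ht : ∀ n ∈ Ico A B, t n ∈ Set.Icc (n : ℝ) (n + 1)) :
    ∑ n ∈ Ico A B, ‖∑ m ∈ Ioc 0 (2 ^ J), c m * (m : ℂ) ^ (-((σ n : ℂ) + t n * I))‖ ^ 2 ≤
      12 * (J : ℝ) ^ 6 * C0 ^ 2 *
        (((B : ℝ) - A) * (X / 2) ^ (-β) + 16 * J * (2 : ℝ) ^ (J * (1 - β))) := by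
  have h1 : c 1 = 0 := hcX 1 (by simpa using hX)
  have hstep : ∀ n ∈ Ico A B,
      ‖∑ m ∈ Ioc 0 (2 ^ J), c m * (m : ℂ) ^ (-((σ n : ℂ) + t n * I))‖ ^ 2 ≤
      (J : ℝ) * ∑ j ∈ range J,
        ‖∑ m ∈ Ioc (2 ^ j) (2 ^ (j + 1)), c m * (m : ℂ) ^ (-((σ n : ℂ) + t n * I))‖ ^ 2 := by
    intro n _
    rw [sum_dyadic (fun m => c m * (m : ℂ) ^ (-((σ n : ℂ) + t n * I))) J]
    simp only [h1, zero_mul, zero_add]
    have h2 : ‖∑ j ∈ range J, ∑ m ∈ Ioc (2 ^ j) (2 ^ (j + 1)), c m * (m : ℂ) ^ (-((σ n : ℂ) + t n * I))‖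
        ≤ ∑ j ∈ range J, ‖∑ m ∈ Ioc (2 ^ j) (2 ^ (j + 1)), c m * (m : ℂ) ^ (-((σ n : ℂ) + t n * I))‖ :=
      norm_sum_le _ _
    refine le_trans (pow_le_pow_left₀ (norm_nonneg _) h2 2) ?_
    have h3 := sq_sum_le_card_mul_sum_sq (s := range J)
      (f := fun j => ‖∑ m ∈ Ioc (2 ^ j) (2 ^ (j + 1)), c m * (m : ℂ) ^ (-((σ n : ℂ) + t n * I))‖)
    rw [card_range] at h3
    exact h3
  refine le_trans (Finset.sum_le_sum hstep) ?_
  rw [← Finset.mul_sum, Finset.sum_comm]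
  have h4 : ∑ j ∈ range J, ∑ n ∈ Ico A B,
      ‖∑ m ∈ Ioc (2 ^ j) (2 ^ (j + 1)), c m * (m : ℂ) ^ (-((σ n : ℂ) + t n * I))‖ ^ 2 ≤
      ∑ j ∈ range J, 12 * (J : ℝ) ^ 4 * C0 ^ 2 *
        (((B : ℝ) - A) * (X / 2) ^ (-β) + 16 * J * (2 : ℝ) ^ (J * (1 - β))) := by
    apply Finset.sum_le_sum
    intro j hj
    exact dyadic_block c ha hab hab1 hAB hβ hβ1 (mem_range.1 hj) hX hC0 hc hβε hcX σ t hσ ht
  refine le_trans (mul_le_mul_of_nonneg_left h4 (Nat.cast_nonneg J)) ?_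
  rw [sum_const, card_range, nsmul_eq_mul]
  apply le_of_eq
  ring

end Pool.Agent.Work.MP_e9b29d_nt
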