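import Mathlib
import Pool.Agent.Work.MP_e9b29d_nt.DMV

/-!
Power saving for Dirichlet polynomials whose first coefficients vanish, and the passage from
sums over boxes to counts of boxes.
-/

namespace Pool.Agent.Work.MP_e9b29d_nt

open Complex Finset

lemma ev_log_pow (C : ℝ) (k : ℕ) {ρ : ℝ} (hρ : 0 < ρ) :
    ∀ᶠ x : ℝ in Filter.atTop, C * (Real.log x) ^ k ≤ x ^ ρ := by
  have h1 := (isLittleO_log_rpow_rpow_atTop (s := ρ) (k : ℝ) hρ).const_mul_left C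
  have h2 := h1.bound (one_pos)
  filter_upwards [h2, Filter.eventually_gt_atTop 0] with x hx hx0
  rw [Real.norm_eq_abs, Real.norm_eq_abs, one_mul, abs_of_nonneg (Real.rpow_nonneg hx0.le _)] at hx
  have h3 := le_abs_self (C * Real.log x ^ (k : ℝ))
  rw [Real.rpow_natCast] at h3 hx
  exact le_trans h3 hx

lemma ev_log_pow_nat (C : ℝ) (k : ℕ) {ρ : ℝ} (hρ : 0 < ρ) :
    ∀ᶠ T : ℕ in Filter.atTop, C * (Real.log T) ^ k ≤ (T : ℝ) ^ ρ :=
  tendsto_natCast_atTop_atTop.eventually (ev_log_pow C k hρ)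

lemma ev_const_nat (C : ℝ) {ρ : ℝ} (hρ : 0 < ρ) :
    ∀ᶠ T : ℕ in Filter.atTop, C ≤ (T : ℝ) ^ ρ := by
  have := ev_log_pow_nat C 0 hρ
  filter_upwards [this] with T hT
  simpa using hT

lemma count_le (F : ℝ → ℝ → ℂ) {a b Sb lam : ℝ} {A B : ℕ} (hab : a ≤ b) (hlam : 0 < lam)
    (h : ∀ σ t : ℕ → ℝ, (∀ n ∈ Ico A B, σ n ∈ Set.Icc a b) →
      (∀ n ∈ Ico A B, t n ∈ Set.Icc (n : ℝ) (n + 1)) →
      ∑ n ∈ Ico A B, ‖F (σ n) (t n)‖ ^ 2 ≤ Sb) :
    by classical exact (((Ico A B).filter (fun n : ℕ => ∃ σ ∈ Set.Icc a b,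
      ∃ t ∈ Set.Icc (n : ℝ) (n + 1), lam < ‖F σ t‖)).card : ℝ) * lam ^ 2 ≤ Sb := by
  classical
  set P : ℕ → Prop := fun n : ℕ => ∃ σ ∈ Set.Icc a b, ∃ t ∈ Set.Icc (n : ℝ) (n + 1), lam < ‖F σ t‖
    with hP
  set σ : ℕ → ℝ := fun n => if hn : P n then hn.choose else a with hσ
  have hch : ∀ n, P n → ∃ t ∈ Set.Icc (n : ℝ) (n + 1), lam < ‖F (σ n) t‖ := by
    intro n hn
    have e : σ n = hn.choose := by rw [hσ]; simp only; rw [dif_pos hn]
    rw [e]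
    exact hn.choose_spec.2
  set t : ℕ → ℝ := fun n => if hn : P n then (hch n hn).choose else n with ht
  have h1 : ∀ n ∈ Ico A B, σ n ∈ Set.Icc a b := by
    intro n _
    by_cases hn : P n
    · have e : σ n = hn.choose := by rw [hσ]; simp only; rw [dif_pos hn]
      rw [e]
      exact hn.choose_spec.1
    · have e : σ n = a := by rw [hσ]; simp only; rw [dif_neg hn]
      rw [e]
      exact ⟨le_rfl, hab⟩
  have h2 : ∀ n ∈ Ico A B, t n ∈ Set.Icc (n : ℝ) (n + 1) := by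
    intro n _
    by_cases hn : P n
    · have e : t n = (hch n hn).choose := by rw [ht]; simp only; rw [dif_pos hn]
      rw [e]
      exact (hch n hn).choose_spec.1
    · have e : t n = n := by rw [ht]; simp only; rw [dif_neg hn]
      rw [e]
      exact ⟨le_rfl, by linarith⟩
  refine le_trans ?_ (h σ t h1 h2)
  calc (((Ico A B).filter P).card : ℝ) * lam ^ 2
      = ∑ n ∈ (Ico A B).filter P, lam ^ 2 := by rw [sum_const, nsmul_eq_mul]
    _ ≤ ∑ n ∈ (Ico A B).filter P, ‖F (σ n) (t n)‖ ^ 2 := by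
        apply Finset.sum_le_sum
        intro n hn
        have hn' := (mem_filter.1 hn).2
        have e : t n = (hch n hn').choose := by rw [ht]; simp only; rw [dif_pos hn']
        rw [e]
        exact pow_le_pow_left₀ hlam.le (hch n hn').choose_spec.2.le 2
    _ ≤ ∑ n ∈ Ico A B, ‖F (σ n) (t n)‖ ^ 2 :=
        Finset.sum_le_sum_of_subset_of_nonneg (filter_subset _ _) (fun _ _ _ => by positivity)

theorem poly_small {a b θ β ε κ κ0 g C0 : ℝ} (ha : 0 ≤ a) (hab : a < b) (hab1 : b - a ≤ 1)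
    (hβ : 0 < β) (hβ1 : β ≤ 1) (hβε : β ≤ 2 * a - 1 - 2 * ε) (hκ : 0 < κ) (hg : 0 < g)
    (hκ0 : (1 + κ0) * (1 - β) ≤ θ - g) (hκ1 : κ0 ≤ 1) (hC0 : 0 ≤ C0) :
    ∀ᶠ T : ℕ in Filter.atTop, ∀ H : ℕ, (T : ℝ) ^ θ ≤ H → ∀ (c : ℕ → ℂ) (J : ℕ),
      (∀ m : ℕ, 1 ≤ m → ‖c m‖ ≤ C0 * (m : ℝ) ^ ε) →
      (∀ m : ℕ, m ≤ ⌊(T : ℝ) ^ κ⌋₊ → c m = 0) → (2 : ℝ) ^ J ≤ 10 * (T : ℝ) ^ (1 + κ0) →
      ∀ σ t : ℕ → ℝ, (∀ n ∈ Ico T (T + H), σ n ∈ Set.Icc a b) →
      (∀ n ∈ Ico T (T + H), t n ∈ Set.Icc (n : ℝ) (n + 1)) →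
      ∑ n ∈ Ico T (T + H), ‖∑ m ∈ Ioc 0 (2 ^ J), c m * (m : ℂ) ^ (-((σ n : ℂ) + t n * I))‖ ^ 2 ≤
        H * (T : ℝ) ^ (-(min (κ * β) g / 2)) := by
  set ρ : ℝ := min (κ * β) g with hρ
  have hρ0 : 0 < ρ := lt_min (mul_pos hκ hβ) hg
  filter_upwards [ev_log_pow_nat (1968 * 4 ^ 7 * C0 ^ 2) 7 (half_pos hρ0),
    ev_log_pow_nat 12 0 (ρ := 1) one_pos, ev_const_nat 2 hκ,
    Filter.eventually_ge_atTop 1, (Real.tendsto_log_atTop.comp
      tendsto_natCast_atTop_atTop).eventually_ge_atTop 12] with T hT1 _ hT3 hT4 hT5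
  intro H hH c J hc hc0 hJ σ t hσ ht
  have hT0 : (0 : ℝ) < T := by exact_mod_cast hT4
  have hT1' : (1 : ℝ) ≤ T := by exact_mod_cast hT4
  have hlog : 12 ≤ Real.log T := hT5
  set X : ℕ := ⌊(T : ℝ) ^ κ⌋₊ with hX
  have hX1 : 1 ≤ X := Nat.one_le_floor_iff _ |>.2 (by linarith)
  have hX1' : (1 : ℝ) ≤ X := by exact_mod_cast hX1
  have hXT : (T : ℝ) ^ κ / 4 ≤ (X : ℝ) / 2 := by
    have := Nat.lt_floor_add_one ((T : ℝ) ^ κ)
    rw [← hX] at this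
    linarith
  have hmain := dyadic c (X := (X : ℝ)) (J := J) ha hab hab1 (A := T) (B := T + H) (by omega) hβ hβ1
    hX1' hC0 hc hβε (fun m hm => hc0 m (by exact_mod_cast hm)) σ t hσ ht
  refine le_trans hmain ?_
  have hBA : (((T + H : ℕ) : ℝ) - T) = H := by push_cast; ring
  rw [hBA]
  have hH0 : (0 : ℝ) ≤ H := Nat.cast_nonneg H
  have hTρ : (T : ℝ) ^ (-(κ * β)) ≤ (T : ℝ) ^ (-ρ) :=
    Real.rpow_le_rpow_of_exponent_le hT1' (neg_le_neg (min_le_left _ _))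
  have hTg : (T : ℝ) ^ (-g) ≤ (T : ℝ) ^ (-ρ) :=
    Real.rpow_le_rpow_of_exponent_le hT1' (neg_le_neg (min_le_right _ _))
  have hXβ : ((X : ℝ) / 2) ^ (-β) ≤ 4 * (T : ℝ) ^ (-ρ) := by
    have h0 : 0 < (T : ℝ) ^ κ / 4 := by positivity
    calc ((X : ℝ) / 2) ^ (-β) ≤ ((T : ℝ) ^ κ / 4) ^ (-β) :=
          Real.rpow_le_rpow_of_nonpos h0 hXT (by linarith)
      _ = (4 : ℝ) ^ β * (T : ℝ) ^ (-(κ * β)) := by
          rw [Real.div_rpow (by positivity) (by norm_num), ← Real.rpow_mul hT0.le,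
            Real.rpow_neg (by norm_num : (0 : ℝ) ≤ 4)]
          rw [div_inv_eq_mul, mul_neg, mul_comm]
      _ ≤ 4 * (T : ℝ) ^ (-ρ) := by
          apply mul_le_mul _ hTρ (by positivity) (by norm_num)
          calc (4 : ℝ) ^ β ≤ (4 : ℝ) ^ (1 : ℝ) :=
                Real.rpow_le_rpow_of_exponent_le (by norm_num) hβ1
            _ = 4 := Real.rpow_one _
  have h2J : (2 : ℝ) ^ (J * (1 - β)) ≤ 10 * (H * (T : ℝ) ^ (-ρ)) := by
    have h1β : 0 ≤ 1 - β := by linarith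
    calc (2 : ℝ) ^ (J * (1 - β)) = ((2 : ℝ) ^ J) ^ (1 - β) := by
          rw [Real.rpow_mul (by norm_num), Real.rpow_natCast]
      _ ≤ (10 * (T : ℝ) ^ (1 + κ0)) ^ (1 - β) := Real.rpow_le_rpow (by positivity) hJ h1β
      _ = (10 : ℝ) ^ (1 - β) * (T : ℝ) ^ ((1 + κ0) * (1 - β)) := by
          rw [Real.mul_rpow (by norm_num) (by positivity), ← Real.rpow_mul hT0.le]
      _ ≤ 10 * (T : ℝ) ^ (θ - g) := by
          apply mul_le_mul _ _ (by positivity) (by norm_num)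
          · calc (10 : ℝ) ^ (1 - β) ≤ (10 : ℝ) ^ (1 : ℝ) :=
                Real.rpow_le_rpow_of_exponent_le (by norm_num) (by linarith)
              _ = 10 := Real.rpow_one _
          · exact Real.rpow_le_rpow_of_exponent_le hT1' hκ0
      _ = 10 * ((T : ℝ) ^ θ * (T : ℝ) ^ (-g)) := by
          rw [← Real.rpow_add hT0]
          congr 2
      _ ≤ 10 * (H * (T : ℝ) ^ (-ρ)) := by
          apply mul_le_mul_of_nonneg_left _ (by norm_num)
          exact mul_le_mul hH hTg (by positivity) hH0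
  have hJ4 : (J : ℝ) ≤ 4 * Real.log T := by
    have h1 : Real.log ((2 : ℝ) ^ J) ≤ Real.log (10 * (T : ℝ) ^ (1 + κ0)) :=
      Real.log_le_log (by positivity) hJ
    rw [Real.log_pow, Real.log_mul (by norm_num) (by positivity), Real.log_rpow hT0] at h1
    have h2 : Real.log 10 ≤ 9 := by
      have := Real.log_le_sub_one_of_pos (by norm_num : (0 : ℝ) < 10)
      linarith
    have h3 : (1 + κ0) * Real.log T ≤ 2 * Real.log T :=
      mul_le_mul_of_nonneg_right (by linarith) (by linarith)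
    have h4 : (0.69 : ℝ) ≤ Real.log 2 := by have := Real.log_two_gt_d9; linarith
    have h5 : (J : ℝ) * 0.69 ≤ J * Real.log 2 := mul_le_mul_of_nonneg_left h4 (Nat.cast_nonneg J)
    linarith
  have hJ0 : (0 : ℝ) ≤ J := Nat.cast_nonneg J
  have hTr : 0 < (T : ℝ) ^ (-ρ) := Real.rpow_pos_of_pos hT0 _
  have hJJ : (J : ℝ) ^ 6 * (4 + 160 * J) ≤ 164 * (J : ℝ) ^ 7 := by
    rcases Nat.eq_zero_or_pos J with h | h
    · subst h
      norm_num
    · have h1 : (1 : ℝ) ≤ J := by exact_mod_cast h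
      have h6 : 0 ≤ (J : ℝ) ^ 6 := by positivity
      have : 164 * (J : ℝ) ^ 7 = (J : ℝ) ^ 6 * (164 * J) := by ring
      rw [this]
      apply mul_le_mul_of_nonneg_left _ h6
      linarith
  calc 12 * (J : ℝ) ^ 6 * C0 ^ 2 * ((H : ℝ) * ((X : ℝ) / 2) ^ (-β) + 16 * J * (2 : ℝ) ^ (J * (1 - β)))
      ≤ 12 * (J : ℝ) ^ 6 * C0 ^ 2 * ((H : ℝ) * (4 * (T : ℝ) ^ (-ρ)) + 16 * J * (10 * (H * (T : ℝ) ^ (-ρ)))) := by
        apply mul_le_mul_of_nonneg_left _ (by positivity)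
        exact add_le_add (mul_le_mul_of_nonneg_left hXβ hH0)
          (mul_le_mul_of_nonneg_left h2J (by positivity))
    _ = 12 * C0 ^ 2 * ((J : ℝ) ^ 6 * (4 + 160 * J)) * (H * (T : ℝ) ^ (-ρ)) := by ring
    _ ≤ 12 * C0 ^ 2 * (164 * (J : ℝ) ^ 7) * (H * (T : ℝ) ^ (-ρ)) := by
        apply mul_le_mul_of_nonneg_right _ (by positivity)
        exact mul_le_mul_of_nonneg_left hJJ (by positivity)
    _ ≤ 12 * C0 ^ 2 * (164 * (4 * Real.log T) ^ 7) * (H * (T : ℝ) ^ (-ρ)) := by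
        apply mul_le_mul_of_nonneg_right _ (by positivity)
        apply mul_le_mul_of_nonneg_left _ (by positivity)
        apply mul_le_mul_of_nonneg_left _ (by norm_num)
        exact pow_le_pow_left₀ hJ0 hJ4 7
    _ = (1968 * 4 ^ 7 * C0 ^ 2 * Real.log T ^ 7) * (H * (T : ℝ) ^ (-ρ)) := by ring
    _ ≤ (T : ℝ) ^ (ρ / 2) * (H * (T : ℝ) ^ (-ρ)) := mul_le_mul_of_nonneg_right hT1 (by positivity)
    _ = H * (T : ℝ) ^ (-(ρ / 2)) := by
        have : (T : ℝ) ^ (-(ρ / 2)) = (T : ℝ) ^ (ρ / 2) * (T : ℝ) ^ (-ρ) := by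
          rw [← Real.rpow_add hT0]
          congr 1
          ring
        rw [this]
        ring

end Pool.Agent.Work.MP_e9b29d_nt
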