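import Mathlib
import Pool.Agent.Work.MP_e9b29d_nt.Small
import Pool.Agent.Work.MP_e9b29d_nt.Mom
import Pool.Agent.Work.MP_e9b29d_nt.Dir

/-!
Number of unit boxes on which a block of primes is large.
-/

namespace Pool.Agent.Work.MP_e9b29d_nt

open Complex Finset

/-- primes of the block `(Y, 2Y]` up to `X` -/
noncomputable def blk (X : ℕ) (Y : ℝ) : Finset ℕ := by
  classical exact (Ioc 0 X).filter (fun p : ℕ => p.Prime ∧ Y < p ∧ (p : ℝ) ≤ 2 * Y)

lemma mem_blk {X : ℕ} {Y : ℝ} {p : ℕ} :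
    p ∈ blk X Y ↔ p ∈ Ioc 0 X ∧ p.Prime ∧ Y < p ∧ (p : ℝ) ≤ 2 * Y := by
  classical
  unfold blk
  rw [mem_filter]

/-- unit boxes where the block is large -/
noncomputable def badP (a b : ℝ) (P : Finset ℕ) (Y0 lam : ℝ) (A B : ℕ) : Finset ℕ := by
  classical exact (Ico A B).filter (fun n : ℕ => ∃ σ ∈ Set.Icc a b,
    ∃ t ∈ Set.Icc (n : ℝ) (n + 1), lam < ‖PS P Y0 σ t‖)

lemma mem_badP {a b : ℝ} {P : Finset ℕ} {Y0 lam : ℝ} {A B n : ℕ} :
    n ∈ badP a b P Y0 lam A B ↔ n ∈ Ico A B ∧ ∃ σ ∈ Set.Icc a b,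
    ∃ t ∈ Set.Icc (n : ℝ) (n + 1), lam < ‖PS P Y0 σ t‖ := by
  classical
  unfold badP
  rw [mem_filter]

lemma badP_empty {a b Y0 lam : ℝ} (hlam : 0 ≤ lam) (A B : ℕ) : badP a b ∅ Y0 lam A B = ∅ := by
  rw [Finset.eq_empty_iff_forall_notMem]
  intro n hn
  rw [mem_badP] at hn
  obtain ⟨-, σ, -, t, -, h⟩ := hn
  unfold PS FF at h
  rw [Finset.sum_empty, norm_zero] at h
  linarith

theorem block_count_raw {a b : ℝ} (ha : 0 ≤ a) (hab : a < b) (hab1 : b - a ≤ 1) {k M A B X : ℕ}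
    (hk : 1 ≤ k) (hAB : A ≤ B) {Y Y0 L lam : ℝ} (hY0 : 1 ≤ Y0) (hY : Y0 ≤ Y) (hL : 1 ≤ L)
    (hlam : 0 < lam) (hM : (2 * Y) ^ k ≤ M) (hM1 : 1 ≤ M) (hML : Real.log M ≤ L)
    (hR : 4 * (M : ℝ) * (1 + Real.log M) ≤ (B : ℝ) - A) :
    ((badP a b (blk X Y) Y0 lam A B).card : ℝ) * (lam ^ 2) ^ k ≤
      24 * L ^ 4 * ((B : ℝ) - A) *
        (k * (4 * Real.log (2 * Y) * (Y / Y0) ^ (1 - 2 * a) / Y0)) ^ k := by
  classical
  have hP : ∀ p ∈ blk X Y, p.Prime := fun p hp => (mem_blk.1 hp).2.1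
  have hPY : ∀ p ∈ blk X Y, Y0 ≤ p := fun p hp => le_trans hY (mem_blk.1 hp).2.2.1.le
  have hMp : ∀ m ∈ prods k (blk X Y), m ≤ M := by
    intro m hm
    unfold prods at hm
    rw [mem_image] at hm
    obtain ⟨f, hf, rfl⟩ := hm
    rw [Fintype.mem_piFinset] at hf
    have h1 : ((∏ i, f i : ℕ) : ℝ) ≤ (2 * Y) ^ k := by
      rw [Nat.cast_prod]
      calc ∏ i, ((f i : ℕ) : ℝ) ≤ ∏ _i : Fin k, (2 * Y) := by
            apply Finset.prod_le_prod
            · intro i _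
              positivity
            · intro i _
              exact (mem_blk.1 (hf i)).2.2.2
        _ = (2 * Y) ^ k := by rw [Finset.prod_const, Finset.card_univ, Fintype.card_fin]
    exact_mod_cast le_trans h1 hM
  have hBA : (0 : ℝ) ≤ (B : ℝ) - A := by
    have : (A : ℝ) ≤ B := by exact_mod_cast hAB
    linarith
  set S2 : ℝ := ∑ p ∈ blk X Y, (Real.log p / Y0 * Real.exp (a * (Real.log Y0 - Real.log p))) ^ 2 with hS2
  set Bc : ℝ := 4 * Real.log (2 * Y) * (Y / Y0) ^ (1 - 2 * a) / Y0 with hBc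
  have hS2B : S2 ≤ Bc := block_coeff ha hY0 hY _ (fun p hp => (mem_blk.1 hp).2)
  have hS20 : 0 ≤ S2 := Finset.sum_nonneg fun _ _ => by positivity
  have hfac : (k.factorial : ℝ) * S2 ^ k ≤ (k * Bc) ^ k := by
    rw [mul_pow]
    apply mul_le_mul _ (pow_le_pow_left₀ hS20 hS2B k) (by positivity) (by positivity)
    exact_mod_cast Nat.factorial_le_pow k
  have hcount := count_le (fun σ t => PS (blk X Y) Y0 σ t ^ k) (a := a) (b := b)
    (Sb := 24 * L ^ 4 * ((B : ℝ) - A) * (k * Bc) ^ k) (lam := lam ^ k) (A := A) (B := B) hab.le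
    (by positivity) (fun σ t hσ ht => by
      refine le_trans (moment_boxes ha hab hab1 hAB hY0 hL (blk X Y) hP hPY hMp hM1 hML hR σ t hσ ht) ?_
      exact mul_le_mul_of_nonneg_left hfac (by positivity))
  have hsub : badP a b (blk X Y) Y0 lam A B ⊆ (Ico A B).filter (fun n : ℕ => ∃ σ ∈ Set.Icc a b,
      ∃ t ∈ Set.Icc (n : ℝ) (n + 1), lam ^ k < ‖PS (blk X Y) Y0 σ t ^ k‖) := by
    intro n hn
    rw [mem_badP] at hn
    rw [mem_filter]
    obtain ⟨h1, σ, hσ, t, ht, h2⟩ := hn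
    refine ⟨h1, σ, hσ, t, ht, ?_⟩
    rw [norm_pow]
    exact pow_lt_pow_left₀ h2 hlam.le (by omega)
  have hcard := Finset.card_le_card hsub
  have e : (lam ^ 2) ^ k = (lam ^ k) ^ 2 := by rw [← pow_mul, ← pow_mul, mul_comm]
  rw [e]
  refine le_trans (mul_le_mul_of_nonneg_right (Nat.cast_le.2 hcard) (by positivity)) ?_
  convert hcount using 3

/-- block count with the choice of the exponent -/
theorem block_count {a b θ κ : ℝ} (ha : 1 / 2 < a) (hab : a < b) (hb : b ≤ 1) (hθ : 0 < θ)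
    (hθ1 : θ ≤ 1) (hκ : κ ≤ θ / 16) :
    ∀ᶠ T : ℕ in Filter.atTop, ∀ H : ℕ, (T : ℝ) ^ θ ≤ H → ∀ y : ℝ, Real.log T ≤ y →
      ∀ j X : ℕ, (X : ℝ) ≤ (T : ℝ) ^ κ →
      ((badP a b (blk X (2 ^ j * y)) y (((2 : ℝ) ^ (-((2 * a - 1) / 4))) ^ j) T (T + H)).card : ℝ) ≤
      24 * Real.log T ^ 4 * H * ((Real.log T / y) ^ (θ / 24 * Real.log T / Real.log y)
        + (T : ℝ) ^ (-(θ * (2 * a - 1) * Real.log 2 / 48))) := by
  have hlog : Filter.Tendsto (fun T : ℕ => Real.log (T : ℝ)) Filter.atTop Filter.atTop :=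
    Real.tendsto_log_atTop.comp tendsto_natCast_atTop_atTop
  filter_upwards [ev_log_pow_nat 16 1 (ρ := 3 * θ / 4) (by positivity), Filter.eventually_ge_atTop 3,
    hlog.eventually_ge_atTop (16 / θ), hlog.eventually_ge_atTop 3]
    with T hT1 hT2 hT3 hT5
  intro H hH y hy j X hX
  set ℓ : ℝ := Real.log T with hℓ
  have hℓ0 : 0 < ℓ := by linarith
  have hT0 : (0 : ℝ) < T := by exact_mod_cast (by omega : 0 < T)
  have hT1' : (1 : ℝ) ≤ T := by exact_mod_cast (by omega : 1 ≤ T)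
  have hy3 : 3 ≤ y := by linarith
  have hy0 : 0 < y := by linarith
  set Y : ℝ := 2 ^ j * y with hY
  have h2j : (1 : ℝ) ≤ 2 ^ j := one_le_pow₀ (by norm_num)
  have hYY : y ≤ Y := by
    rw [hY]
    nlinarith
  have hYpos : 0 < Y := by linarith
  set r : ℝ := (2 : ℝ) ^ (-((2 * a - 1) / 4)) with hr
  have hr0 : 0 < r := by positivity
  have hrj : 0 < r ^ j := by positivity
  have hH0 : (0 : ℝ) ≤ H := Nat.cast_nonneg H
  have hrhs : 0 ≤ 24 * ℓ ^ 4 * H * ((ℓ / y) ^ (θ / 24 * ℓ / Real.log y) + (T : ℝ) ^ (-(θ * (2 * a - 1) * Real.log 2 / 48))) := by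
    positivity
  by_cases hbig : (X : ℝ) ≤ Y
  · have hemp : blk X Y = ∅ := by
      rw [Finset.eq_empty_iff_forall_notMem]
      intro p hp
      rw [mem_blk, mem_Ioc] at hp
      have : (p : ℝ) ≤ X := by exact_mod_cast hp.1.2
      linarith [hp.2.2.1]
    rw [hemp, badP_empty hrj.le, card_empty]
    simpa using hrhs
  push Not at hbig
  have hl2 : 0 < Real.log 2 := Real.log_pos (by norm_num)
  have hl21 : Real.log 2 ≤ 1 := by have := Real.log_two_lt_d9; linarith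
  have hlogy : 1 ≤ Real.log y := by
    rw [Real.le_log_iff_exp_le hy0]
    have := Real.exp_one_lt_d9
    linarith
  -- log (2Y)
  set lg : ℝ := Real.log (2 * Y) with hlg
  have hlg0 : 0 < lg := Real.log_pos (by linarith)
  have hlgT : lg ≤ θ / 8 * ℓ := by
    have h1 : Real.log (2 * Y) ≤ Real.log (2 * (T : ℝ) ^ κ) :=
      Real.log_le_log (by positivity) (by linarith)
    have e0 : Real.log (2 * (T : ℝ) ^ κ) = Real.log 2 + κ * ℓ := by
      rw [Real.log_mul (by norm_num) (by positivity), Real.log_rpow hT0]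
    rw [e0] at h1
    have h3 : κ * ℓ ≤ θ / 16 * ℓ := mul_le_mul_of_nonneg_right hκ hℓ0.le
    have h4 : 1 ≤ θ / 16 * ℓ := by
      have : 16 / θ * (θ / 16) = 1 := by field_simp
      rw [← this, mul_comm]
      exact mul_le_mul_of_nonneg_left hT3 (by positivity)
    rw [hlg]
    linarith
  have hlgj : lg ≤ j + 2 * Real.log y := by
    rw [hlg, hY, Real.log_mul (by norm_num) (by positivity),
      Real.log_mul (by positivity) (by positivity), Real.log_pow]
    have h4 : (j : ℝ) * Real.log 2 ≤ j * 1 := mul_le_mul_of_nonneg_left hl21 (Nat.cast_nonneg j)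
    linarith
  set x : ℝ := θ * ℓ / (4 * lg) with hx
  have hx2 : 2 ≤ x := by
    rw [hx, le_div_iff₀ (by positivity)]
    linarith
  set k : ℕ := ⌊x⌋₊ with hk
  have hkx : (k : ℝ) ≤ x := Nat.floor_le (by linarith)
  have hkx2 : x / 2 ≤ k := by
    have := Nat.lt_floor_add_one x
    rw [← hk] at this
    linarith
  have hk1 : 1 ≤ k := by
    have : (1 : ℝ) ≤ k := by linarith
    exact_mod_cast this
  have hklg : (k : ℝ) * lg ≤ θ / 4 * ℓ := by
    have h1 : (k : ℝ) * lg ≤ x * lg := mul_le_mul_of_nonneg_right hkx hlg0.le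
    have h2 : x * lg = θ / 4 * ℓ := by rw [hx]; field_simp
    linarith
  have hk2 : θ * ℓ / (8 * lg) ≤ k := by
    have : θ * ℓ / (8 * lg) = x / 2 := by rw [hx]; field_simp; norm_num
    rw [this]
    exact hkx2
  -- we use an integer upper bound for (2Y)^k
  have h2Yk : (2 * Y) ^ k ≤ (T : ℝ) ^ (θ / 4) := by
    have : (2 * Y) ^ k = Real.exp (k * lg) := by
      rw [hlg, ← Real.log_pow, Real.exp_log (by positivity)]
    rw [this, Real.rpow_def_of_pos hT0]
    apply Real.exp_le_exp.2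
    linarith
  set M' : ℕ := ⌈(T : ℝ) ^ (θ / 4)⌉₊ with hM'
  have hM'1 : (T : ℝ) ^ (θ / 4) ≤ M' := Nat.le_ceil _
  have hTθ1 : (1 : ℝ) ≤ (T : ℝ) ^ (θ / 4) := Real.one_le_rpow hT1' (by positivity)
  have hM'2 : (M' : ℝ) ≤ 2 * (T : ℝ) ^ (θ / 4) := by
    have := Nat.ceil_lt_add_one (a := (T : ℝ) ^ (θ / 4)) (by positivity)
    rw [← hM'] at this
    linarith
  have hM'3 : 1 ≤ M' := by
    have : (1 : ℝ) ≤ M' := by linarith
    exact_mod_cast this
  have hM'T : Real.log M' ≤ ℓ := by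
    apply Real.log_le_log (by exact_mod_cast hM'3)
    have h1 : (T : ℝ) ^ (θ / 4) ≤ (T : ℝ) ^ (1 / 4 : ℝ) :=
      Real.rpow_le_rpow_of_exponent_le hT1' (by linarith)
    have h2 : (M' : ℝ) < (T : ℝ) ^ (θ / 4) + 1 :=
      Nat.ceil_lt_add_one (a := (T : ℝ) ^ (θ / 4)) (by positivity)
    have h3 : (T : ℝ) ^ (1 / 4 : ℝ) + 1 ≤ T := by
      have h4 : (T : ℝ) = ((T : ℝ) ^ (1 / 4 : ℝ)) ^ 4 := by
        rw [← Real.rpow_natCast, ← Real.rpow_mul hT0.le]
        norm_num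
      have h5 : (1 : ℝ) + 3 / 4 ≤ (T : ℝ) ^ (1 / 4 : ℝ) := by
        rw [Real.rpow_def_of_pos hT0]
        have := Real.add_one_le_exp (Real.log T * (1 / 4))
        have h6 : (3 : ℝ) ≤ Real.log T := hT5
        linarith
      set z := (T : ℝ) ^ (1 / 4 : ℝ) with hz
      rw [h4]
      have h7 : 1 ≤ z ^ 2 := one_le_pow₀ (by linarith)
      nlinarith [mul_nonneg (by linarith : (0 : ℝ) ≤ z) (by linarith : (0 : ℝ) ≤ z - 1)]
    linarith
  have hℓ1 : 1 ≤ ℓ := by linarith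
  have hTθ : 4 * (M' : ℝ) * (1 + Real.log M') ≤ (((T + H : ℕ) : ℝ) - T) := by
    have e : (((T + H : ℕ) : ℝ) - T) = H := by push_cast; ring
    rw [e]
    refine le_trans ?_ hH
    have h1 : 4 * (M' : ℝ) * (1 + Real.log M') ≤ 4 * (2 * (T : ℝ) ^ (θ / 4)) * (1 + ℓ) := by
      apply mul_le_mul _ (by linarith) _ (by positivity)
      · linarith
      · have : 0 ≤ Real.log (M' : ℝ) := Real.log_nonneg (by exact_mod_cast hM'3)
        linarith
    refine le_trans h1 ?_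
    rw [pow_one] at hT1
    have h3 : (T : ℝ) ^ θ = (T : ℝ) ^ (θ / 4) * (T : ℝ) ^ (3 * θ / 4) := by
      rw [← Real.rpow_add hT0]
      congr 1
      ring
    rw [h3]
    calc 4 * (2 * (T : ℝ) ^ (θ / 4)) * (1 + ℓ) = (T : ℝ) ^ (θ / 4) * (8 * (1 + ℓ)) := by ring
      _ ≤ (T : ℝ) ^ (θ / 4) * (T : ℝ) ^ (3 * θ / 4) := by
          apply mul_le_mul_of_nonneg_left _ (by positivity)
          linarith
  have hraw := block_count_raw (X := X) (by linarith : (0 : ℝ) ≤ a) hab (by linarith) (k := k) (M := M')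
    (A := T) (B := T + H) hk1 (by omega) (Y := Y) (Y0 := y) (L := ℓ) (lam := r ^ j) (by linarith) hYY hℓ1
    hrj (le_trans h2Yk hM'1) hM'3 hM'T hTθ
  have e1 : (((T + H : ℕ) : ℝ) - T) = H := by push_cast; ring
  rw [e1] at hraw
  set Bc : ℝ := 4 * Real.log (2 * Y) * (Y / y) ^ (1 - 2 * a) / y with hBc
  set cnt : ℝ := ((badP a b (blk X Y) y (r ^ j) T (T + H)).card : ℝ) with hcnt
  have hYr : (Y / y) ^ (1 - 2 * a) = (r ^ j) ^ 4 := by
    have h1 : Y / y = 2 ^ j := by rw [hY]; field_simp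
    rw [h1, hr, ← Real.rpow_natCast, ← Real.rpow_natCast, ← Real.rpow_natCast,
      ← Real.rpow_mul (by positivity), ← Real.rpow_mul (by positivity), ← Real.rpow_mul (by positivity)]
    congr 1
    push_cast
    ring
  have hkB : (k : ℝ) * Bc ≤ (r ^ j) ^ 2 * (ℓ / y * (r ^ j) ^ 2) := by
    rw [hBc, hYr, ← hlg]
    have h1 : (k : ℝ) * (4 * lg * (r ^ j) ^ 4 / y) = (k * lg) * (4 * (r ^ j) ^ 4 / y) := by ring
    rw [h1]
    calc (k * lg) * (4 * (r ^ j) ^ 4 / y) ≤ (θ / 4 * ℓ) * (4 * (r ^ j) ^ 4 / y) :=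
          mul_le_mul_of_nonneg_right hklg (by positivity)
      _ = θ * ((r ^ j) ^ 2 * (ℓ / y * (r ^ j) ^ 2)) := by ring
      _ ≤ 1 * ((r ^ j) ^ 2 * (ℓ / y * (r ^ j) ^ 2)) := mul_le_mul_of_nonneg_right hθ1 (by positivity)
      _ = (r ^ j) ^ 2 * (ℓ / y * (r ^ j) ^ 2) := one_mul _
  have hBc0 : 0 ≤ Bc := by
    rw [hBc, ← hlg]
    positivity
  have hcnt1 : cnt ≤ 24 * ℓ ^ 4 * H * (ℓ / y * (r ^ j) ^ 2) ^ k := by
    have h1 : cnt * ((r ^ j) ^ 2) ^ k ≤ (24 * ℓ ^ 4 * H * (ℓ / y * (r ^ j) ^ 2) ^ k) * ((r ^ j) ^ 2) ^ k := by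
      refine le_trans hraw ?_
      calc 24 * ℓ ^ 4 * H * (k * Bc) ^ k
          ≤ 24 * ℓ ^ 4 * H * ((r ^ j) ^ 2 * (ℓ / y * (r ^ j) ^ 2)) ^ k := by
            apply mul_le_mul_of_nonneg_left _ (by positivity)
            exact pow_le_pow_left₀ (mul_nonneg (Nat.cast_nonneg k) hBc0) hkB k
        _ = _ := by rw [mul_pow]; ring
    exact le_of_mul_le_mul_right h1 (by positivity)
  refine le_trans hcnt1 ?_
  apply mul_le_mul_of_nonneg_left _ (by positivity)
  -- the exponential bound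
  have hℓy : 0 < ℓ / y := by positivity
  have hlogr : Real.log r = -((2 * a - 1) / 4) * Real.log 2 := by
    rw [hr, Real.log_rpow (by norm_num)]
  have hexp : (ℓ / y * (r ^ j) ^ 2) ^ k =
      Real.exp (-(k * (j * ((2 * a - 1) / 2) * Real.log 2 + -Real.log (ℓ / y)))) := by
    rw [← Real.exp_log (show 0 < (ℓ / y * (r ^ j) ^ 2) ^ k by positivity)]
    congr 1
    rw [Real.log_pow, Real.log_mul hℓy.ne' (by positivity), Real.log_pow, Real.log_pow, hlogr]
    push_cast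
    ring
  rw [hexp]
  have hlQ : 0 ≤ -Real.log (ℓ / y) := by
    have : Real.log (ℓ / y) ≤ 0 := Real.log_nonpos hℓy.le (by rw [div_le_one hy0]; exact hy)
    linarith
  have hk0 : (0 : ℝ) ≤ k := Nat.cast_nonneg k
  have hj0 : (0 : ℝ) ≤ j := Nat.cast_nonneg j
  have h2a : 0 < 2 * a - 1 := by linarith
  have hly0 : 0 < Real.log y := by linarith
  have hA1 : 0 ≤ (j : ℝ) * ((2 * a - 1) / 2) * Real.log 2 := by positivity
  rcases le_or_gt (j : ℝ) (Real.log y) with hj | hj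
  · refine le_trans ?_ (le_add_of_nonneg_right (by positivity))
    rw [Real.rpow_def_of_pos hℓy]
    apply Real.exp_le_exp.2
    have h1 : lg ≤ 3 * Real.log y := by linarith
    have h2 : θ * ℓ / (24 * Real.log y) ≤ k := by
      refine le_trans ?_ hk2
      apply div_le_div_of_nonneg_left (by positivity) (by positivity)
      linarith
    have h3 : (θ * ℓ / (24 * Real.log y)) * (-Real.log (ℓ / y)) ≤
        k * (j * ((2 * a - 1) / 2) * Real.log 2 + -Real.log (ℓ / y)) :=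
      mul_le_mul h2 (by linarith) hlQ hk0
    have h4 : (θ * ℓ / (24 * Real.log y)) * (-Real.log (ℓ / y)) =
        -(Real.log (ℓ / y) * (θ / 24 * ℓ / Real.log y)) := by
      field_simp
    linarith
  · refine le_trans ?_ (le_add_of_nonneg_left (by positivity))
    have hjp : (0 : ℝ) < j := by linarith
    rw [Real.rpow_def_of_pos hT0]
    apply Real.exp_le_exp.2
    have h1 : lg ≤ 3 * j := by linarith
    have h2 : θ * ℓ / (24 * j) ≤ k := by
      refine le_trans ?_ hk2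
      apply div_le_div_of_nonneg_left (by positivity) (by positivity)
      linarith
    have h3 : (θ * ℓ / (24 * j)) * (j * ((2 * a - 1) / 2) * Real.log 2) ≤
        k * (j * ((2 * a - 1) / 2) * Real.log 2 + -Real.log (ℓ / y)) :=
      mul_le_mul h2 (by linarith) (by positivity) hk0
    have h4 : (θ * ℓ / (24 * j)) * (j * ((2 * a - 1) / 2) * Real.log 2) =
        Real.log T * (θ * (2 * a - 1) * Real.log 2 / 48) := by
      rw [← hℓ]
      field_simp
      norm_num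
    linarith

end Pool.Agent.Work.MP_e9b29d_nt
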