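import Mathlib
import Pool.Agent.Work.MP_71a505_nt.Tau

/-!
Dirichlet coefficients of `Z' + D Z` and `Z M - 1`.
-/

namespace Pool.Agent.Work.MP_e9b29d_nt

open Complex Finset

/-- truncated divisor sum -/
noncomputable def trunc (f : ℕ → ℝ) (X N m : ℕ) : ℝ :=
  ∑ d ∈ m.divisors with (d ≤ X ∧ m / d ≤ N), f d

lemma prod_poly (f : ℕ → ℝ) {X N P : ℕ} (hP : X * N ≤ P) (s : ℂ) :
    (∑ d ∈ Ioc 0 X, (f d : ℂ) * (d : ℂ) ^ (-s)) * (∑ n ∈ Ioc 0 N, (n : ℂ) ^ (-s)) =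
      ∑ m ∈ Ioc 0 P, (trunc f X N m : ℂ) * (m : ℂ) ^ (-s) := by
  classical
  rw [Finset.sum_mul_sum]
  rw [← Finset.sum_product']
  have e1 : ∑ m ∈ Ioc 0 P, (trunc f X N m : ℂ) * (m : ℂ) ^ (-s) =
      ∑ m ∈ Ioc 0 P, ∑ d ∈ m.divisors with (d ≤ X ∧ m / d ≤ N), (f d : ℂ) * (m : ℂ) ^ (-s) := by
    apply Finset.sum_congr rfl
    intro m _
    unfold trunc
    push_cast
    rw [Finset.sum_mul]
  rw [e1, Finset.sum_sigma']
  apply Finset.sum_bij' (fun p _ => (⟨p.1 * p.2, p.1⟩ : (_ : ℕ) × ℕ))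
    (fun q _ => (q.2, q.1 / q.2))
  · intro p hp
    simp only [mem_product, mem_Ioc] at hp
    simp only [mem_sigma, mem_Ioc, mem_filter, Nat.mem_divisors]
    refine ⟨⟨Nat.mul_pos hp.1.1 hp.2.1, ?_⟩, ⟨Nat.dvd_mul_right _ _, ?_⟩, hp.1.2, ?_⟩
    · exact le_trans (Nat.mul_le_mul hp.1.2 hp.2.2) hP
    · exact (Nat.mul_pos hp.1.1 hp.2.1).ne'
    · rw [Nat.mul_div_cancel_left _ hp.1.1]
      exact hp.2.2
  · intro q hq
    simp only [mem_sigma, mem_Ioc, mem_filter, Nat.mem_divisors] at hq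
    simp only [mem_product, mem_Ioc]
    have hq0 : 0 < q.2 := Nat.pos_of_dvd_of_pos hq.2.1.1 hq.1.1
    refine ⟨⟨hq0, hq.2.2.1⟩, Nat.div_pos (Nat.le_of_dvd hq.1.1 hq.2.1.1) hq0, hq.2.2.2⟩
  · intro p hp
    simp only [mem_product, mem_Ioc] at hp
    simp only
    rw [Nat.mul_div_cancel_left _ hp.1.1]
  · intro q hq
    simp only [mem_sigma, mem_Ioc, mem_filter, Nat.mem_divisors] at hq
    simp only
    rw [Nat.mul_div_cancel' hq.2.1.1]
  · intro p hp
    simp only [mem_product, mem_Ioc] at hp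
    simp only
    rw [Nat.cast_mul, Complex.natCast_mul_natCast_cpow]
    ring

/-- coefficients of `Z' + D Z` -/
noncomputable def c1 (X N m : ℕ) : ℝ :=
  trunc (fun d => ArithmeticFunction.vonMangoldt d) X N m - if m ≤ N then Real.log m else 0

/-- coefficients of `Z M - 1` -/
noncomputable def c2 (W N m : ℕ) : ℝ :=
  trunc (fun d => (ArithmeticFunction.moebius d : ℝ)) W N m - if m = 1 then 1 else 0

lemma trunc_full (f : ℕ → ℝ) {X N m : ℕ} (hX : m ≤ X) (hN : m ≤ N) :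
    trunc f X N m = ∑ d ∈ m.divisors, f d := by
  unfold trunc
  rw [Finset.filter_true_of_mem]
  intro d hd
  have h1 := Nat.divisor_le hd
  exact ⟨by omega, le_trans (Nat.div_le_self m d) hN⟩

lemma c1_zero {X N m : ℕ} (hX : m ≤ X) (hN : m ≤ N) : c1 X N m = 0 := by
  unfold c1
  rw [trunc_full _ hX hN, if_pos hN, ArithmeticFunction.vonMangoldt_sum, sub_self]

lemma abs_c1_le (X N : ℕ) {m : ℕ} (_hm : 1 ≤ m) : |c1 X N m| ≤ Real.log m := by
  have h0 : 0 ≤ trunc (fun d => ArithmeticFunction.vonMangoldt d) X N m := by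
    unfold trunc
    exact Finset.sum_nonneg fun d _ => ArithmeticFunction.vonMangoldt_nonneg
  have h1 : trunc (fun d => ArithmeticFunction.vonMangoldt d) X N m ≤ Real.log m := by
    rw [← ArithmeticFunction.vonMangoldt_sum]
    unfold trunc
    apply Finset.sum_le_sum_of_subset_of_nonneg (Finset.filter_subset _ _)
    intro d _ _
    exact ArithmeticFunction.vonMangoldt_nonneg
  have h2 : 0 ≤ Real.log (m : ℝ) := Real.log_natCast_nonneg m
  unfold c1
  split_ifs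
  · rw [abs_le]; constructor <;> linarith
  · rw [abs_le]; constructor <;> linarith

lemma c2_zero {W N m : ℕ} (hW : m ≤ W) (hN : m ≤ N) : c2 W N m = 0 := by
  unfold c2
  rw [trunc_full _ hW hN]
  have h1 : (∑ d ∈ m.divisors, (ArithmeticFunction.moebius d : ℝ)) =
      ((∑ d ∈ m.divisors, ArithmeticFunction.moebius d : ℤ) : ℝ) := by push_cast; rfl
  have h2 : (∑ d ∈ m.divisors, ArithmeticFunction.moebius d : ℤ) = if m = 1 then 1 else 0 := by
    rw [← ArithmeticFunction.coe_mul_zeta_apply, ArithmeticFunction.moebius_mul_coe_zeta,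
      ArithmeticFunction.one_apply]
  rw [h1, h2]
  split_ifs <;> simp

lemma abs_c2_le (W N : ℕ) {m : ℕ} (hm : 1 ≤ m) : |c2 W N m| ≤ 2 * (m.divisors.card : ℝ) := by
  have h1 : |trunc (fun d => (ArithmeticFunction.moebius d : ℝ)) W N m| ≤ (m.divisors.card : ℝ) := by
    unfold trunc
    refine le_trans (Finset.abs_sum_le_sum_abs _ _) ?_
    calc ∑ d ∈ m.divisors with (d ≤ W ∧ m / d ≤ N), |(ArithmeticFunction.moebius d : ℝ)|
        ≤ ∑ d ∈ m.divisors with (d ≤ W ∧ m / d ≤ N), (1 : ℝ) := by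
          apply Finset.sum_le_sum
          intro d _
          exact_mod_cast ArithmeticFunction.abs_moebius_le_one
      _ ≤ ∑ d ∈ m.divisors, (1 : ℝ) := by
          apply Finset.sum_le_sum_of_subset_of_nonneg (Finset.filter_subset _ _)
          intro d _ _
          norm_num
      _ = (m.divisors.card : ℝ) := by simp
  have h2 : (1 : ℝ) ≤ (m.divisors.card : ℝ) := by
    have : 0 < m.divisors.card := Finset.card_pos.2 ⟨1, by simp; omega⟩
    exact_mod_cast this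
  unfold c2
  split_ifs
  · refine le_trans (abs_sub _ _) ?_
    rw [abs_one]
    linarith
  · rw [sub_zero]
    linarith

/-- the partial sum of zeta -/
noncomputable def ZZ (N : ℕ) (s : ℂ) : ℂ := ∑ n ∈ Ioc 0 N, (n : ℂ) ^ (-s)

/-- its derivative -/
noncomputable def ZD (N : ℕ) (s : ℂ) : ℂ := ∑ n ∈ Ioc 0 N, (-(Real.log n : ℂ)) * (n : ℂ) ^ (-s)

/-- truncated Dirichlet series of von Mangoldt's function -/
noncomputable def DD (X : ℕ) (s : ℂ) : ℂ :=
  ∑ n ∈ Ioc 0 X, ((ArithmeticFunction.vonMangoldt n : ℝ) : ℂ) * (n : ℂ) ^ (-s)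

/-- mollifier -/
noncomputable def MM (W : ℕ) (s : ℂ) : ℂ :=
  ∑ n ∈ Ioc 0 W, (((ArithmeticFunction.moebius n : ℝ)) : ℂ) * (n : ℂ) ^ (-s)

lemma hasDerivAt_ZZ (N : ℕ) (s : ℂ) : HasDerivAt (ZZ N) (ZD N s) s := by
  unfold ZZ ZD
  apply HasDerivAt.fun_sum
  intro n hn
  have hn0 : (n : ℂ) ≠ 0 := by
    have := (mem_Ioc.1 hn).1
    exact_mod_cast this.ne'
  have h1 := (hasDerivAt_neg s).const_cpow (c := (n : ℂ)) (Or.inl hn0)
  refine h1.congr_deriv ?_
  rw [← Complex.natCast_log]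
  ring

lemma c1_poly {X N P : ℕ} (hX : 1 ≤ X) (hP : X * N ≤ P) (s : ℂ) :
    ZD N s + DD X s * ZZ N s = ∑ m ∈ Ioc 0 P, ((c1 X N m : ℝ) : ℂ) * (m : ℂ) ^ (-s) := by
  have hNP : N ≤ P := le_trans (Nat.le_mul_of_pos_left N hX) hP
  have h1 : DD X s * ZZ N s = _ := prod_poly (fun d => ArithmeticFunction.vonMangoldt d) hP s
  rw [h1]
  have h2 : ZD N s = ∑ m ∈ Ioc 0 P, (-((if m ≤ N then Real.log m else 0 : ℝ) : ℂ)) * (m : ℂ) ^ (-s) := by
    unfold ZD
    have hsub : Ioc 0 N ⊆ Ioc 0 P := Ioc_subset_Ioc_right hNP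
    rw [← Finset.sum_subset hsub]
    · apply Finset.sum_congr rfl
      intro n hn
      rw [if_pos (mem_Ioc.1 hn).2]
    · intro n hn hn'
      have : ¬ n ≤ N := by
        intro h
        exact hn' (mem_Ioc.2 ⟨(mem_Ioc.1 hn).1, h⟩)
      rw [if_neg this]
      simp
  rw [h2, ← Finset.sum_add_distrib]
  apply Finset.sum_congr rfl
  intro m _
  unfold c1
  push_cast
  ring

lemma c2_poly {W N P : ℕ} (hW : 1 ≤ W) (hN : 1 ≤ N) (hP : W * N ≤ P) (s : ℂ) :
    MM W s * ZZ N s - 1 = ∑ m ∈ Ioc 0 P, ((c2 W N m : ℝ) : ℂ) * (m : ℂ) ^ (-s) := by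
  have h1P : 1 ≤ P := le_trans (Nat.mul_pos hW hN) hP
  have h1 : MM W s * ZZ N s = _ := prod_poly (fun d => (ArithmeticFunction.moebius d : ℝ)) hP s
  rw [h1]
  have h2 : (1 : ℂ) = ∑ m ∈ Ioc 0 P, (((if m = 1 then 1 else 0 : ℝ) : ℂ)) * (m : ℂ) ^ (-s) := by
    rw [Finset.sum_eq_single 1]
    · simp
    · intro m _ hm
      rw [if_neg hm]
      simp
    · intro h
      exact absurd (mem_Ioc.2 ⟨one_pos, h1P⟩) h
  conv_lhs => rw [h2]
  rw [← Finset.sum_sub_distrib]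
  apply Finset.sum_congr rfl
  intro m _
  unfold c2
  push_cast
  ring

lemma norm_cpow_nat_le_one {n : ℕ} (hn : 1 ≤ n) {σ t : ℝ} (hσ : 0 ≤ σ) :
    ‖(n : ℂ) ^ (-((σ : ℂ) + t * I))‖ ≤ 1 := by
  have hn0 : (0 : ℝ) < n := by exact_mod_cast hn
  have : (n : ℂ) = ((n : ℝ) : ℂ) := by simp
  rw [this, Complex.norm_cpow_eq_rpow_re_of_pos hn0]
  have e : (-((σ : ℂ) + t * I)).re = -σ := by simp
  rw [e]
  apply Real.rpow_le_one_of_one_le_of_nonpos (by exact_mod_cast hn) (by linarith)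

lemma norm_MM_le (W : ℕ) {σ t : ℝ} (hσ : 0 ≤ σ) : ‖MM W ((σ : ℂ) + t * I)‖ ≤ W := by
  unfold MM
  refine le_trans (norm_sum_le _ _) ?_
  calc ∑ n ∈ Ioc 0 W, ‖(((ArithmeticFunction.moebius n : ℝ)) : ℂ) * (n : ℂ) ^ (-((σ : ℂ) + t * I))‖
      ≤ ∑ n ∈ Ioc 0 W, (1 : ℝ) := by
        apply Finset.sum_le_sum
        intro n hn
        rw [norm_mul, norm_real, Real.norm_eq_abs]
        have h1 : |(ArithmeticFunction.moebius n : ℝ)| ≤ 1 := by
          exact_mod_cast ArithmeticFunction.abs_moebius_le_one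
        have h2 := norm_cpow_nat_le_one (mem_Ioc.1 hn).1 (t := t) hσ
        calc _ ≤ (1 : ℝ) * 1 := mul_le_mul h1 h2 (norm_nonneg _) (by norm_num)
          _ = 1 := by norm_num
    _ = W := by simp

lemma norm_DD_le (X : ℕ) {σ t : ℝ} (hσ : 0 ≤ σ) : ‖DD X ((σ : ℂ) + t * I)‖ ≤ (X : ℝ) ^ 2 := by
  unfold DD
  refine le_trans (norm_sum_le _ _) ?_
  calc ∑ n ∈ Ioc 0 X, ‖((ArithmeticFunction.vonMangoldt n : ℝ) : ℂ) * (n : ℂ) ^ (-((σ : ℂ) + t * I))‖
      ≤ ∑ n ∈ Ioc 0 X, (X : ℝ) := by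
        apply Finset.sum_le_sum
        intro n hn
        rw [norm_mul, norm_real, Real.norm_eq_abs, abs_of_nonneg ArithmeticFunction.vonMangoldt_nonneg]
        have hn1 := mem_Ioc.1 hn
        have h1 : ArithmeticFunction.vonMangoldt n ≤ X := by
          refine le_trans ArithmeticFunction.vonMangoldt_le_log ?_
          have hn0 : (0 : ℝ) < n := by exact_mod_cast hn1.1
          have := Real.log_le_sub_one_of_pos hn0
          have h3 : (n : ℝ) ≤ X := by exact_mod_cast hn1.2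
          linarith
        have h2 := norm_cpow_nat_le_one hn1.1 (t := t) hσ
        calc _ ≤ (X : ℝ) * 1 := mul_le_mul h1 h2 (norm_nonneg _) (by positivity)
          _ = X := by ring
    _ = (X : ℝ) ^ 2 := by
        simp
        ring

end Pool.Agent.Work.MP_e9b29d_nt
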