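import Mathlib
import Pool.Agent.Work.MP_852da8_nt.ZetaApprox

/-!
Approximation of the zeta function by its partial sum of length `N`, for `N / 8 ≤ Im s ≤ N`.
-/

namespace Pool.Agent.Work.MP_e9b29d_nt

open Complex Finset
open Pool.Agent.Work.MP_852da8_nt (defect)

/-- The telescoping factor. -/
noncomputable def hh (θ : ℝ) : ℂ := (1 - cexp (θ * I))⁻¹ + (θ * I)⁻¹

lemma one_sub_cexp_ne {θ : ℝ} (h0 : 0 < θ) (h1 : θ ≤ 1) : 1 - cexp (θ * I) ≠ 0 := by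
  intro h
  have h2 := congrArg Complex.im h
  rw [Complex.sub_im, Complex.exp_ofReal_mul_I_im] at h2
  simp only [one_im, zero_sub, zero_im, neg_eq_zero] at h2
  have := Real.sin_pos_of_pos_of_le_one h0 h1
  linarith

lemma sq_one_sub_cexp (θ : ℝ) :
    (1 - cexp (θ * I)) ^ 2 = -(4 * (Real.sin (θ / 2) : ℂ) ^ 2 * cexp (θ * I)) := by
  have e1 : cexp (θ * I) = cexp ((θ / 2 : ℂ) * I) * cexp ((θ / 2 : ℂ) * I) := by
    rw [← Complex.exp_add]
    congr 1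
    ring
  have e2 : cexp (-(θ / 2 : ℂ) * I) * cexp ((θ / 2 : ℂ) * I) = 1 := by
    rw [← Complex.exp_add, neg_mul, neg_add_cancel, Complex.exp_zero]
  have e3 : (Real.sin (θ / 2) : ℂ) = (cexp (-(θ / 2 : ℂ) * I) - cexp ((θ / 2 : ℂ) * I)) * I / 2 := by
    rw [Complex.ofReal_sin, Complex.sin]
    push_cast
    ring
  rw [e1, e3]
  set w := cexp ((θ / 2 : ℂ) * I)
  set z := cexp (-(θ / 2 : ℂ) * I)
  have hI : I ^ 2 = -1 := Complex.I_sq
  have : -(4 * ((z - w) * I / 2) ^ 2 * (w * w)) = (z * w - w * w) ^ 2 * (-(I ^ 2)) := by ring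
  rw [this, e2, hI]
  ring

lemma hasDerivAt_hh {θ : ℝ} (h0 : 0 < θ) (h1 : θ ≤ 1) :
    HasDerivAt hh (I * cexp (θ * I) / (1 - cexp (θ * I)) ^ 2 + I / (θ : ℂ) ^ 2) θ := by
  have hne := one_sub_cexp_ne h0 h1
  have hθ : (θ : ℂ) * I ≠ 0 := mul_ne_zero (by exact_mod_cast h0.ne') I_ne_zero
  have h2 : HasDerivAt (fun x : ℝ => (x : ℂ) * I) (1 * I) θ :=
    (Complex.ofRealCLM.hasDerivAt (x := θ)).mul_const I
  have h3 : HasDerivAt (fun x : ℝ => 1 - cexp ((x : ℂ) * I)) (-(cexp (θ * I) * (1 * I))) θ :=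
    (h2.cexp).const_sub 1
  have h4 := h3.inv hne
  have h5 := h2.inv hθ
  have h6 := h4.add h5
  refine h6.congr_deriv ?_
  have hθ' : (θ : ℂ) ≠ 0 := by exact_mod_cast h0.ne'
  have e : -(1 * I) / ((θ : ℂ) * I) ^ 2 = I / (θ : ℂ) ^ 2 := by
    rw [mul_pow, I_sq]
    field_simp
  rw [e]
  ring

lemma norm_deriv_hh {θ : ℝ} (h0 : 0 < θ) (h1 : θ ≤ 1) :
    ‖I * cexp (θ * I) / (1 - cexp (θ * I)) ^ 2 + I / (θ : ℂ) ^ 2‖ ≤ 1 := by
  set x : ℝ := θ / 2 with hx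
  have hx0 : 0 < x := by rw [hx]; linarith
  have hx1 : x ≤ 1 / 2 := by rw [hx]; linarith
  have hs1 : x - x ^ 3 / 4 < Real.sin x := by
    have h := Real.sin_gt_sub_cube hx0
    have h' : 0 < x ^ 3 := by positivity
    linarith
  have hs2 : Real.sin x < x := Real.sin_lt hx0
  have hx2 : x ^ 2 ≤ 1 / 4 := by nlinarith
  have hs3 : 15 / 16 * x ≤ Real.sin x := by nlinarith
  have hs0 : 0 < Real.sin x := by linarith
  have e1 : I * cexp (θ * I) / (1 - cexp (θ * I)) ^ 2 + I / (θ : ℂ) ^ 2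
      = (((1 / θ ^ 2 - 1 / (4 * Real.sin x ^ 2) : ℝ)) : ℂ) * I := by
    rw [sq_one_sub_cexp, ← hx]
    have : cexp (θ * I) ≠ 0 := Complex.exp_ne_zero _
    have h3 : (Real.sin x : ℂ) ≠ 0 := by exact_mod_cast hs0.ne'
    have h4 : (θ : ℂ) ≠ 0 := by exact_mod_cast h0.ne'
    push_cast
    field_simp
    ring
  rw [e1, norm_mul, norm_I, mul_one, norm_real, Real.norm_eq_abs]
  have hθx : θ = 2 * x := by rw [hx]; ring
  rw [hθx]
  have e2 : 1 / (2 * x) ^ 2 - 1 / (4 * Real.sin x ^ 2)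
      = -((x ^ 2 - Real.sin x ^ 2) / (4 * x ^ 2 * Real.sin x ^ 2)) := by
    field_simp
    ring
  rw [e2, abs_neg, abs_of_nonneg]
  · rw [div_le_one (by positivity)]
    have h5 : x ^ 2 - Real.sin x ^ 2 ≤ x ^ 4 / 2 := by
      have : x - Real.sin x ≤ x ^ 3 / 4 := by linarith
      have h6 : x + Real.sin x ≤ 2 * x := by linarith
      calc x ^ 2 - Real.sin x ^ 2 = (x - Real.sin x) * (x + Real.sin x) := by ring
        _ ≤ (x ^ 3 / 4) * (2 * x) :=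
            mul_le_mul this h6 (by linarith) (by positivity)
        _ = x ^ 4 / 2 := by ring
    have h7 : (15 / 16 * x) ^ 2 ≤ Real.sin x ^ 2 := by
      apply pow_le_pow_left₀ (by positivity) hs3
    have h8 : 4 * x ^ 2 * (15 / 16 * x) ^ 2 ≤ 4 * x ^ 2 * Real.sin x ^ 2 :=
      mul_le_mul_of_nonneg_left h7 (by positivity)
    have h9 : 0 ≤ x ^ 4 := by positivity
    nlinarith
  · apply div_nonneg _ (by positivity)
    have : Real.sin x ^ 2 ≤ x ^ 2 := pow_le_pow_left₀ hs0.le hs2.le 2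
    linarith

lemma hh_lip {x y : ℝ} (hx0 : 0 < x) (hx1 : x ≤ 1) (hy0 : 0 < y) (hy1 : y ≤ 1) :
    ‖hh x - hh y‖ ≤ |x - y| := by
  have key := Convex.norm_image_sub_le_of_norm_hasDerivWithin_le (𝕜 := ℝ)
    (f := hh) (f' := fun θ : ℝ => I * cexp (θ * I) / (1 - cexp (θ * I)) ^ 2 + I / (θ : ℂ) ^ 2)
    (s := Set.Ioc (0 : ℝ) 1) (x := y) (y := x) (C := 1)
    (fun z hz => (hasDerivAt_hh hz.1 hz.2).hasDerivWithinAt)
    (fun z hz => norm_deriv_hh hz.1 hz.2) (convex_Ioc _ _) ⟨hy0, hy1⟩ ⟨hx0, hx1⟩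
  rw [one_mul, Real.norm_eq_abs] at key
  exact key

lemma norm_hh_le {θ : ℝ} (h0 : 0 < θ) (h1 : θ ≤ 1) : ‖hh θ‖ ≤ 4 := by
  have h2 := hh_lip h0 h1 one_pos le_rfl
  have h3 : |θ - 1| ≤ 1 := by rw [abs_le]; constructor <;> linarith
  have h4 : ‖hh 1‖ ≤ 3 := by
    unfold hh
    refine le_trans (norm_add_le _ _) ?_
    have h5 : (1 : ℝ) - 1 / 4 < Real.sin 1 := by
      have := Real.sin_gt_sub_cube one_pos
      norm_num at this ⊢
      linarith
    have h6 : Real.sin 1 ≤ ‖1 - cexp (((1 : ℝ) : ℂ) * I)‖ := by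
      have h7 := Complex.abs_im_le_norm (1 - cexp (((1 : ℝ) : ℂ) * I))
      rw [Complex.sub_im, Complex.exp_ofReal_mul_I_im] at h7
      simp only [one_im, zero_sub, abs_neg] at h7
      rw [abs_of_pos (by linarith)] at h7
      exact h7
    have h8 : ‖(1 - cexp (((1 : ℝ) : ℂ) * I))⁻¹‖ ≤ 2 := by
      rw [norm_inv]
      have : (1 : ℝ) / 2 ≤ ‖1 - cexp (((1 : ℝ) : ℂ) * I)‖ := by linarith
      have := inv_anti₀ (by norm_num) this
      simpa using this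
    have h9 : ‖(((1 : ℝ) : ℂ) * I)⁻¹‖ = 1 := by simp
    rw [h9]
    linarith
  calc ‖hh θ‖ = ‖(hh θ - hh 1) + hh 1‖ := by rw [sub_add_cancel]
    _ ≤ ‖hh θ - hh 1‖ + ‖hh 1‖ := norm_add_le _ _
    _ ≤ 4 := by linarith

lemma cpow_approx {m u : ℝ} (hm : 6 ≤ m) (hu : m - 1 ≤ u) (hu' : u ≤ m) {σ t : ℝ} (hσ : 0 ≤ σ)
    (hσ2 : σ ≤ 2) (ht : 0 ≤ t) (htm : t ≤ m) :
    ‖(u : ℂ) ^ (-((σ : ℂ) + t * I)) - (m : ℂ) ^ (-((σ : ℂ) + t * I)) *
      cexp (((t / m * (m - u) : ℝ) : ℂ) * I)‖ ≤ 12 * m ^ (-σ - 1) := by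
  have hm0 : 0 < m := by linarith
  have hu0 : 0 < u := by linarith
  set x : ℝ := (m - u) / m with hx
  have hx0 : 0 ≤ x := div_nonneg (by linarith) hm0.le
  have hx1 : x ≤ 1 / m := by
    rw [hx]
    exact div_le_div_of_nonneg_right (by linarith) hm0.le
  have h1m : 1 / m ≤ 1 / 6 := one_div_le_one_div_of_le (by norm_num) hm
  have hx2 : x ≤ 1 / 6 := le_trans hx1 h1m
  have hum : u = m * (1 - x) := by rw [hx]; field_simp; ring
  have hx3 : 0 < 1 - x := by linarith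
  set r : ℝ := Real.log (1 - x) with hr
  have hlogu : Real.log u = Real.log m + r := by
    rw [hum, Real.log_mul hm0.ne' hx3.ne']
  have hr1 : r ≤ -x := by
    have := Real.log_le_sub_one_of_pos hx3
    rw [hr]
    linarith
  have hr2 : -x - 2 * x ^ 2 ≤ r := by
    have h3 := Real.one_sub_inv_le_log_of_pos hx3
    have h4 : -x - 2 * x ^ 2 ≤ 1 - (1 - x)⁻¹ := by
      have : (1 - x)⁻¹ ≤ 1 + x + 2 * x ^ 2 := by
        rw [inv_le_iff_one_le_mul₀ hx3]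
        nlinarith [mul_nonneg hx0 hx0, mul_nonneg (mul_nonneg hx0 hx0) hx0]
      linarith
    linarith
  set s : ℂ := (σ : ℂ) + t * I with hs
  have hum0 : (u : ℂ) ≠ 0 := by exact_mod_cast hu0.ne'
  have hmm0 : (m : ℂ) ≠ 0 := by exact_mod_cast hm0.ne'
  have e1 : (u : ℂ) ^ (-s) = (m : ℂ) ^ (-s) * cexp (-s * (r : ℂ)) := by
    rw [Complex.cpow_def_of_ne_zero hum0, Complex.cpow_def_of_ne_zero hmm0,
      ← Complex.ofReal_log hu0.le, ← Complex.ofReal_log hm0.le, ← Complex.exp_add, hlogu]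
    congr 1
    push_cast
    ring
  have e2 : ((t / m * (m - u) : ℝ) : ℂ) * I = ((t * x : ℝ) : ℂ) * I := by
    congr 2
    rw [hx]
    ring
  rw [e1, e2, ← mul_sub, norm_mul]
  have e3 : ‖(m : ℂ) ^ (-s)‖ = m ^ (-σ) := by
    rw [Complex.norm_cpow_eq_rpow_re_of_pos hm0]
    simp [hs]
  rw [e3]
  have e4 : cexp (-s * (r : ℂ)) - cexp (((t * x : ℝ) : ℂ) * I) =
      cexp (((t * x : ℝ) : ℂ) * I) * (cexp (-s * (r : ℂ) - ((t * x : ℝ) : ℂ) * I) - 1) := by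
    rw [mul_sub, ← Complex.exp_add]
    congr 2
    · ring
    · ring
  rw [e4, norm_mul, Complex.norm_exp_ofReal_mul_I, one_mul]
  have e5 : -s * (r : ℂ) - ((t * x : ℝ) : ℂ) * I = ((-(σ * r) : ℝ) : ℂ) + ((-(t * (r + x)) : ℝ) : ℂ) * I := by
    rw [hs]
    push_cast
    ring
  have hn : ‖-s * (r : ℂ) - ((t * x : ℝ) : ℂ) * I‖ ≤ 6 / m := by
    rw [e5]
    refine le_trans (norm_add_le _ _) ?_
    rw [norm_mul, norm_I, mul_one, norm_real, norm_real, Real.norm_eq_abs, Real.norm_eq_abs,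
      abs_neg, abs_neg, abs_mul, abs_mul, abs_of_nonneg hσ, abs_of_nonneg ht]
    have h5 : |r| ≤ 2 * x := by
      rw [abs_le]
      constructor
      · nlinarith
      · linarith
    have h6 : |r + x| ≤ 2 * x ^ 2 := by
      rw [abs_le]
      constructor
      · linarith
      · nlinarith [sq_nonneg x]
    have h7 : σ * |r| ≤ 2 * (2 * x) := mul_le_mul hσ2 h5 (abs_nonneg _) (by norm_num)
    have h8 : t * |r + x| ≤ m * (2 * x ^ 2) := mul_le_mul htm h6 (abs_nonneg _) hm0.le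
    have h9 : m * x ≤ 1 := by
      have := mul_le_mul_of_nonneg_left hx1 hm0.le
      rw [mul_one_div_cancel hm0.ne'] at this
      exact this
    have h10 : m * (2 * x ^ 2) ≤ 2 * x := by
      have := mul_le_mul_of_nonneg_right h9 hx0
      nlinarith
    have h11 : (6 : ℝ) / m = 6 * (1 / m) := by ring
    rw [h11]
    linarith
  have hn1 : ‖-s * (r : ℂ) - ((t * x : ℝ) : ℂ) * I‖ ≤ 1 := by
    refine le_trans hn ?_
    rw [div_le_one hm0]
    exact hm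
  have h12 := Complex.norm_exp_sub_one_le hn1
  have h13 : ‖cexp (-s * (r : ℂ) - ((t * x : ℝ) : ℂ) * I) - 1‖ ≤ 12 * m ^ (-1 : ℝ) := by
    rw [Real.rpow_neg_one]
    refine le_trans h12 ?_
    have : (6 : ℝ) / m = 6 * m⁻¹ := by rw [div_eq_mul_inv]
    rw [this] at hn
    linarith
  have e6 : m ^ (-σ - 1) = m ^ (-σ) * m ^ (-1 : ℝ) := by
    rw [← Real.rpow_add hm0]
    rfl
  rw [e6]
  calc m ^ (-σ) * ‖cexp (-s * (r : ℂ) - ((t * x : ℝ) : ℂ) * I) - 1‖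
      ≤ m ^ (-σ) * (12 * m ^ (-1 : ℝ)) := mul_le_mul_of_nonneg_left h13 (by positivity)
    _ = _ := by ring

/-- The telescoping sequence. -/
noncomputable def GG (s : ℂ) (t : ℝ) (n : ℕ) : ℂ := (n : ℂ) ^ (-s) * hh (t / n)

lemma norm_GG_le {σ t : ℝ} (ht : 0 < t) {n : ℕ} (hn : t ≤ n) :
    ‖GG ((σ : ℂ) + t * I) t n‖ ≤ 4 * (n : ℝ) ^ (-σ) := by
  have hn0 : (0 : ℝ) < n := lt_of_lt_of_le ht hn
  unfold GG
  rw [norm_mul]
  have h1 : ‖(n : ℂ) ^ (-((σ : ℂ) + t * I))‖ = (n : ℝ) ^ (-σ) := by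
    have : (n : ℂ) = ((n : ℝ) : ℂ) := by simp
    rw [this, Complex.norm_cpow_eq_rpow_re_of_pos hn0]
    simp
  rw [h1]
  have h2 := norm_hh_le (div_pos ht hn0) ((div_le_one hn0).mpr hn)
  calc (n : ℝ) ^ (-σ) * ‖hh (t / n)‖ ≤ (n : ℝ) ^ (-σ) * 4 :=
        mul_le_mul_of_nonneg_left h2 (by positivity)
    _ = _ := by ring

lemma integral_cexp_aux {θ m : ℝ} (hθ : θ ≠ 0) :
    ∫ u in (m - 1)..m, cexp (((θ * (m - u) : ℝ) : ℂ) * I) = (cexp (θ * I) - 1) / (θ * I) := by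
  have h := intervalIntegral.integral_comp_sub_left
    (fun v : ℝ => cexp (((θ * v : ℝ) : ℂ) * I)) (a := m - 1) (b := m) m
  rw [h, sub_self]
  have h1 : m - (m - 1) = 1 := by ring
  rw [h1]
  have h2 : (fun v : ℝ => cexp (((θ * v : ℝ) : ℂ) * I)) = fun v : ℝ => cexp ((θ * I) * (v : ℂ)) := by
    funext v
    congr 1
    push_cast
    ring
  rw [h2, integral_exp_mul_complex]
  · simp
  · exact mul_ne_zero (by exact_mod_cast hθ) I_ne_zero

lemma defect_tel {σ t : ℝ} (hσ : 0 ≤ σ) (hσ2 : σ ≤ 2) (ht : 0 < t) {n : ℕ} (hn : 6 ≤ n)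
    (htn : t ≤ n) :
    ‖defect n ((σ : ℂ) + t * I) - ((σ : ℂ) + t * I - 1) *
      (GG ((σ : ℂ) + t * I) t (n + 1) - GG ((σ : ℂ) + t * I) t n)‖
      ≤ ‖(σ : ℂ) + t * I - 1‖ * (61 * (n : ℝ) ^ (-σ - 1)) := by
  set s : ℂ := (σ : ℂ) + t * I with hs
  have hn6 : (6 : ℝ) ≤ n := by exact_mod_cast hn
  have hn0 : (0 : ℝ) < n := by linarith
  set m : ℝ := (n : ℝ) + 1 with hm
  have hm0 : 0 < m := by linarith
  have hs1 : s ≠ 1 := by
    intro h
    have := congrArg Complex.im h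
    simp [hs] at this
    exact ht.ne' this
  rw [Pool.Agent.Work.MP_852da8_nt.defect_eq_integral (by omega) hs1, ← mul_sub, norm_mul]
  apply mul_le_mul_of_nonneg_left _ (norm_nonneg _)
  set θ : ℝ := t / m with hθ
  have hθ0 : 0 < θ := div_pos ht hm0
  have hθ1 : θ ≤ 1 := by rw [hθ, div_le_one hm0]; linarith
  have hcast : ((n : ℂ) + 1) = (m : ℂ) := by rw [hm]; push_cast; rfl
  have hI : ∫ u in (n : ℝ)..(n + 1 : ℝ), ((m : ℂ) ^ (-s) - (m : ℂ) ^ (-s) * cexp (((θ * (m - u) : ℝ) : ℂ) * I))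
      = (m : ℂ) ^ (-s) * (1 - (cexp (θ * I) - 1) / (θ * I)) := by
    rw [intervalIntegral.integral_sub (by simp) (by
      apply Continuous.intervalIntegrable
      fun_prop), intervalIntegral.integral_const, intervalIntegral.integral_const_mul]
    have h1 := integral_cexp_aux (θ := θ) (m := m) hθ0.ne'
    have h2 : m - 1 = n := by rw [hm]; ring
    rw [h2] at h1
    rw [← hm, h1]
    have h3 : m - n = 1 := by rw [hm]; ring
    rw [h3, one_smul]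
    ring
  have hint1 : IntervalIntegrable (fun u : ℝ => (m : ℂ) ^ (-s) - (u : ℂ) ^ (-s)) MeasureTheory.volume
      (n : ℝ) (n + 1) := by
    apply IntervalIntegrable.sub (by simp)
    apply intervalIntegral.intervalIntegrable_cpow
    right
    rw [Set.uIcc_of_le (by linarith)]
    intro h
    exact absurd h.1 (not_le.mpr hn0)
  have hint2 : IntervalIntegrable (fun u : ℝ => (m : ℂ) ^ (-s) - (m : ℂ) ^ (-s) *
      cexp (((θ * (m - u) : ℝ) : ℂ) * I)) MeasureTheory.volume (n : ℝ) (n + 1) := by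
    apply Continuous.intervalIntegrable
    fun_prop
  have hd : ‖(∫ u in (n : ℝ)..(n + 1 : ℝ), ((m : ℂ) ^ (-s) - (u : ℂ) ^ (-s))) -
      (m : ℂ) ^ (-s) * (1 - (cexp (θ * I) - 1) / (θ * I))‖ ≤ 12 * m ^ (-σ - 1) := by
    rw [← hI, ← intervalIntegral.integral_sub hint1 hint2]
    have := intervalIntegral.norm_integral_le_of_norm_le_const (a := (n : ℝ)) (b := (n : ℝ) + 1)
      (f := fun u : ℝ => (m : ℂ) ^ (-s) - (u : ℂ) ^ (-s) - ((m : ℂ) ^ (-s) - (m : ℂ) ^ (-s) *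
      cexp (((θ * (m - u) : ℝ) : ℂ) * I))) (C := 12 * m ^ (-σ - 1)) (by
        intro u hu
        rw [Set.uIoc_of_le (by linarith)] at hu
        have h := cpow_approx (m := m) (u := u) (by linarith) (by rw [hm]; linarith [hu.1])
          hu.2 hσ hσ2 ht.le (by linarith)
        rw [← hs, ← hθ] at h
        rw [← norm_neg]
        refine le_trans (le_of_eq ?_) h
        congr 1
        ring)
    have h4 : |(n : ℝ) + 1 - n| = 1 := by
      rw [add_sub_cancel_left, abs_one]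
    rw [h4, mul_one] at this
    exact this
  -- the telescoping difference
  have hap := cpow_approx (m := m) (u := (n : ℝ)) (by linarith) (by rw [hm]; linarith)
          (by rw [hm]; linarith) hσ hσ2 ht.le (by linarith)
  rw [← hs, ← hθ] at hap
  have h5 : θ * (m - n) = θ := by rw [hm]; ring
  rw [h5] at hap
  have hG : GG s t (n + 1) - GG s t n = (m : ℂ) ^ (-s) * (1 - (cexp (θ * I) - 1) / (θ * I))
      + (-(((n : ℝ) : ℂ) ^ (-s) - (m : ℂ) ^ (-s) * cexp ((θ : ℂ) * I))) * hh θ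
      + ((n : ℝ) : ℂ) ^ (-s) * (hh θ - hh (t / n)) := by
    have e1 : hh θ * (1 - cexp (θ * I)) = 1 - (cexp (θ * I) - 1) / (θ * I) := by
      unfold hh
      have := one_sub_cexp_ne hθ0 hθ1
      have h6 : (θ : ℂ) ≠ 0 := by exact_mod_cast hθ0.ne'
      have h7 := I_ne_zero
      field_simp
      ring
    rw [← e1]
    unfold GG
    have e2 : (((n + 1 : ℕ) : ℕ) : ℂ) = (m : ℂ) := by rw [hm]; push_cast; rfl
    have e3 : t / ((n + 1 : ℕ) : ℝ) = θ := by rw [hθ, hm]; push_cast; rfl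
    have e4 : ((n : ℝ) : ℂ) = (n : ℂ) := by simp
    rw [e2, e3, e4]
    ring
  have hθn : |θ - t / n| ≤ 1 / n := by
    have e : θ - t / n = -(t / (n * m)) := by
      rw [hθ]
      field_simp
      rw [hm]
      ring
    rw [e, abs_neg, abs_of_nonneg (by positivity)]
    rw [div_le_div_iff₀ (by positivity) hn0]
    nlinarith
  have hn1 : t / n ≤ 1 := (div_le_one hn0).mpr htn
  have hlip := hh_lip hθ0 hθ1 (div_pos ht hn0) hn1
  have hb := norm_hh_le hθ0 hθ1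
  have hmn : m ^ (-σ - 1) ≤ (n : ℝ) ^ (-σ - 1) := by
    apply Real.rpow_le_rpow_of_nonpos hn0 (by rw [hm]; linarith) (by linarith)
  have hnn : ‖((n : ℝ) : ℂ) ^ (-s)‖ = (n : ℝ) ^ (-σ) := by
    rw [Complex.norm_cpow_eq_rpow_re_of_pos hn0]
    simp [hs]
  have hnp : 0 ≤ (n : ℝ) ^ (-σ) := by positivity
  have e6 : (n : ℝ) ^ (-σ - 1) = (n : ℝ) ^ (-σ) * (1 / n) := by
    rw [one_div, ← Real.rpow_neg_one, ← Real.rpow_add hn0]
    rfl
  rw [hcast, hG]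
  have e7 : (∫ u in (n : ℝ)..(n + 1 : ℝ), ((m : ℂ) ^ (-s) - (u : ℂ) ^ (-s))) -
      ((m : ℂ) ^ (-s) * (1 - (cexp (θ * I) - 1) / (θ * I))
      + (-(((n : ℝ) : ℂ) ^ (-s) - (m : ℂ) ^ (-s) * cexp ((θ : ℂ) * I))) * hh θ
      + ((n : ℝ) : ℂ) ^ (-s) * (hh θ - hh (t / n))) =
      ((∫ u in (n : ℝ)..(n + 1 : ℝ), ((m : ℂ) ^ (-s) - (u : ℂ) ^ (-s))) -
      (m : ℂ) ^ (-s) * (1 - (cexp (θ * I) - 1) / (θ * I)))
      + (((n : ℝ) : ℂ) ^ (-s) - (m : ℂ) ^ (-s) * cexp ((θ : ℂ) * I)) * hh θ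
      - ((n : ℝ) : ℂ) ^ (-s) * (hh θ - hh (t / n)) := by ring
  rw [e7]
  refine le_trans (norm_sub_le _ _) ?_
  refine le_trans (add_le_add_left (norm_add_le _ _) _) ?_
  have h8 : ‖(((n : ℝ) : ℂ) ^ (-s) - (m : ℂ) ^ (-s) * cexp ((θ : ℂ) * I)) * hh θ‖
      ≤ 12 * m ^ (-σ - 1) * 4 := by
    rw [norm_mul]
    exact mul_le_mul hap hb (norm_nonneg _) (by positivity)
  have h9 : ‖((n : ℝ) : ℂ) ^ (-s) * (hh θ - hh (t / n))‖ ≤ (n : ℝ) ^ (-σ) * (1 / n) := by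
    rw [norm_mul, hnn]
    exact mul_le_mul_of_nonneg_left (le_trans hlip hθn) hnp
  rw [← e6] at h9
  linarith

lemma rpow_tel {σ : ℝ} (hσ : 1 / 4 ≤ σ) {n : ℕ} (hn : 1 ≤ n) :
    ((n + 1 : ℕ) : ℝ) ^ (-σ - 1) ≤ 4 * ((n : ℝ) ^ (-σ) - ((n + 1 : ℕ) : ℝ) ^ (-σ)) := by
  have hn0 : (0 : ℝ) < n := by exact_mod_cast hn
  have hm0 : (0 : ℝ) < ((n + 1 : ℕ) : ℝ) := by positivity
  set m : ℝ := ((n + 1 : ℕ) : ℝ) with hm
  have hmn : m = n + 1 := by rw [hm]; push_cast; rfl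
  have e1 : m ^ (-σ - 1) = m ^ (-σ) * (1 / m) := by
    rw [one_div, ← Real.rpow_neg_one, ← Real.rpow_add hm0]
    rfl
  have e2 : (n : ℝ) ^ (-σ) = m ^ (-σ) * Real.exp (σ * Real.log (m / n)) := by
    rw [Real.rpow_def_of_pos hn0, Real.rpow_def_of_pos hm0, ← Real.exp_add,
      Real.log_div hm0.ne' hn0.ne']
    congr 1
    ring
  have h1 : 1 / m ≤ Real.log (m / n) := by
    have := Real.one_sub_inv_le_log_of_pos (div_pos hm0 hn0)
    refine le_trans (le_of_eq ?_) this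
    rw [inv_div, hmn]
    have : (n : ℝ) + 1 ≠ 0 := by positivity
    field_simp
    ring
  have h2 := Real.add_one_le_exp (σ * Real.log (m / n))
  have h3 : 1 / 4 * (1 / m) ≤ σ * Real.log (m / n) :=
    mul_le_mul hσ h1 (by positivity) (by linarith)
  rw [e1, e2]
  have h4 : 0 < m ^ (-σ) := Real.rpow_pos_of_pos hm0 _
  have h5 : m ^ (-σ) * (1 / 4 * (1 / m)) ≤
      m ^ (-σ) * (Real.exp (σ * Real.log (m / n)) - 1) :=
    mul_le_mul_of_nonneg_left (by linarith) h4.le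
  linarith

theorem zeta_approx_N {σ t : ℝ} (hσ : 1 / 4 ≤ σ) (hσ2 : σ ≤ 2) {N : ℕ} (hN : 6 ≤ N)
    (htN : t ≤ N) (hNt : (N : ℝ) ≤ 8 * t) :
    ‖riemannZeta ((σ : ℂ) + t * I) - ∑ n ∈ range (N + 1), ((n : ℂ) + 1) ^ (-((σ : ℂ) + t * I))‖
      ≤ 300 * (N : ℝ) ^ (-σ) := by
  set s : ℂ := (σ : ℂ) + t * I with hs
  have hN0 : (0 : ℝ) < N := by exact_mod_cast (by omega : 0 < N)
  have hN6 : (6 : ℝ) ≤ N := by exact_mod_cast hN
  have ht : 0 < t := by linarith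
  have hs1 : s ≠ 1 := by
    intro h
    have := congrArg Complex.im h
    simp [hs] at this
    exact ht.ne' this
  have hs1' : s - 1 ≠ 0 := sub_ne_zero.mpr hs1
  have hre : s.re = σ := by simp [hs]
  have hs0 : 0 < s.re := by rw [hre]; linarith
  have hpos : 0 < ‖s - 1‖ := norm_pos_iff.mpr hs1'
  have h1 : riemannZeta s - ∑ n ∈ range (N + 1), ((n : ℂ) + 1) ^ (-s)
      = (s - 1)⁻¹ * ((N + 1 : ℕ) : ℂ) ^ (1 - s) + (s - 1)⁻¹ * ∑' n : ℕ, defect (N + 1 + n) s := by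
    rw [riemannZeta_eq_inv_sub_mul hs1, Pool.Agent.Work.MP_852da8_nt.zeta_one_formula hs0 N]
    field_simp
    ring
  rw [h1]
  refine le_trans (norm_add_le _ _) ?_
  -- first term
  have hts : t ≤ ‖s - 1‖ := by
    have := Complex.abs_im_le_norm (s - 1)
    have e : (s - 1).im = t := by simp [hs]
    rw [e, abs_of_pos ht] at this
    exact this
  have hN1 : (0 : ℝ) < ((N + 1 : ℕ) : ℝ) := by positivity
  have hNN : ((N + 1 : ℕ) : ℝ) ^ (-σ) ≤ (N : ℝ) ^ (-σ) := by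
    apply Real.rpow_le_rpow_of_nonpos hN0 (by push_cast; linarith) (by linarith)
  have hA : ‖(s - 1)⁻¹ * ((N + 1 : ℕ) : ℂ) ^ (1 - s)‖ ≤ 16 * (N : ℝ) ^ (-σ) := by
    rw [norm_mul, norm_inv]
    have e1 : ‖((N + 1 : ℕ) : ℂ) ^ (1 - s)‖ = ((N + 1 : ℕ) : ℝ) * ((N + 1 : ℕ) : ℝ) ^ (-σ) := by
      have : ((N + 1 : ℕ) : ℂ) = (((N + 1 : ℕ) : ℝ) : ℂ) := by simp
      rw [this, Complex.norm_cpow_eq_rpow_re_of_pos hN1]
      have : (1 - s).re = 1 + (-σ) := by simp [hs]; ring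
      rw [this, Real.rpow_add hN1, Real.rpow_one]
    rw [e1]
    have h2 : ((N + 1 : ℕ) : ℝ) ≤ 16 * ‖s - 1‖ := by
      push_cast
      linarith
    calc ‖s - 1‖⁻¹ * (((N + 1 : ℕ) : ℝ) * ((N + 1 : ℕ) : ℝ) ^ (-σ))
        ≤ ‖s - 1‖⁻¹ * ((16 * ‖s - 1‖) * (N : ℝ) ^ (-σ)) := by
          apply mul_le_mul_of_nonneg_left _ (by positivity)
          exact mul_le_mul h2 hNN (by positivity) (by positivity)
      _ = 16 * (N : ℝ) ^ (-σ) := by field_simp
  -- second term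
  have hB : ‖(s - 1)⁻¹ * ∑' n : ℕ, defect (N + 1 + n) s‖ ≤ 252 * (N : ℝ) ^ (-σ) := by
    rw [norm_mul, norm_inv, inv_mul_le_iff₀ hpos]
    have hsum := Pool.Agent.Work.MP_852da8_nt.summable_defect hs0 N
    have hlim := hsum.hasSum.tendsto_sum_nat
    apply le_of_tendsto hlim.norm
    apply Filter.Eventually.of_forall
    intro K
    have hK : ∀ K : ℕ, ‖∑ n ∈ range K, defect (N + 1 + n) s - (s - 1) * (GG s t (N + 1 + K) - GG s t (N + 1))‖
        ≤ ‖s - 1‖ * (244 * ((N : ℝ) ^ (-σ) - ((N + K : ℕ) : ℝ) ^ (-σ))) := by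
      intro K
      induction K with
      | zero => simp
      | succ K ih =>
        rw [sum_range_succ]
        have h3 := defect_tel (σ := σ) (t := t) (by linarith) hσ2 ht (n := N + 1 + K) (by omega)
          (by push_cast; have : (0 : ℝ) ≤ K := Nat.cast_nonneg K; linarith)
        rw [← hs] at h3
        have h4 := rpow_tel (σ := σ) hσ (n := N + K) (by omega)
        have e4 : N + K + 1 = N + 1 + K := by ring
        rw [e4] at h4
        have e5 : ∑ n ∈ range K, defect (N + 1 + n) s + defect (N + 1 + K) s -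
            (s - 1) * (GG s t (N + 1 + (K + 1)) - GG s t (N + 1)) =
            (∑ n ∈ range K, defect (N + 1 + n) s - (s - 1) * (GG s t (N + 1 + K) - GG s t (N + 1)))
            + (defect (N + 1 + K) s - (s - 1) * (GG s t (N + 1 + K + 1) - GG s t (N + 1 + K))) := by
          have : N + 1 + (K + 1) = N + 1 + K + 1 := by ring
          rw [this]
          ring
        rw [e5]
        refine le_trans (norm_add_le _ _) (le_trans (add_le_add ih h3) ?_)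
        rw [← mul_add]
        apply mul_le_mul_of_nonneg_left _ (norm_nonneg _)
        have e6 : N + (K + 1) = N + 1 + K := by ring
        rw [e6]
        linarith
    have hG1 := norm_GG_le (σ := σ) ht (n := N + 1) (by push_cast; linarith)
    have hG2 := norm_GG_le (σ := σ) ht (n := N + 1 + K) (by
      push_cast; have : (0 : ℝ) ≤ K := Nat.cast_nonneg K; linarith)
    rw [← hs] at hG1 hG2
    have hNK : ((N + 1 + K : ℕ) : ℝ) ^ (-σ) ≤ (N : ℝ) ^ (-σ) := by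
      apply Real.rpow_le_rpow_of_nonpos hN0 _ (by linarith)
      push_cast
      have : (0 : ℝ) ≤ K := Nat.cast_nonneg K
      linarith
    have h6 := hK K
    have h7 : (0 : ℝ) ≤ ((N + K : ℕ) : ℝ) ^ (-σ) := by positivity
    have h8 : ‖∑ n ∈ range K, defect (N + 1 + n) s‖ ≤
        ‖∑ n ∈ range K, defect (N + 1 + n) s - (s - 1) * (GG s t (N + 1 + K) - GG s t (N + 1))‖
        + ‖(s - 1) * (GG s t (N + 1 + K) - GG s t (N + 1))‖ := by
      have := norm_add_le (∑ n ∈ range K, defect (N + 1 + n) s -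
        (s - 1) * (GG s t (N + 1 + K) - GG s t (N + 1))) ((s - 1) * (GG s t (N + 1 + K) - GG s t (N + 1)))
      rw [sub_add_cancel] at this
      exact this
    refine le_trans h8 ?_
    rw [norm_mul]
    have h9 : ‖GG s t (N + 1 + K) - GG s t (N + 1)‖ ≤ 8 * (N : ℝ) ^ (-σ) := by
      refine le_trans (norm_sub_le _ _) ?_
      linarith
    have h10 : ‖s - 1‖ * ‖GG s t (N + 1 + K) - GG s t (N + 1)‖ ≤ ‖s - 1‖ * (8 * (N : ℝ) ^ (-σ)) :=
      mul_le_mul_of_nonneg_left h9 (norm_nonneg _)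
    have h11 : ‖s - 1‖ * (244 * ((N : ℝ) ^ (-σ) - ((N + K : ℕ) : ℝ) ^ (-σ)))
        ≤ ‖s - 1‖ * (244 * (N : ℝ) ^ (-σ)) :=
      mul_le_mul_of_nonneg_left (by linarith) (norm_nonneg _)
    calc _ ≤ ‖s - 1‖ * (244 * (N : ℝ) ^ (-σ)) + ‖s - 1‖ * (8 * (N : ℝ) ^ (-σ)) :=
          add_le_add (le_trans h6 h11) h10
      _ = ‖s - 1‖ * (252 * (N : ℝ) ^ (-σ)) := by ring
  have h0 : 0 ≤ (N : ℝ) ^ (-σ) := by positivity
  linarith

end Pool.Agent.Work.MP_e9b29d_nt
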