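import Mathlib
import Pool.Agent.Work.MP_e9b29d_nt.ZA
import Pool.Agent.Work.MP_e9b29d_nt.Arith
import Pool.Agent.Work.MP_e9b29d_nt.Small

/-!
Outside few unit boxes the zeta function does not vanish and its logarithmic derivative is
a short Dirichlet polynomial up to a bounded error.
-/

namespace Pool.Agent.Work.MP_e9b29d_nt

open Complex Finset

lemma ZZ_eq (N : ℕ) (s : ℂ) : ZZ (N + 1) s = ∑ n ∈ range (N + 1), ((n : ℂ) + 1) ^ (-s) := by
  unfold ZZ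
  rw [Finset.range_eq_Ico]
  have h := Finset.sum_Ico_add' (fun n : ℕ => (n : ℂ) ^ (-s)) 0 (N + 1) 1
  push_cast at h
  rw [h]
  apply Finset.sum_congr _ (fun _ _ => rfl)
  ext n
  simp only [mem_Ioc, mem_Ico]
  omega

lemma zeta_box {T : ℕ} (hT : 2 ≤ T) {σ t : ℝ} (hσ : 1 / 4 ≤ σ) (hσ2 : σ ≤ 5 / 4)
    (ht : (T : ℝ) - 1 / 4 ≤ t) (ht2 : t ≤ 2 * T + 5 / 4) :
    ‖riemannZeta ((σ : ℂ) + t * I) - ZZ (4 * T + 1) ((σ : ℂ) + t * I)‖ ≤
      300 * (T : ℝ) ^ (-(1 / 4) : ℝ) := by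
  have hT2 : (2 : ℝ) ≤ T := by exact_mod_cast hT
  have h := zeta_approx_N (σ := σ) (t := t) hσ (by linarith) (N := 4 * T) (by omega)
    (by push_cast; linarith) (by push_cast; linarith)
  rw [← ZZ_eq] at h
  refine le_trans h ?_
  apply mul_le_mul_of_nonneg_left _ (by norm_num)
  have h4 : (1 : ℝ) ≤ ((4 * T : ℕ) : ℝ) := by push_cast; linarith
  calc ((4 * T : ℕ) : ℝ) ^ (-σ) ≤ ((4 * T : ℕ) : ℝ) ^ (-(1 / 4) : ℝ) :=
        Real.rpow_le_rpow_of_exponent_le h4 (by linarith)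
    _ ≤ (T : ℝ) ^ (-(1 / 4) : ℝ) := by
        apply Real.rpow_le_rpow_of_nonpos (by linarith) _ (by norm_num)
        push_cast
        linarith

lemma zeta_deriv_box {T : ℕ} (hT : 2 ≤ T) {σ t : ℝ} (hσ : 1 / 2 ≤ σ) (hσ2 : σ ≤ 1)
    (ht : (T : ℝ) ≤ t) (ht2 : t ≤ 2 * T + 1) :
    ‖deriv riemannZeta ((σ : ℂ) + t * I) - ZD (4 * T + 1) ((σ : ℂ) + t * I)‖ ≤
      1200 * (T : ℝ) ^ (-(1 / 4) : ℝ) := by
  have hT2 : (2 : ℝ) ≤ T := by exact_mod_cast hT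
  set s : ℂ := (σ : ℂ) + t * I with hs
  have hre : s.re = σ := by simp [hs]
  have him : s.im = t := by simp [hs]
  have hcl : ∀ z ∈ Metric.closedBall s (1 / 4), |z.re - σ| ≤ 1 / 4 ∧ |z.im - t| ≤ 1 / 4 := by
    intro z hz
    rw [Metric.mem_closedBall, Complex.dist_eq] at hz
    constructor
    · have := Complex.abs_re_le_norm (z - s)
      rw [Complex.sub_re, hre] at this
      linarith
    · have := Complex.abs_im_le_norm (z - s)
      rw [Complex.sub_im, him] at this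
      linarith
  have hne : ∀ z ∈ Metric.closedBall s (1 / 4), z ≠ 1 := by
    intro z hz h1
    have h2 := (hcl z hz).2
    rw [h1, Complex.one_im, abs_le] at h2
    linarith [h2.1]
  have hdiff : ∀ z ∈ Metric.closedBall s (1 / 4),
      DifferentiableAt ℂ (fun z => riemannZeta z - ZZ (4 * T + 1) z) z := by
    intro z hz
    exact (differentiableAt_riemannZeta (hne z hz)).sub (hasDerivAt_ZZ _ z).differentiableAt
  have hds : deriv (fun z => riemannZeta z - ZZ (4 * T + 1) z) s =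
      deriv riemannZeta s - ZD (4 * T + 1) s := by
    have h1 := (differentiableAt_riemannZeta (hne s (Metric.mem_closedBall_self (by norm_num)))).hasDerivAt
    exact (h1.sub (hasDerivAt_ZZ (4 * T + 1) s)).deriv
  rw [← hds]
  have hDC : DiffContOnCl ℂ (fun z => riemannZeta z - ZZ (4 * T + 1) z) (Metric.ball s (1 / 4)) := by
    apply DifferentiableOn.diffContOnCl
    intro z hz
    exact (hdiff z (Metric.closure_ball_subset_closedBall hz)).differentiableWithinAt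
  have hb : ∀ z ∈ Metric.sphere s (1 / 4), ‖riemannZeta z - ZZ (4 * T + 1) z‖ ≤
      300 * (T : ℝ) ^ (-(1 / 4) : ℝ) := by
    intro z hz
    have h1 := hcl z (Metric.sphere_subset_closedBall hz)
    have h2 := abs_le.1 h1.1
    have h3 := abs_le.1 h1.2
    have hz' : z = (z.re : ℂ) + z.im * I := (Complex.re_add_im z).symm
    rw [hz']
    exact zeta_box hT (by linarith [h2.1]) (by linarith [h2.2]) (by linarith [h3.1])
      (by linarith [h3.2])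
  have := Complex.norm_deriv_le_of_forall_mem_sphere_norm_le (by norm_num) hDC hb
  refine le_trans this (le_of_eq ?_)
  ring

lemma good_point {T W X : ℕ} (hT : 2 ≤ T) (hW : 1 ≤ W) {σ t lam : ℝ} (hσ : 1 / 2 ≤ σ)
    (hσ2 : σ ≤ 1) (ht : (T : ℝ) ≤ t) (ht2 : t ≤ 2 * T + 1)
    (h1 : ‖ZD (4 * T + 1) ((σ : ℂ) + t * I) + DD X ((σ : ℂ) + t * I) * ZZ (4 * T + 1) ((σ : ℂ) + t * I)‖
      ≤ lam)
    (h2 : ‖MM W ((σ : ℂ) + t * I) * ZZ (4 * T + 1) ((σ : ℂ) + t * I) - 1‖ ≤ 1 / 2)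
    (hc1 : 1200 * (W : ℝ) * (T : ℝ) ^ (-(1 / 4) : ℝ) ≤ 1)
    (hc2 : 4 * (W : ℝ) * (lam + (1200 + 300 * (X : ℝ) ^ 2) * (T : ℝ) ^ (-(1 / 4) : ℝ)) ≤ 1) :
    riemannZeta ((σ : ℂ) + t * I) ≠ 0 ∧
    ‖deriv riemannZeta ((σ : ℂ) + t * I) / riemannZeta ((σ : ℂ) + t * I) + DD X ((σ : ℂ) + t * I)‖ ≤ 1 := by
  set s : ℂ := (σ : ℂ) + t * I with hs
  set τ : ℝ := (T : ℝ) ^ (-(1 / 4) : ℝ) with hτ
  have hτ0 : 0 ≤ τ := by positivity
  have hW0 : (0 : ℝ) < W := by exact_mod_cast hW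
  have hz := zeta_box hT (σ := σ) (t := t) (by linarith) (by linarith) (by linarith) (by linarith)
  have hzd := zeta_deriv_box hT hσ hσ2 ht ht2
  rw [← hs] at hz hzd
  have hMM := norm_MM_le W (σ := σ) (t := t) (by linarith)
  have hDD := norm_DD_le X (σ := σ) (t := t) (by linarith)
  rw [← hs] at hMM hDD
  have h3 : 1 / 2 ≤ ‖MM W s * ZZ (4 * T + 1) s‖ := by
    have h4 := norm_sub_norm_le (1 : ℂ) (MM W s * ZZ (4 * T + 1) s)
    rw [norm_one] at h4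
    have h5 : ‖1 - MM W s * ZZ (4 * T + 1) s‖ = ‖MM W s * ZZ (4 * T + 1) s - 1‖ := norm_sub_rev _ _
    rw [h5] at h4
    linarith
  rw [norm_mul] at h3
  have h4 : 1 / 2 ≤ W * ‖ZZ (4 * T + 1) s‖ :=
    le_trans h3 (mul_le_mul_of_nonneg_right hMM (norm_nonneg _))
  have h5 : ‖ZZ (4 * T + 1) s‖ ≤ ‖riemannZeta s‖ + 300 * τ := by
    have := norm_sub_norm_le (ZZ (4 * T + 1) s) (riemannZeta s)
    rw [norm_sub_rev] at this
    linarith
  have h6 : 1 / 4 ≤ W * ‖riemannZeta s‖ := by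
    have := mul_le_mul_of_nonneg_left h5 hW0.le
    nlinarith
  have h7 : 0 < ‖riemannZeta s‖ := by
    by_contra h
    have : ‖riemannZeta s‖ = 0 := le_antisymm (not_lt.1 h) (norm_nonneg _)
    rw [this, mul_zero] at h6
    linarith
  have hne : riemannZeta s ≠ 0 := norm_pos_iff.1 h7
  refine ⟨hne, ?_⟩
  have h8 : ‖deriv riemannZeta s + DD X s * riemannZeta s‖ ≤ lam + (1200 + 300 * (X : ℝ) ^ 2) * τ := by
    have e : deriv riemannZeta s + DD X s * riemannZeta s =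
        (ZD (4 * T + 1) s + DD X s * ZZ (4 * T + 1) s) + (deriv riemannZeta s - ZD (4 * T + 1) s)
        + DD X s * (riemannZeta s - ZZ (4 * T + 1) s) := by ring
    rw [e]
    refine le_trans (norm_add_le _ _) (le_trans (add_le_add (norm_add_le _ _) le_rfl) ?_)
    rw [norm_mul]
    have h9 : ‖DD X s‖ * ‖riemannZeta s - ZZ (4 * T + 1) s‖ ≤ (X : ℝ) ^ 2 * (300 * τ) :=
      mul_le_mul hDD hz (norm_nonneg _) (by positivity)
    calc _ ≤ lam + 1200 * τ + (X : ℝ) ^ 2 * (300 * τ) := add_le_add (add_le_add h1 hzd) h9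
      _ = _ := by ring
  have h10 : ‖deriv riemannZeta s + DD X s * riemannZeta s‖ ≤ ‖riemannZeta s‖ := by
    have h11 : 4 * (W : ℝ) * ‖deriv riemannZeta s + DD X s * riemannZeta s‖ ≤ 1 :=
      le_trans (mul_le_mul_of_nonneg_left h8 (by positivity)) hc2
    have h12 : 4 * (W : ℝ) * ‖deriv riemannZeta s + DD X s * riemannZeta s‖ ≤
        4 * (W : ℝ) * ‖riemannZeta s‖ := by linarith
    exact le_of_mul_le_mul_left h12 (by positivity)
  have e2 : deriv riemannZeta s / riemannZeta s + DD X s =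
      (deriv riemannZeta s + DD X s * riemannZeta s) / riemannZeta s := by
    field_simp
  rw [e2, norm_div, div_le_one h7]
  exact h10

/-- the good property of the unit box at height `n` -/
def GoodBox (a : ℝ) (X n : ℕ) : Prop :=
  ∀ σ ∈ Set.Icc a 1, ∀ t ∈ Set.Icc (n : ℝ) (n + 1),
    riemannZeta ((σ : ℂ) + t * I) ≠ 0 ∧
    ‖deriv riemannZeta ((σ : ℂ) + t * I) / riemannZeta ((σ : ℂ) + t * I) + DD X ((σ : ℂ) + t * I)‖ ≤ 1

open Classical in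
theorem propA {a θ : ℝ} (ha : 1 / 2 < a) (ha1 : a < 1) (hθ : 2 - 2 * a < θ) (hθ1 : θ ≤ 1) :
    ∃ κ δ : ℝ, 0 < κ ∧ 0 < δ ∧ κ ≤ θ / 16 ∧ ∀ᶠ T : ℕ in Filter.atTop, ∀ H : ℕ,
      (T : ℝ) ^ θ ≤ H → H ≤ T →
      (((Ico T (T + H)).filter (fun n => ¬ GoodBox a ⌊(T : ℝ) ^ κ⌋₊ n)).card : ℝ) ≤
        H * (T : ℝ) ^ (-δ) := by
  set g0 : ℝ := θ - (2 - 2 * a) with hg0
  have hg0p : 0 < g0 := by rw [hg0]; linarith
  have hθ0 : 0 < θ := by linarith
  set ε : ℝ := min ((2 * a - 1) / 8) (g0 / 8) with hε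
  have hε0 : 0 < ε := lt_min (by linarith) (by linarith)
  have hε1 : ε ≤ (2 * a - 1) / 8 := min_le_left _ _
  have hε2 : ε ≤ g0 / 8 := min_le_right _ _
  set β : ℝ := 2 * a - 1 - 2 * ε with hβ
  have hβ0 : 0 < β := by rw [hβ]; linarith
  have hβ1 : β ≤ 1 := by rw [hβ]; linarith
  set κ : ℝ := min (g0 / 4) (θ / 16) with hκ
  have hκ0 : 0 < κ := lt_min (by linarith) (by linarith)
  have hκg : κ ≤ g0 / 4 := min_le_left _ _
  have hκθ : κ ≤ θ / 16 := min_le_right _ _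
  have hκ1 : κ ≤ 1 / 16 := by linarith
  have hkey : (1 + κ) * (1 - β) ≤ θ - g0 / 2 := by
    have h1 : κ * (1 - β) ≤ κ * 1 := mul_le_mul_of_nonneg_left (by linarith) hκ0.le
    have h2 : (1 + κ) * (1 - β) = (1 - β) + κ * (1 - β) := by ring
    rw [h2, hβ] at *
    linarith
  set ρ : ℝ := min (κ * β) (g0 / 2) / 2 with hρ
  have hρ0 : 0 < ρ := half_pos (lt_min (mul_pos hκ0 hβ0) (by linarith))
  set κ' : ℝ := min κ (ρ / 16) with hκ'
  have hκ'0 : 0 < κ' := lt_min hκ0 (by linarith)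
  have hκ'κ : κ' ≤ κ := min_le_left _ _
  have hκ'ρ : κ' ≤ ρ / 16 := min_le_right _ _
  set ρ' : ℝ := min (κ' * β) (g0 / 2) / 2 with hρ'
  have hρ'0 : 0 < ρ' := half_pos (lt_min (mul_pos hκ'0 hβ0) (by linarith))
  obtain ⟨Cτ, hCτ1, hCτ⟩ := Pool.Agent.Work.MP_71a505_nt.tau_le hε0
  set δ : ℝ := min (ρ / 2) ρ' / 2 with hδ
  have hδ0 : 0 < δ := half_pos (lt_min (by linarith) hρ'0)
  refine ⟨κ, δ, hκ0, hδ0, hκθ, ?_⟩
  have hps1 := poly_small (a := a) (b := 1) (θ := θ) (β := β) (ε := ε) (κ := κ) (κ0 := κ)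
    (g := g0 / 2) (C0 := 1 / ε) (by linarith) ha1 (by linarith) hβ0 hβ1 (le_of_eq hβ) hκ0
    (by linarith) hkey (by linarith) (by positivity)
  have hps2 := poly_small (a := a) (b := 1) (θ := θ) (β := β) (ε := ε) (κ := κ') (κ0 := κ)
    (g := g0 / 2) (C0 := 2 * Cτ) (by linarith) ha1 (by linarith) hβ0 hβ1 (le_of_eq hβ) hκ'0
    (by linarith) hkey (by linarith) (by positivity)
  filter_upwards [hps1, hps2, Filter.eventually_ge_atTop 2, ev_const_nat 1200 (ρ := 3 / 16) (by norm_num),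
    ev_const_nat 8 (ρ := 3 * ρ / 16) (by positivity), ev_const_nat 12000 (ρ := 1 / 16) (by norm_num),
    ev_const_nat 5 hδ0] with T hT1 hT2 hT3 hT4 hT5 hT6 hT7
  intro H hH hHT
  have hT0 : (0 : ℝ) < T := by exact_mod_cast (by omega : 0 < T)
  have hT1' : (1 : ℝ) ≤ T := by exact_mod_cast (by omega : 1 ≤ T)
  have hT2' : (2 : ℝ) ≤ T := by exact_mod_cast hT3
  have hH0 : (0 : ℝ) ≤ H := Nat.cast_nonneg H
  set X : ℕ := ⌊(T : ℝ) ^ κ⌋₊ with hX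
  set W : ℕ := ⌊(T : ℝ) ^ κ'⌋₊ with hW
  have hXle : (X : ℝ) ≤ (T : ℝ) ^ κ := Nat.floor_le (by positivity)
  have hWle : (W : ℝ) ≤ (T : ℝ) ^ κ' := Nat.floor_le (by positivity)
  have hX1 : 1 ≤ X := Nat.one_le_floor_iff _ |>.2 (Real.one_le_rpow hT1' hκ0.le)
  have hW1 : 1 ≤ W := Nat.one_le_floor_iff _ |>.2 (Real.one_le_rpow hT1' hκ'0.le)
  have hWX : W ≤ X := Nat.floor_le_floor (Real.rpow_le_rpow_of_exponent_le hT1' hκ'κ)
  have hXT : X ≤ T := by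
    have : (X : ℝ) ≤ T := le_trans hXle (by
      calc (T : ℝ) ^ κ ≤ (T : ℝ) ^ (1 : ℝ) := Real.rpow_le_rpow_of_exponent_le hT1' (by linarith)
        _ = T := Real.rpow_one _)
    exact_mod_cast this
  set N : ℕ := 4 * T + 1 with hN
  set J : ℕ := Nat.clog 2 (X * N) with hJ
  have hXN : X * N ≤ 2 ^ J := Nat.le_pow_clog (by norm_num) _
  have hWN : W * N ≤ 2 ^ J := le_trans (Nat.mul_le_mul_right _ hWX) hXN
  have hN1 : 1 ≤ N := by omega
  have hXN1 : 1 < X * N := by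
    have : X * N ≥ 1 * N := Nat.mul_le_mul_right _ hX1
    omega
  have hJle : (2 : ℝ) ^ J ≤ 10 * (T : ℝ) ^ (1 + κ) := by
    have h1 : 2 ^ (J - 1) < X * N := Nat.pow_pred_clog_lt_self (by norm_num) hXN1
    have hJ1 : 1 ≤ J := Nat.clog_pos (by norm_num) (by omega)
    have h2 : (2 : ℝ) ^ J = 2 * (2 : ℝ) ^ (J - 1) := by
      rw [← pow_succ']
      congr 1
      omega
    have h3 : (2 : ℝ) ^ (J - 1) ≤ (X : ℝ) * N := by exact_mod_cast h1.le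
    have h4 : (N : ℝ) ≤ 5 * T := by
      rw [hN]
      push_cast
      linarith
    have h5 : (X : ℝ) * N ≤ (T : ℝ) ^ κ * (5 * T) := mul_le_mul hXle h4 (by positivity) (by positivity)
    have h6 : (T : ℝ) ^ (1 + κ) = T * (T : ℝ) ^ κ := by
      rw [Real.rpow_add hT0, Real.rpow_one]
    rw [h2, h6]
    linarith
  -- the two families of polynomials
  have hs1 := count_le (fun σ t => ∑ m ∈ Ioc 0 (2 ^ J), ((c1 X N m : ℝ) : ℂ) * (m : ℂ) ^ (-((σ : ℂ) + t * I)))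
    (a := a) (b := 1) (Sb := H * (T : ℝ) ^ (-ρ)) (lam := (T : ℝ) ^ (-(ρ / 4))) (A := T) (B := T + H)
    ha1.le (by positivity) (fun σ t hσ ht => hT1 H hH (fun m => ((c1 X N m : ℝ) : ℂ)) J
      (fun m hm => by
        have hm0 : (0 : ℝ) < m := by exact_mod_cast hm
        rw [norm_real, Real.norm_eq_abs]
        refine le_trans (abs_c1_le X N hm) ?_
        have := Real.log_le_rpow_div hm0.le hε0
        rw [one_div, inv_mul_eq_div]
        exact this)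
      (fun m hm => by
        rw [c1_zero hm (by omega)]
        simp) hJle σ t hσ ht)
  have hs2 := count_le (fun σ t => ∑ m ∈ Ioc 0 (2 ^ J), ((c2 W N m : ℝ) : ℂ) * (m : ℂ) ^ (-((σ : ℂ) + t * I)))
    (a := a) (b := 1) (Sb := H * (T : ℝ) ^ (-ρ')) (lam := 1 / 2) (A := T) (B := T + H)
    ha1.le (by norm_num) (fun σ t hσ ht => hT2 H hH (fun m => ((c2 W N m : ℝ) : ℂ)) J
      (fun m hm => by
        rw [norm_real, Real.norm_eq_abs]
        refine le_trans (abs_c2_le W N hm) ?_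
        have := hCτ m (by omega)
        linarith)
      (fun m hm => by
        rw [c2_zero hm (by omega)]
        simp) hJle σ t hσ ht)
  set B1 : Finset ℕ := (Ico T (T + H)).filter (fun n : ℕ => ∃ σ ∈ Set.Icc a 1,
      ∃ t ∈ Set.Icc (n : ℝ) (n + 1), (T : ℝ) ^ (-(ρ / 4)) <
      ‖∑ m ∈ Ioc 0 (2 ^ J), ((c1 X N m : ℝ) : ℂ) * (m : ℂ) ^ (-((σ : ℂ) + t * I))‖) with hB1
  set B2 : Finset ℕ := (Ico T (T + H)).filter (fun n : ℕ => ∃ σ ∈ Set.Icc a 1,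
      ∃ t ∈ Set.Icc (n : ℝ) (n + 1), 1 / 2 <
      ‖∑ m ∈ Ioc 0 (2 ^ J), ((c2 W N m : ℝ) : ℂ) * (m : ℂ) ^ (-((σ : ℂ) + t * I))‖) with hB2
  have hsub : (Ico T (T + H)).filter (fun n => ¬ GoodBox a X n) ⊆ B1 ∪ B2 := by
    intro n hn
    rw [mem_filter] at hn
    by_contra hcon
    rw [mem_union, not_or, hB1, hB2, mem_filter, mem_filter] at hcon
    apply hn.2
    intro σ hσ t ht
    have hn1 := mem_Ico.1 hn.1
    have hnT : (T : ℝ) ≤ n := by exact_mod_cast hn1.1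
    have hn2 : (n : ℝ) + 1 ≤ 2 * T + 1 := by
      have : n ≤ 2 * T := by omega
      have : (n : ℝ) ≤ 2 * T := by exact_mod_cast this
      linarith
    have h1 : ‖∑ m ∈ Ioc 0 (2 ^ J), ((c1 X N m : ℝ) : ℂ) * (m : ℂ) ^ (-((σ : ℂ) + t * I))‖ ≤
        (T : ℝ) ^ (-(ρ / 4)) := by
      by_contra h
      exact hcon.1 ⟨hn.1, σ, hσ, t, ht, not_le.1 h⟩
    have h2 : ‖∑ m ∈ Ioc 0 (2 ^ J), ((c2 W N m : ℝ) : ℂ) * (m : ℂ) ^ (-((σ : ℂ) + t * I))‖ ≤
        1 / 2 := by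
      by_contra h
      exact hcon.2 ⟨hn.1, σ, hσ, t, ht, not_le.1 h⟩
    rw [← c1_poly hX1 hXN] at h1
    rw [← c2_poly hW1 hN1 hWN] at h2
    refine good_point (T := T) (W := W) (X := X) hT3 hW1 (by linarith [hσ.1]) hσ.2
      (by linarith [ht.1]) (by linarith [ht.2]) h1 h2 ?_ ?_
    · -- 1200 W T^(-1/4) ≤ 1
      have e1 : (T : ℝ) ^ (3 / 16 : ℝ) * (T : ℝ) ^ (1 / 16 : ℝ) * (T : ℝ) ^ (-(1 / 4) : ℝ) = 1 := by
        rw [← Real.rpow_add hT0, ← Real.rpow_add hT0]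
        norm_num
      have e2 : (W : ℝ) ≤ (T : ℝ) ^ (1 / 16 : ℝ) :=
        le_trans hWle (Real.rpow_le_rpow_of_exponent_le hT1' (by linarith))
      refine le_trans ?_ e1.le
      apply mul_le_mul_of_nonneg_right _ (by positivity)
      exact mul_le_mul hT4 e2 (by positivity) (by positivity)
    · have hτ : (0 : ℝ) ≤ (T : ℝ) ^ (-(1 / 4) : ℝ) := by positivity
      have e1 : 4 * (W : ℝ) * (T : ℝ) ^ (-(ρ / 4)) ≤ 1 / 2 := by
        have h3 : (W : ℝ) ≤ (T : ℝ) ^ (ρ / 16) :=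
          le_trans hWle (Real.rpow_le_rpow_of_exponent_le hT1' hκ'ρ)
        have h4 : (T : ℝ) ^ (3 * ρ / 16) * ((T : ℝ) ^ (ρ / 16) * (T : ℝ) ^ (-(ρ / 4))) = 1 := by
          rw [← Real.rpow_add hT0, ← Real.rpow_add hT0]
          have : 3 * ρ / 16 + (ρ / 16 + -(ρ / 4)) = 0 := by ring
          rw [this, Real.rpow_zero]
        have h5 : 8 * ((T : ℝ) ^ (ρ / 16) * (T : ℝ) ^ (-(ρ / 4))) ≤ 1 := by
          refine le_trans ?_ h4.le
          exact mul_le_mul_of_nonneg_right hT5 (by positivity)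
        have h6 : (W : ℝ) * (T : ℝ) ^ (-(ρ / 4)) ≤ (T : ℝ) ^ (ρ / 16) * (T : ℝ) ^ (-(ρ / 4)) :=
          mul_le_mul_of_nonneg_right h3 (by positivity)
        linarith
      have e2 : 4 * (W : ℝ) * ((1200 + 300 * (X : ℝ) ^ 2) * (T : ℝ) ^ (-(1 / 4) : ℝ)) ≤ 1 / 2 := by
        have h3 : (W : ℝ) ≤ (T : ℝ) ^ (1 / 16 : ℝ) :=
          le_trans hWle (Real.rpow_le_rpow_of_exponent_le hT1' (by linarith))
        have h4 : (X : ℝ) ^ 2 ≤ (T : ℝ) ^ (1 / 8 : ℝ) := by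
          have : (X : ℝ) ≤ (T : ℝ) ^ (1 / 16 : ℝ) :=
            le_trans hXle (Real.rpow_le_rpow_of_exponent_le hT1' (by linarith))
          calc (X : ℝ) ^ 2 ≤ ((T : ℝ) ^ (1 / 16 : ℝ)) ^ 2 := pow_le_pow_left₀ (by positivity) this 2
            _ = (T : ℝ) ^ (1 / 8 : ℝ) := by
                rw [← Real.rpow_natCast, ← Real.rpow_mul hT0.le]
                norm_num
        have h5 : (1 : ℝ) ≤ (T : ℝ) ^ (1 / 8 : ℝ) := Real.one_le_rpow hT1' (by norm_num)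
        have h6 : 1200 + 300 * (X : ℝ) ^ 2 ≤ 1500 * (T : ℝ) ^ (1 / 8 : ℝ) := by linarith
        have h7 : (T : ℝ) ^ (1 / 16 : ℝ) *
            ((T : ℝ) ^ (1 / 16 : ℝ) * ((T : ℝ) ^ (1 / 8 : ℝ) * (T : ℝ) ^ (-(1 / 4) : ℝ))) = 1 := by
          rw [← Real.rpow_add hT0, ← Real.rpow_add hT0, ← Real.rpow_add hT0]
          norm_num
        have h8 : 12000 * ((T : ℝ) ^ (1 / 16 : ℝ) * ((T : ℝ) ^ (1 / 8 : ℝ) * (T : ℝ) ^ (-(1 / 4) : ℝ))) ≤ 1 := by
          refine le_trans ?_ h7.le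
          exact mul_le_mul_of_nonneg_right hT6 (by positivity)
        calc 4 * (W : ℝ) * ((1200 + 300 * (X : ℝ) ^ 2) * (T : ℝ) ^ (-(1 / 4) : ℝ))
            ≤ 4 * (T : ℝ) ^ (1 / 16 : ℝ) * ((1500 * (T : ℝ) ^ (1 / 8 : ℝ)) * (T : ℝ) ^ (-(1 / 4) : ℝ)) := by
              apply mul_le_mul _ _ (by positivity) (by positivity)
              · exact mul_le_mul_of_nonneg_left h3 (by norm_num)
              · exact mul_le_mul_of_nonneg_right h6 hτ
          _ = 6000 * ((T : ℝ) ^ (1 / 16 : ℝ) * ((T : ℝ) ^ (1 / 8 : ℝ) * (T : ℝ) ^ (-(1 / 4) : ℝ))) := by ring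
          _ ≤ 1 / 2 := by linarith
      calc 4 * (W : ℝ) * ((T : ℝ) ^ (-(ρ / 4)) + (1200 + 300 * (X : ℝ) ^ 2) * (T : ℝ) ^ (-(1 / 4) : ℝ))
          = 4 * (W : ℝ) * (T : ℝ) ^ (-(ρ / 4)) +
            4 * (W : ℝ) * ((1200 + 300 * (X : ℝ) ^ 2) * (T : ℝ) ^ (-(1 / 4) : ℝ)) := by ring
        _ ≤ 1 := by linarith
  -- the counts
  have hcard : (((Ico T (T + H)).filter (fun n => ¬ GoodBox a X n)).card : ℝ) ≤ B1.card + B2.card := by
    have h1 := Finset.card_le_card hsub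
    have h2 := Finset.card_union_le B1 B2
    exact_mod_cast le_trans h1 h2
  have hb1 : (B1.card : ℝ) ≤ H * (T : ℝ) ^ (-(ρ / 2)) := by
    have h1 : ((T : ℝ) ^ (-(ρ / 4))) ^ 2 = (T : ℝ) ^ (-(ρ / 2)) := by
      rw [← Real.rpow_natCast, ← Real.rpow_mul hT0.le]
      congr 1
      push_cast
      ring
    have h2 : (T : ℝ) ^ (-ρ) = (T : ℝ) ^ (-(ρ / 2)) * (T : ℝ) ^ (-(ρ / 2)) := by
      rw [← Real.rpow_add hT0]
      congr 1
      ring
    have h3 : (B1.card : ℝ) * ((T : ℝ) ^ (-(ρ / 4))) ^ 2 ≤ H * (T : ℝ) ^ (-ρ) := by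
      convert hs1 using 3
    rw [h1, h2, ← mul_assoc] at h3
    exact le_of_mul_le_mul_right h3 (Real.rpow_pos_of_pos hT0 _)
  have hb2 : (B2.card : ℝ) ≤ 4 * (H * (T : ℝ) ^ (-ρ')) := by
    have h3 : (B2.card : ℝ) * (1 / 2) ^ 2 ≤ H * (T : ℝ) ^ (-ρ') := by
      convert hs2 using 3
    linarith
  have hd1 : (T : ℝ) ^ (-(ρ / 2)) ≤ (T : ℝ) ^ (-(2 * δ)) := by
    apply Real.rpow_le_rpow_of_exponent_le hT1'
    have := min_le_left (ρ / 2) ρ'
    rw [hδ]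
    linarith
  have hd2 : (T : ℝ) ^ (-ρ') ≤ (T : ℝ) ^ (-(2 * δ)) := by
    apply Real.rpow_le_rpow_of_exponent_le hT1'
    have := min_le_right (ρ / 2) ρ'
    rw [hδ]
    linarith
  have hd3 : 5 * (T : ℝ) ^ (-(2 * δ)) ≤ (T : ℝ) ^ (-δ) := by
    have : (T : ℝ) ^ (-δ) = (T : ℝ) ^ δ * (T : ℝ) ^ (-(2 * δ)) := by
      rw [← Real.rpow_add hT0]
      congr 1
      ring
    rw [this]
    exact mul_le_mul_of_nonneg_right hT7 (by positivity)
  have hd4 : (H : ℝ) * (T : ℝ) ^ (-(ρ / 2)) ≤ H * (T : ℝ) ^ (-(2 * δ)) := mul_le_mul_of_nonneg_left hd1 hH0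
  have hd5 : (H : ℝ) * (T : ℝ) ^ (-ρ') ≤ H * (T : ℝ) ^ (-(2 * δ)) := mul_le_mul_of_nonneg_left hd2 hH0
  have hd6 : (H : ℝ) * (5 * (T : ℝ) ^ (-(2 * δ))) ≤ H * (T : ℝ) ^ (-δ) := mul_le_mul_of_nonneg_left hd3 hH0
  linarith

end Pool.Agent.Work.MP_e9b29d_nt
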