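import Mathlib
import Pool.Agent.Work.MP_e9b29d_nt.Good
import Pool.Agent.Work.MP_e9b29d_nt.Count

/-!
The almost-all theorem for the logarithmic derivative of the zeta function in the strip.
-/

namespace Pool.Agent.Work.MP_e9b29d_nt

open Complex Finset

lemma norm_cpow_nat {n : ℕ} (hn : 1 ≤ n) (σ t : ℝ) :
    ‖(n : ℂ) ^ (-((σ : ℂ) + t * I))‖ = (n : ℝ) ^ (-σ) := by
  have hn0 : (0 : ℝ) < n := by exact_mod_cast hn
  have : (n : ℂ) = ((n : ℝ) : ℂ) := by simp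
  rw [this, Complex.norm_cpow_eq_rpow_re_of_pos hn0]
  simp

lemma PS_rel (P : Finset ℕ) (hP : ∀ p ∈ P, 1 ≤ p) {Y0 : ℝ} (hY0 : 0 < Y0) (σ t : ℝ) :
    ‖∑ p ∈ P, (Real.log p : ℂ) * (p : ℂ) ^ (-((σ : ℂ) + t * I))‖ = Y0 ^ (1 - σ) * ‖PS P Y0 σ t‖ := by
  have h1 : ∑ p ∈ P, (Real.log p : ℂ) * (p : ℂ) ^ (-((σ : ℂ) + t * I)) =
      ((Y0 ^ (1 - σ) : ℝ) : ℂ) * PS P Y0 σ t := by
    unfold PS FF
    rw [Finset.mul_sum]
    apply Finset.sum_congr rfl
    intro p hp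
    rw [cpow_eq_cexp (hP p hp)]
    have e : ((Y0 ^ (1 - σ) : ℝ) : ℂ) * (((Real.log p / Y0 : ℝ) : ℂ) *
        cexp ((σ * (Real.log Y0 - Real.log p) : ℝ) : ℂ)) =
        (Real.log p : ℂ) * cexp ((σ * (-Real.log p) : ℝ) : ℂ) := by
      have h2 : Y0 ^ (1 - σ) * (Real.log p / Y0 * Real.exp (σ * (Real.log Y0 - Real.log p))) =
          Real.log p * Real.exp (σ * (-Real.log p)) := by
        have h3 : Y0 ^ (1 - σ) = Y0 * Real.exp (-(σ * Real.log Y0)) := by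
          rw [Real.rpow_def_of_pos hY0]
          have : Y0 * Real.exp (-(σ * Real.log Y0)) = Real.exp (Real.log Y0) * Real.exp (-(σ * Real.log Y0)) := by
            rw [Real.exp_log hY0]
          rw [this, ← Real.exp_add]
          congr 1
          ring
        have h4 : Real.exp (σ * (-Real.log p)) =
            Real.exp (-(σ * Real.log Y0)) * Real.exp (σ * (Real.log Y0 - Real.log p)) := by
          rw [← Real.exp_add]
          congr 1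
          ring
        rw [h3, h4]
        field_simp
      rw [← Complex.ofReal_exp, ← Complex.ofReal_exp]
      exact_mod_cast congrArg (fun x : ℝ => (x : ℂ)) h2
    rw [← mul_assoc, ← e]
    ring
  rw [h1, norm_mul, norm_real, Real.norm_eq_abs, abs_of_nonneg (by positivity)]

lemma sum_blocks (g : ℕ → ℂ) (X : ℕ) (Y0 : ℝ) (hY0 : 0 ≤ Y0) (J : ℕ) : by
    classical exact ∑ n ∈ (Ioc 0 X).filter (fun n : ℕ => n.Prime ∧ (n : ℝ) ≤ 2 ^ J * Y0), g n =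
      ∑ n ∈ (Ioc 0 X).filter (fun n : ℕ => n.Prime ∧ (n : ℝ) ≤ Y0), g n +
      ∑ j ∈ range J, ∑ p ∈ blk X (2 ^ j * Y0), g p := by
  classical
  induction J with
  | zero => simp
  | succ J ih =>
    rw [sum_range_succ, ← add_assoc, ← ih]
    have hdis : Disjoint ((Ioc 0 X).filter (fun n : ℕ => n.Prime ∧ (n : ℝ) ≤ 2 ^ J * Y0))
        (blk X (2 ^ J * Y0)) := by
      rw [Finset.disjoint_left]
      intro n hn hn'
      rw [mem_filter] at hn
      rw [mem_blk] at hn'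
      linarith [hn.2.2, hn'.2.2.1]
    rw [← Finset.sum_union hdis]
    apply Finset.sum_congr _ (fun _ _ => rfl)
    ext n
    rw [mem_union, mem_filter, mem_filter, mem_blk]
    have e : (2 : ℝ) ^ (J + 1) * Y0 = 2 * (2 ^ J * Y0) := by rw [pow_succ]; ring
    have h0 : 0 ≤ 2 ^ J * Y0 := by positivity
    rw [e]
    constructor
    · rintro ⟨h1, h2, h3⟩
      rcases le_or_gt (n : ℝ) (2 ^ J * Y0) with h | h
      · exact Or.inl ⟨h1, h2, h⟩
      · exact Or.inr ⟨h1, h2, h, h3⟩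
    · rintro (⟨h1, h2, h3⟩ | ⟨h1, h2, h3, h4⟩)
      · exact ⟨h1, h2, by linarith⟩
      · exact ⟨h1, h2, h4⟩

lemma DD_bound {a b Cpp Csp : ℝ} (ha : 0 ≤ a)
    (hpp : ∀ N : ℕ, ∑ n ∈ Ioc 0 N, (if n.Prime then 0 else ArithmeticFunction.vonMangoldt n) * (n : ℝ) ^ (-a) ≤ Cpp)
    (hsp : ∀ σ : ℝ, 0 ≤ σ → σ ≤ b → ∀ Y : ℝ, 1 ≤ Y → ∀ N : ℕ, (N : ℝ) ≤ Y →
      ∑ n ∈ Ioc 0 N, (if n.Prime then Real.log n else 0) * (n : ℝ) ^ (-σ) ≤ Csp * Y ^ (1 - σ))
    {X J : ℕ} {Y0 : ℝ} (hY0 : 1 ≤ Y0) (hX : (X : ℝ) ≤ 2 ^ J * Y0) {σ t : ℝ} (hσ : σ ∈ Set.Icc a b) :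
    ‖DD X ((σ : ℂ) + t * I)‖ ≤ Cpp + Csp * Y0 ^ (1 - σ) +
      Y0 ^ (1 - σ) * ∑ j ∈ range J, ‖PS (blk X (2 ^ j * Y0)) Y0 σ t‖ := by
  classical
  set s : ℂ := (σ : ℂ) + t * I with hs
  have hY00 : 0 < Y0 := by linarith
  have hsplit : DD X s = ∑ n ∈ Ioc 0 X, (((if n.Prime then 0 else ArithmeticFunction.vonMangoldt n : ℝ)) : ℂ) * (n : ℂ) ^ (-s)
      + ∑ n ∈ (Ioc 0 X).filter (fun n : ℕ => n.Prime ∧ (n : ℝ) ≤ 2 ^ J * Y0), (Real.log n : ℂ) * (n : ℂ) ^ (-s) := by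
    have h1 : (Ioc 0 X).filter (fun n : ℕ => n.Prime ∧ (n : ℝ) ≤ 2 ^ J * Y0) = (Ioc 0 X).filter (fun n : ℕ => n.Prime) := by
      apply Finset.filter_congr
      intro n hn
      have : (n : ℝ) ≤ X := by exact_mod_cast (mem_Ioc.1 hn).2
      constructor
      · exact fun h => h.1
      · exact fun h => ⟨h, by linarith⟩
    rw [h1, Finset.sum_filter, ← Finset.sum_add_distrib]
    unfold DD
    apply Finset.sum_congr rfl
    intro n _
    split_ifs with h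
    · rw [ArithmeticFunction.vonMangoldt_apply_prime h]
      simp
    · simp
  rw [hsplit]
  refine le_trans (norm_add_le _ _) ?_
  have h1 : ‖∑ n ∈ Ioc 0 X, (((if n.Prime then 0 else ArithmeticFunction.vonMangoldt n : ℝ)) : ℂ) * (n : ℂ) ^ (-s)‖ ≤ Cpp := by
    refine le_trans (norm_sum_le _ _) (le_trans ?_ (hpp X))
    apply Finset.sum_le_sum
    intro n hn
    have hn1 := (mem_Ioc.1 hn).1
    have h0 : 0 ≤ (if n.Prime then 0 else ArithmeticFunction.vonMangoldt n : ℝ) := by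
      split_ifs
      · exact le_rfl
      · exact ArithmeticFunction.vonMangoldt_nonneg
    rw [norm_mul, norm_real, Real.norm_eq_abs, abs_of_nonneg h0, hs, norm_cpow_nat hn1]
    apply mul_le_mul_of_nonneg_left _ h0
    apply Real.rpow_le_rpow_of_exponent_le (by exact_mod_cast hn1)
    linarith [hσ.1]
  have h2 : ‖∑ n ∈ (Ioc 0 X).filter (fun n : ℕ => n.Prime ∧ (n : ℝ) ≤ 2 ^ J * Y0), (Real.log n : ℂ) * (n : ℂ) ^ (-s)‖ ≤
      Csp * Y0 ^ (1 - σ) + Y0 ^ (1 - σ) * ∑ j ∈ range J, ‖PS (blk X (2 ^ j * Y0)) Y0 σ t‖ := by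
    rw [sum_blocks (fun n => (Real.log n : ℂ) * (n : ℂ) ^ (-s)) X Y0 hY00.le J]
    refine le_trans (norm_add_le _ _) (add_le_add ?_ ?_)
    · have h3 := hsp σ (by linarith [hσ.1]) hσ.2 Y0 hY0 ⌊Y0⌋₊ (Nat.floor_le hY00.le)
      refine le_trans (norm_sum_le _ _) (le_trans ?_ h3)
      have h4 : ∀ n ∈ (Ioc 0 X).filter (fun n : ℕ => n.Prime ∧ (n : ℝ) ≤ Y0),
          ‖(Real.log n : ℂ) * (n : ℂ) ^ (-s)‖ = (if n.Prime then Real.log n else 0) * (n : ℝ) ^ (-σ) := by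
        intro n hn
        rw [mem_filter] at hn
        rw [norm_mul, norm_real, Real.norm_eq_abs, abs_of_nonneg (Real.log_natCast_nonneg n), hs,
          norm_cpow_nat hn.2.1.one_lt.le, if_pos hn.2.1]
      rw [Finset.sum_congr rfl h4]
      apply Finset.sum_le_sum_of_subset_of_nonneg
      · intro n hn
        rw [mem_filter] at hn
        rw [mem_Ioc]
        exact ⟨hn.2.1.pos, Nat.le_floor hn.2.2⟩
      · intro n _ _
        apply mul_nonneg _ (by positivity)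
        split_ifs
        · exact Real.log_natCast_nonneg n
        · exact le_rfl
    · refine le_trans (norm_sum_le _ _) ?_
      rw [Finset.mul_sum]
      apply Finset.sum_le_sum
      intro j _
      rw [hs, PS_rel _ (fun p hp => (mem_blk.1 hp).2.1.one_lt.le) hY00]
  linarith

theorem propB {a b θ κ : ℝ} (ha : 1 / 2 < a) (hab : a < b) (hb : b < 1) (hθ : 0 < θ)
    (hθ1 : θ ≤ 1) (hκ0 : 0 < κ) (hκ : κ ≤ θ / 16) :
    ∃ C c δ : ℝ, 3 ≤ C ∧ 0 < c ∧ 0 < δ ∧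
    ∀ᶠ T : ℕ in Filter.atTop, ∀ H : ℕ, (T : ℝ) ^ θ ≤ H → ∀ y : ℝ, 3 * Real.log T ≤ y →
      ∃ Bad : Finset ℕ, (Bad.card : ℝ) ≤ H * ((T : ℝ) ^ (-δ) +
        (Real.log T / y) ^ (c * Real.log T / Real.log y)) ∧
      ∀ n ∈ Ico T (T + H), n ∉ Bad → ∀ σ ∈ Set.Icc a b, ∀ t ∈ Set.Icc (n : ℝ) (n + 1),
        ‖DD ⌊(T : ℝ) ^ κ⌋₊ ((σ : ℂ) + t * I)‖ ≤ (C - 1) * y ^ (1 - σ) := by
  classical
  obtain ⟨Cpp, hCpp0, hpp⟩ := prime_powers_bound ha
  obtain ⟨Csp, hCsp0, hsp⟩ := small_primes_bound hb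
  set r : ℝ := (2 : ℝ) ^ (-((2 * a - 1) / 4)) with hr
  have hr0 : 0 < r := by positivity
  have hr1 : r < 1 := Real.rpow_lt_one_of_one_lt_of_neg (by norm_num) (by linarith)
  have hr1' : 0 < 1 - r := by linarith
  set C : ℝ := 3 + Cpp + Csp + 1 / (1 - r) with hC
  have hc1i : 0 ≤ 1 / (1 - r) := by positivity
  set c : ℝ := θ / 48 with hc
  have hc0 : 0 < c := by rw [hc]; linarith
  set δ : ℝ := θ * (2 * a - 1) * Real.log 2 / 96 with hδ
  have hl2 : 0 < Real.log 2 := Real.log_pos (by norm_num)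
  have hδ0 : 0 < δ := by
    have : 0 < 2 * a - 1 := by linarith
    rw [hδ]; positivity
  refine ⟨C, c, δ, by rw [hC]; linarith, hc0, hδ0, ?_⟩
  have hlog : Filter.Tendsto (fun T : ℕ => Real.log (T : ℝ)) Filter.atTop Filter.atTop :=
    Real.tendsto_log_atTop.comp tendsto_natCast_atTop_atTop
  have hloglog : Filter.Tendsto (fun T : ℕ => Real.log (Real.log (T : ℝ))) Filter.atTop Filter.atTop :=
    Real.tendsto_log_atTop.comp hlog
  filter_upwards [block_count ha hab hb.le hθ hθ1 hκ, Filter.eventually_ge_atTop 3,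
    hlog.eventually_ge_atTop 3, hloglog.eventually_ge_atTop 10,
    ev_log_pow_nat 48 5 hδ0, hlog.eventually (ev_log_pow (20 / c) 2 (ρ := 1) one_pos)]
    with T hT1 hT2 hT3 hT4 hT5 hT6
  intro H hH y hy
  set ℓ : ℝ := Real.log T with hℓ
  set m2 : ℝ := Real.log ℓ with hm2
  have hℓ0 : 0 < ℓ := by linarith
  have hm20 : 0 < m2 := by linarith
  have hT0 : (0 : ℝ) < T := by exact_mod_cast (by omega : 0 < T)
  have hT1' : (1 : ℝ) ≤ T := by exact_mod_cast (by omega : 1 ≤ T)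
  have hyℓ : ℓ ≤ y := by linarith
  have hy1 : 1 ≤ y := by linarith
  have hy0 : 0 < y := by linarith
  -- log (y / ℓ)
  set u : ℝ := Real.log (y / ℓ) with hu
  have hu1 : 1 ≤ u := by
    rw [hu, Real.le_log_iff_exp_le (by positivity), le_div_iff₀ hℓ0]
    have := Real.exp_one_lt_d9
    nlinarith
  have hlogy : Real.log y = u + m2 := by
    rw [hu, Real.log_div hy0.ne' hℓ0.ne', ← hm2]
    ring
  have hlogy0 : 0 < Real.log y := by linarith
  set X : ℕ := ⌊(T : ℝ) ^ κ⌋₊ with hX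
  have hXle : (X : ℝ) ≤ (T : ℝ) ^ κ := Nat.floor_le (by positivity)
  set J : ℕ := ⌊2 * ℓ⌋₊ with hJ
  have hJle : (J : ℝ) ≤ 2 * ℓ := Nat.floor_le (by linarith)
  have hJ2 : (T : ℝ) ≤ 2 ^ J := by
    have h1 : 2 * ℓ - 1 < J := by
      have := Nat.lt_floor_add_one (2 * ℓ)
      rw [← hJ] at this
      linarith
    have h2 : (2 : ℝ) ^ J = Real.exp (J * Real.log 2) := by
      rw [← Real.log_pow, Real.exp_log (by positivity)]
    rw [h2, ← Real.exp_log hT0, ← hℓ]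
    apply Real.exp_le_exp.2
    have h3 : (0.69 : ℝ) ≤ Real.log 2 := by have := Real.log_two_gt_d9; linarith
    have h4 : (2 * ℓ - 1) * 0.69 ≤ J * Real.log 2 :=
      mul_le_mul h1.le h3 (by norm_num) (Nat.cast_nonneg J)
    linarith
  have hXJ : (X : ℝ) ≤ 2 ^ J * y := by
    have h1 : (T : ℝ) ^ κ ≤ T := by
      calc (T : ℝ) ^ κ ≤ (T : ℝ) ^ (1 : ℝ) := Real.rpow_le_rpow_of_exponent_le hT1' (by linarith)
        _ = T := Real.rpow_one _
    have h2 : (2 : ℝ) ^ J * 1 ≤ 2 ^ J * y := mul_le_mul_of_nonneg_left hy1 (by positivity)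
    linarith
  set bd : ℕ → Finset ℕ := fun j => badP a b (blk X (2 ^ j * y)) y (r ^ j) T (T + H) with hbd
  refine ⟨(range J).biUnion bd, ?_, ?_⟩
  · -- cardinality
    have h1 : (((range J).biUnion bd).card : ℝ) ≤ ∑ j ∈ range J, ((bd j).card : ℝ) := by
      exact_mod_cast Finset.card_biUnion_le
    refine le_trans h1 ?_
    have h2 : ∑ j ∈ range J, ((bd j).card : ℝ) ≤ ∑ j ∈ range J, 24 * ℓ ^ 4 * H *
        ((ℓ / y) ^ (θ / 24 * ℓ / Real.log y) + (T : ℝ) ^ (-(θ * (2 * a - 1) * Real.log 2 / 48))) :=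
      Finset.sum_le_sum fun j _ => hT1 H hH y hyℓ j X hXle
    refine le_trans h2 ?_
    rw [sum_const, card_range, nsmul_eq_mul]
    have hH0 : (0 : ℝ) ≤ H := Nat.cast_nonneg H
    have hℓy : 0 < ℓ / y := by positivity
    have e1 : (T : ℝ) ^ (-(θ * (2 * a - 1) * Real.log 2 / 48)) = (T : ℝ) ^ (-δ) * (T : ℝ) ^ (-δ) := by
      rw [← Real.rpow_add hT0]
      congr 1
      rw [hδ]
      ring
    have e2 : (ℓ / y) ^ (θ / 24 * ℓ / Real.log y) =
        (ℓ / y) ^ (c * ℓ / Real.log y) * (ℓ / y) ^ (c * ℓ / Real.log y) := by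
      rw [← Real.rpow_add hℓy]
      congr 1
      rw [hc]
      ring
    have hb1 : 48 * ℓ ^ 5 * (T : ℝ) ^ (-δ) ≤ 1 := by
      have h3 : (T : ℝ) ^ δ * (T : ℝ) ^ (-δ) = 1 := by
        rw [← Real.rpow_add hT0, add_neg_cancel, Real.rpow_zero]
      refine le_trans ?_ h3.le
      exact mul_le_mul_of_nonneg_right hT5 (by positivity)
    have hb2 : 48 * ℓ ^ 5 * (ℓ / y) ^ (c * ℓ / Real.log y) ≤ 1 := by
      have e3 : (ℓ / y) ^ (c * ℓ / Real.log y) = Real.exp (-(u * (c * ℓ / Real.log y))) := by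
        rw [Real.rpow_def_of_pos hℓy]
        congr 1
        have : Real.log (ℓ / y) = -u := by
          rw [hu, ← Real.log_inv, inv_div]
        rw [this]
        ring
      have h4 : 48 * ℓ ^ 5 = Real.exp (Real.log 48 + 5 * m2) := by
        rw [Real.exp_add, Real.exp_log (by norm_num)]
        congr 1
        have : 5 * m2 = ((5 : ℕ) : ℝ) * Real.log ℓ := by rw [hm2]; norm_num
        rw [this, ← Real.log_pow, Real.exp_log (by positivity)]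
      rw [h4, e3, ← Real.exp_add, Real.exp_le_one_iff]
      have h5 : Real.log 48 ≤ 5 * m2 := by
        have := Real.log_le_sub_one_of_pos (by norm_num : (0 : ℝ) < 48)
        linarith
      have h6 : 10 * m2 ≤ u * (c * ℓ / Real.log y) := by
        rw [hlogy, mul_div_assoc', le_div_iff₀ (by linarith)]
        rw [Real.rpow_one] at hT6
        have h7 : 20 / c * m2 ^ 2 * c ≤ ℓ * c := mul_le_mul_of_nonneg_right hT6 hc0.le
        have h8 : 20 / c * m2 ^ 2 * c = 20 * m2 * m2 := by field_simp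
        have h9 : 20 * m2 * m2 ≤ c * ℓ := by linarith
        -- 10 m2 (u + m2) ≤ u (c ℓ)
        have h10 : u + m2 ≤ u * (2 * m2) := by nlinarith
        calc 10 * m2 * (u + m2) ≤ 10 * m2 * (u * (2 * m2)) :=
              mul_le_mul_of_nonneg_left h10 (by positivity)
          _ = u * (20 * m2 * m2) := by ring
          _ ≤ u * (c * ℓ) := mul_le_mul_of_nonneg_left h9 (by linarith)
      linarith
    have hp1 : 0 ≤ (T : ℝ) ^ (-δ) := by positivity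
    have hp2 : 0 ≤ (ℓ / y) ^ (c * ℓ / Real.log y) := by positivity
    rw [e1, e2]
    calc (J : ℝ) * (24 * ℓ ^ 4 * H * ((ℓ / y) ^ (c * ℓ / Real.log y) * (ℓ / y) ^ (c * ℓ / Real.log y) +
          (T : ℝ) ^ (-δ) * (T : ℝ) ^ (-δ)))
        ≤ (2 * ℓ) * (24 * ℓ ^ 4 * H * ((ℓ / y) ^ (c * ℓ / Real.log y) * (ℓ / y) ^ (c * ℓ / Real.log y) +
          (T : ℝ) ^ (-δ) * (T : ℝ) ^ (-δ))) :=
          mul_le_mul_of_nonneg_right hJle (by positivity)
      _ = H * ((48 * ℓ ^ 5 * (T : ℝ) ^ (-δ)) * (T : ℝ) ^ (-δ) +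
          (48 * ℓ ^ 5 * (ℓ / y) ^ (c * ℓ / Real.log y)) * (ℓ / y) ^ (c * ℓ / Real.log y)) := by ring
      _ ≤ H * (1 * (T : ℝ) ^ (-δ) + 1 * (ℓ / y) ^ (c * ℓ / Real.log y)) := by
          apply mul_le_mul_of_nonneg_left _ hH0
          exact add_le_add (mul_le_mul_of_nonneg_right hb1 hp1) (mul_le_mul_of_nonneg_right hb2 hp2)
      _ = H * ((T : ℝ) ^ (-δ) + (ℓ / y) ^ (c * ℓ / Real.log y)) := by rw [one_mul, one_mul]
  · -- the bound
    intro n hn hnB σ hσ t ht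
    have h1 := DD_bound (a := a) (b := b) (by linarith) hpp hsp (X := X) (J := J) hy1 hXJ (t := t) hσ
    refine le_trans h1 ?_
    have h2 : ∑ j ∈ range J, ‖PS (blk X (2 ^ j * y)) y σ t‖ ≤ ∑ j ∈ range J, r ^ j := by
      apply Finset.sum_le_sum
      intro j hj
      by_contra hcon
      apply hnB
      rw [mem_biUnion]
      refine ⟨j, hj, ?_⟩
      rw [hbd]
      simp only
      rw [mem_badP]
      exact ⟨hn, σ, hσ, t, ht, not_le.1 hcon⟩
    have h3 : ∑ j ∈ range J, r ^ j ≤ 1 / (1 - r) := by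
      rw [le_div_iff₀ hr1', geom_sum_mul_neg]
      have : 0 ≤ r ^ J := by positivity
      linarith
    have h5 : 1 ≤ y ^ (1 - σ) := Real.one_le_rpow hy1 (by linarith [hσ.2])
    have h6 : Cpp * 1 ≤ Cpp * y ^ (1 - σ) := mul_le_mul_of_nonneg_left h5 hCpp0
    have h9 : y ^ (1 - σ) * ∑ j ∈ range J, ‖PS (blk X (2 ^ j * y)) y σ t‖ ≤ y ^ (1 - σ) * (1 / (1 - r)) :=
      mul_le_mul_of_nonneg_left (le_trans h2 h3) (by linarith)
    have e : (C - 1) * y ^ (1 - σ) = 2 * y ^ (1 - σ) + Cpp * y ^ (1 - σ) + Csp * y ^ (1 - σ) +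
        y ^ (1 - σ) * (1 / (1 - r)) := by rw [hC]; ring
    rw [e]
    linarith

open Classical in
theorem main {σ₀ σ₁ θ : ℝ} (h0 : 1 / 2 < σ₀) (h01 : σ₀ < σ₁) (h1 : σ₁ < 1)
    (hθ : 2 - 2 * σ₀ < θ) (hθ1 : θ ≤ 1) :
    ∃ C c δ T₀ : ℝ, 0 < C ∧ 0 < c ∧ 0 < δ ∧ ∀ T H : ℕ, T₀ ≤ T → (T : ℝ) ^ θ ≤ H → H ≤ T →
      ∀ y : ℝ, C * Real.log T ≤ y →
      (((Ico T (T + H)).filter (fun n : ℕ => ¬ (∀ t ∈ Set.Icc (n : ℝ) (n + 1),
          (∀ σ : ℝ, σ₀ ≤ σ → riemannZeta (σ + t * I) ≠ 0) ∧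
          ∀ σ ∈ Set.Icc σ₀ σ₁, ‖deriv riemannZeta (σ + t * I) / riemannZeta (σ + t * I)‖ ≤
            C * y ^ (1 - σ)))).card : ℝ) ≤
      H * ((T : ℝ) ^ (-δ) + (Real.log T / y) ^ (c * Real.log T / Real.log y)) := by
  obtain ⟨κ, δ1, hκ0, hδ10, hκθ, hA⟩ := propA h0 (h01.trans h1) hθ hθ1
  obtain ⟨C, c, δ2, hC4, hc0, hδ20, hB⟩ := propB h0 h01 h1 (by linarith) hθ1 hκ0 hκθ
  set δ : ℝ := min δ1 δ2 / 2 with hδ
  have hδ0 : 0 < δ := half_pos (lt_min hδ10 hδ20)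
  have hlog : Filter.Tendsto (fun T : ℕ => Real.log (T : ℝ)) Filter.atTop Filter.atTop :=
    Real.tendsto_log_atTop.comp tendsto_natCast_atTop_atTop
  have hev := ((hA.and hB).and ((Filter.eventually_ge_atTop 3).and
    ((hlog.eventually_ge_atTop 1).and (ev_const_nat 2 hδ0))))
  obtain ⟨T₀, hT₀⟩ := Filter.eventually_atTop.1 hev
  refine ⟨C, c, δ, T₀, by linarith, hc0, hδ0, ?_⟩
  intro T H hT hH hHT y hy
  obtain ⟨⟨hA', hB'⟩, hT3, hT4, hT6⟩ := hT₀ T (by exact_mod_cast hT)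
  have hT0 : (0 : ℝ) < T := by exact_mod_cast (by omega : 0 < T)
  have hT1' : (1 : ℝ) ≤ T := by exact_mod_cast (by omega : 1 ≤ T)
  have hy3 : 3 * Real.log T ≤ y := by nlinarith
  have hy1 : 1 ≤ y := by linarith
  obtain ⟨Bad, hBc, hBn⟩ := hB' H hH y hy3
  have hA'' := hA' H hH hHT
  have hH0 : (0 : ℝ) ≤ H := Nat.cast_nonneg H
  set BA := (Ico T (T + H)).filter (fun n => ¬ GoodBox σ₀ ⌊(T : ℝ) ^ κ⌋₊ n) with hBA
  have hsub : (Ico T (T + H)).filter (fun n : ℕ => ¬ (∀ t ∈ Set.Icc (n : ℝ) (n + 1),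
          (∀ σ : ℝ, σ₀ ≤ σ → riemannZeta (σ + t * I) ≠ 0) ∧
          ∀ σ ∈ Set.Icc σ₀ σ₁, ‖deriv riemannZeta (σ + t * I) / riemannZeta (σ + t * I)‖ ≤
            C * y ^ (1 - σ))) ⊆ BA ∪ Bad := by
    intro n hn
    rw [mem_filter] at hn
    by_contra hcon
    rw [mem_union, not_or] at hcon
    have hg : GoodBox σ₀ ⌊(T : ℝ) ^ κ⌋₊ n := by
      by_contra h
      exact hcon.1 (by rw [hBA, mem_filter]; exact ⟨hn.1, h⟩)
    apply hn.2
    intro t ht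
    constructor
    · intro σ hσ
      rcases le_or_gt σ 1 with h | h
      · exact (hg σ ⟨hσ, h⟩ t ht).1
      · apply riemannZeta_ne_zero_of_one_le_re
        simp
        exact h.le
    · intro σ hσ
      have h2 := (hg σ ⟨hσ.1, by linarith [hσ.2]⟩ t ht).2
      have h3 := hBn n hn.1 hcon.2 σ hσ t ht
      have h4 : ‖deriv riemannZeta (σ + t * I) / riemannZeta (σ + t * I)‖ ≤
          ‖deriv riemannZeta (σ + t * I) / riemannZeta (σ + t * I) + DD ⌊(T : ℝ) ^ κ⌋₊ (σ + t * I)‖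
          + ‖DD ⌊(T : ℝ) ^ κ⌋₊ (σ + t * I)‖ := by
        have := norm_sub_le (deriv riemannZeta (σ + t * I) / riemannZeta (σ + t * I) +
          DD ⌊(T : ℝ) ^ κ⌋₊ (σ + t * I)) (DD ⌊(T : ℝ) ^ κ⌋₊ (σ + t * I))
        rw [add_sub_cancel_right] at this
        exact this
      have h5 : 1 ≤ y ^ (1 - σ) := Real.one_le_rpow hy1 (by linarith [hσ.2])
      linarith
  have hcard := Finset.card_le_card hsub
  have hcard2 : ((((Ico T (T + H)).filter (fun n : ℕ => ¬ (∀ t ∈ Set.Icc (n : ℝ) (n + 1),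
          (∀ σ : ℝ, σ₀ ≤ σ → riemannZeta (σ + t * I) ≠ 0) ∧
          ∀ σ ∈ Set.Icc σ₀ σ₁, ‖deriv riemannZeta (σ + t * I) / riemannZeta (σ + t * I)‖ ≤
            C * y ^ (1 - σ)))).card : ℕ) : ℝ) ≤
      (BA.card : ℝ) + (Bad.card : ℝ) := by
    rw [← Nat.cast_add]
    exact Nat.cast_le.2 (le_trans hcard (Finset.card_union_le _ _))
  refine le_trans hcard2 ?_
  have hd1 : (T : ℝ) ^ (-δ1) ≤ (T : ℝ) ^ (-(2 * δ)) := by
    apply Real.rpow_le_rpow_of_exponent_le hT1'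
    have := min_le_left δ1 δ2
    rw [hδ]
    linarith
  have hd2 : (T : ℝ) ^ (-δ2) ≤ (T : ℝ) ^ (-(2 * δ)) := by
    apply Real.rpow_le_rpow_of_exponent_le hT1'
    have := min_le_right δ1 δ2
    rw [hδ]
    linarith
  have hd3 : 2 * (T : ℝ) ^ (-(2 * δ)) ≤ (T : ℝ) ^ (-δ) := by
    have : (T : ℝ) ^ (-δ) = (T : ℝ) ^ δ * (T : ℝ) ^ (-(2 * δ)) := by
      rw [← Real.rpow_add hT0]
      congr 1
      ring
    rw [this]
    exact mul_le_mul_of_nonneg_right hT6 (by positivity)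
  have h7 : (H : ℝ) * (T : ℝ) ^ (-δ1) ≤ H * (T : ℝ) ^ (-(2 * δ)) := mul_le_mul_of_nonneg_left hd1 hH0
  have h8 : (H : ℝ) * (T : ℝ) ^ (-δ2) ≤ H * (T : ℝ) ^ (-(2 * δ)) := mul_le_mul_of_nonneg_left hd2 hH0
  have h9 : (H : ℝ) * (2 * (T : ℝ) ^ (-(2 * δ))) ≤ H * (T : ℝ) ^ (-δ) := mul_le_mul_of_nonneg_left hd3 hH0
  rw [mul_add] at hBc ⊢
  linarith

end Pool.Agent.Work.MP_e9b29d_nt
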